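import Pool.Agent.Lib.DK.F.Spec
import Pool.Agent.Lib.DI.F.VPB
import Pool.Agent.Lib.DI.F5.All

/-!
# Theorem DK, part F, module Asm: assembly of Proposition F (helper84)
-/

set_option autoImplicit false
set_option linter.unusedSectionVars false

open scoped Pointwise Topology MatrixGroups
open Filter CongruenceSubgroup

noncomputable section

namespace Pool.Agent.DK.F

open Pool.Agent.MuZ Pool.Agent.FW NumberField IsDedekindDomain Pool.Agent.DK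
open Pool.Agent.DI (io ofC io_inj exists_io io_ofC ofC_io VP MP UP TP ex sqr sqr_sq kap)

private theorem Asm_qq (z : UpperHalfPlane) : DIF5.qq z = ex (z : ℂ) := rfl

private theorem Asm_g0 {M : ℕ} {γ : SL(2, ℤ)} (hγ : γ ∈ Gamma1 M) :
    G0 M (γ 0 0) (γ 0 1) (γ 1 0) (γ 1 1) ∧ (M : ℤ) ∣ γ 1 1 - 1 := by
  obtain ⟨g1, g2, g3⟩ := (Gamma1_mem _ γ).mp hγ
  have hdet : γ 0 0 * γ 1 1 - γ 0 1 * γ 1 0 = 1 := by
    have h := γ.det_coe
    rw [Matrix.det_fin_two] at h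
    exact h
  have hc : (M : ℤ) ∣ γ 1 0 := (ZMod.intCast_zmod_eq_zero_iff_dvd _ _).mp g3
  have hd : (M : ℤ) ∣ γ 1 1 - 1 := by
    have h : ((γ 1 1 - 1 : ℤ) : ZMod M) = 0 := by
      push_cast
      rw [g2, sub_self]
    exact (ZMod.intCast_zmod_eq_zero_iff_dvd _ _).mp h
  exact ⟨⟨hdet, hc⟩, hd⟩

private theorem Asm_co (γ : SL(2, ℤ)) (z : UpperHalfPlane) : ((γ • z : UpperHalfPlane) : ℂ) =
    ((γ 0 0 : ℤ) * (z : ℂ) + (γ 0 1 : ℤ)) / ((γ 1 0 : ℤ) * (z : ℂ) + (γ 1 1 : ℤ)) := by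
  rw [UpperHalfPlane.coe_specialLinearGroup_apply]
  simp

theorem tAsm (hKf : S_Kf) (hF1 : S_F1) (hLead : S_Lead) (hPsi : S_Psi) (hFH : S_FH) : S_F := by
  intro k _ f M m R hm hR hRC hlv hmt χ hχ P hP
  by_contra hcon
  have hcon' : ∀ a b c d : ℤ, G0 M a b c d → (M : ℤ) ∣ d - 1 →
      MP P (etaX f m R χ (b / d) + etaX f m R χ (-(b / d)) - 2 * etaX f m R χ 0) := by
    intro a b c d h1 h2
    by_contra h3
    exact hcon ⟨a, b, c, d, h1, h2, h3⟩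
  have hPp : P.IsPrime := hP.1.1
  obtain ⟨hfin, -, ⟨σ, hσ⟩, -⟩ := hKf k f hm.odd hm.three
  obtain ⟨N0, β, β', hN0, hβ, hβ', hu, hu', hvp, hα⟩ :=
    hF1 k f M m R hm hR hRC hlv χ hχ P hP σ hσ hcon'
  have hm' : FM f (cjI m) := fm_cj hm
  have hlv' : IsLv f (cjI m) R M := lv_cj hlv
  have hmt' : cjI m ≠ ⊤ := by
    intro h
    apply hmt
    rw [← cjI_cjI m, h, cjI_top]
  have hUA : UP P (aF f m R σ N0 β 1) :=
    (hLead k f m R hm hR hRC σ hσ N0 β hβ).2.2.2 hmt P hP hN0 hu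
  have hUB : UP P (aF f (cjI m) R σ N0 β' 1) :=
    (hLead k f (cjI m) R hm' hR hRC σ hσ N0 β' hβ').2.2.2 hmt' P hP hN0
      (fun b1 hb1 _ => hu' (σ b1) (hσ.mem b1 (fr_fb hR hb1)))
  obtain ⟨Ψ, hmero, hinv, hcusp, TA, WA, TB, WB, ψ, Y, hψL, hTA, hTB, hψ0, hrel, hsum⟩ :=
    hPsi k f M m (cjI m) R hm hm' hR hRC hlv hlv' σ hσ N0 β β' hβ hβ'
      (DI.UP.ne_zero hUA) (DI.UP.ne_zero hUB)
  have hM : NeZero M := ⟨by
    have := hlv.three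
    omega⟩
  obtain ⟨L', -, hfin', Q1, Q2, -, hQ2, hQ, hco⟩ := DIF5.tW2 M io (DI.F.VS hP.1.1 hP.1.2) (Kf k f)
    Ψ ψ 2 Y hmero
    (fun γ hγ z => by
      obtain ⟨h1, h2⟩ := Asm_g0 hγ
      obtain ⟨α, α', hpar, hz⟩ := hα _ _ _ _ h1 h2
      obtain ⟨e1, e2⟩ := hz (z : ℂ) z.im_pos
      rw [← Asm_co] at e1 e2
      exact hinv (z : ℂ) _ z.im_pos (γ • z).im_pos α α' hpar e1 e2)
    hcusp hψ0 hψL
    (fun z hz => by
      have h := hsum (z : ℂ) hz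
      rw [Asm_qq]
      exact h)
  exact hFH k f m (cjI m) R hm hm' hR hRC P hP σ hσ N0 β β' hβ hβ' hvp
    (fun τ hτ => (hu' τ hτ).1) hUA hUB TA WA TB WB ψ Q1 Q2 hTA hTB hψ0 hrel hQ2 hQ L' hfin'
    (fun n => (hco n).1) (fun n => (hco n).2.2.1) (fun n => (hco n).2.1)
    (fun n => (hco n).2.2.2)

end Pool.Agent.DK.F
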