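import Pool.Agent.Lib.DK.F.Spec
import Pool.Agent.Lib.DI.F.Lin
import Pool.Agent.Lib.DI.F.ResFin
import Pool.Agent.Lib.DI.F.Frac

/-!
# Theorem DK, part F, module Bet: the element `β`
-/

set_option autoImplicit false
set_option linter.unusedSectionVars false

open scoped Pointwise Topology

noncomputable section

namespace Pool.Agent.DK.F

open Pool.Agent.MuZ Pool.Agent.FW NumberField IsDedekindDomain Pool.Agent.DK
open Pool.Agent.DI (io ofC io_inj exists_io io_ofC ofC_io VP MP UP TP ex sqr sqr_sq kap)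
open Pool.Agent.DI.F (RF red red_one red_mul red_zero red_add red_eq_iff red_eq_zero_iff red_sum
  charP_RF exists_two_pow vp_mul vp_add vp_sub vp_one vp_zero vp_neg vp_natCast vp_integral vp_sum
  vp_pow mp_vp mp_coe mp_add mp_sub mp_mul_vp not_mp_one up_add_mp up_mul up_pow up_inv up_ne_zero
  tLin tResFin tFrac)

variable {k : ℕ} [SqK k]

/-- The ring `A`. -/
def Bet_A (k f : ℕ) {P : Ideal ZZ} (hP : P.IsPrime) : Subring Om where
  carrier := {x | x ∈ Kf k f ∧ ∀ τ ∈ GK k, VP P (τ x)}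
  mul_mem' := by
    rintro x y ⟨hx, hx'⟩ ⟨hy, hy'⟩
    refine ⟨mul_mem hx hy, fun τ hτ => ?_⟩
    rw [map_mul]
    exact vp_mul hP (hx' τ hτ) (hy' τ hτ)
  one_mem' := by
    refine ⟨one_mem _, fun τ _ => ?_⟩
    rw [map_one]
    exact vp_one hP
  add_mem' := by
    rintro x y ⟨hx, hx'⟩ ⟨hy, hy'⟩
    refine ⟨add_mem hx hy, fun τ hτ => ?_⟩
    rw [map_add]
    exact vp_add hP (hx' τ hτ) (hy' τ hτ)
  zero_mem' := by
    refine ⟨zero_mem _, fun τ _ => ?_⟩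
    rw [map_zero]
    exact vp_zero hP
  neg_mem' := by
    rintro x ⟨hx, hx'⟩
    refine ⟨neg_mem hx, fun τ hτ => ?_⟩
    rw [map_neg]
    exact vp_neg hP (hx' τ hτ)

/-- The residue maps. -/
def Bet_r (k f : ℕ) {P : Ideal ZZ} (hP : P.IsPrime) (h0 : P ≠ ⊥) (τ : Gal(Om/ℚ)) (hτ : τ ∈ GK k) :
    Bet_A k f hP →+* RF hP h0 where
  toFun x := red hP h0 (τ (x : Om))
  map_one' := by
    change red hP h0 (τ (1 : Om)) = 1
    rw [map_one]
    exact red_one hP h0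
  map_mul' x y := by
    change red hP h0 (τ ((x : Om) * (y : Om))) = _
    rw [map_mul]
    exact red_mul hP h0 (x.2.2 τ hτ) (y.2.2 τ hτ)
  map_zero' := by
    change red hP h0 (τ (0 : Om)) = 0
    rw [map_zero]
    exact red_zero hP h0
  map_add' x y := by
    change red hP h0 (τ ((x : Om) + (y : Om))) = _
    rw [map_add]
    exact red_add hP h0 (x.2.2 τ hτ) (y.2.2 τ hτ)

private theorem Bet_w : wO k * (1 - wO k) = 2 * k := by
  linear_combination (-1 : Om) * (wO_sq (k := k))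

private theorem Bet_up {P : Ideal ZZ} (hP : AbP k P) : UP P (1 - wO k) := by
  have hPp := hP.1.1
  refine ⟨vp_sub hPp (vp_one hPp) (mp_vp hP.2.2), fun h => ?_⟩
  have h1 := mp_add hPp h hP.2.2
  rw [sub_add_cancel] at h1
  exact not_mp_one hPp h1

/-- The Galois theory which is used. -/
private structure Bet_G (k f : ℕ) (R : Finset (Ideal (OO k))) (σ : Ideal (OO k) → Gal(Om/ℚ)) : Prop where
  pos : 0 < f
  rc : IsRC f R
  sig : IsSig k f σ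
  psi : ∀ τ ∈ GK k, ∃ a : Ideal (OO k), Psi τ f a
  gal : ∀ τ ∈ GK k, ∀ τ' ∈ GK k, ∀ a a' : Ideal (OO k), Psi τ f a → Psi τ' f a' →
    ((∀ x ∈ Kf k f, τ x = τ' x) ↔ Ray f a a')

section sums

variable {f : ℕ} {R : Finset (Ideal (OO k))} {σ : Ideal (OO k) → Gal(Om/ℚ)}

/-- The class function `σ b x`. -/
private theorem Bet_cls (h : Bet_G k f R σ) {x : Om} (hx : x ∈ Kf k f) (b b' : Ideal (OO k))
    (hb : FB f b) (hb' : FB f b') (hr : Ray f b b') : σ b x = σ b' x :=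
  (h.gal _ (h.sig.mem b hb) _ (h.sig.mem b' hb') b b' (h.sig.psi b hb) (h.sig.psi b' hb')).2 hr x hx

private theorem Bet_left (h : Bet_G k f R σ) {τ : Gal(Om/ℚ)} (hτ : τ ∈ GK k) {x : Om}
    (hx : x ∈ Kf k f) : ∑ b ∈ R, τ (σ b x) = ∑ b ∈ R, σ b x := by
  obtain ⟨a, ha⟩ := h.psi τ hτ
  rw [← sum_mul h.pos h.rc (fb_psi ha) (fun b => σ b x) (Bet_cls h hx)]
  apply Finset.sum_congr rfl
  intro b hb
  have hb' := rc_fb h.rc hb
  have hab := fb_mul (fb_psi ha) hb'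
  exact (h.gal (τ * σ b) ((GK k).mul_mem hτ (h.sig.mem b hb')) _ (h.sig.mem _ hab) (a * b) (a * b)
    (Eb.psi_mul ha (h.sig.psi b hb')) (h.sig.psi _ hab)).2 (ray_refl h.pos _) x hx

private theorem Bet_right (h : Bet_G k f R σ) {ρ : Gal(Om/ℚ)} (hρ : ρ ∈ GK k) {x : Om}
    (hx : x ∈ Kf k f) : ∑ b ∈ R, σ b (ρ x) = ∑ b ∈ R, σ b x := by
  obtain ⟨a, ha⟩ := h.psi ρ hρ
  rw [← sum_mul h.pos h.rc (fb_psi ha) (fun b => σ b x) (Bet_cls h hx)]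
  apply Finset.sum_congr rfl
  intro b hb
  have hb' := rc_fb h.rc hb
  have hab := fb_mul (fb_psi ha) hb'
  have h1 : Psi (σ b * ρ) f (a * b) := by
    rw [mul_comm a b]
    exact Eb.psi_mul (h.sig.psi b hb') ha
  exact (h.gal (σ b * ρ) ((GK k).mul_mem (h.sig.mem b hb') hρ) _ (h.sig.mem _ hab) (a * b) (a * b)
    h1 (h.sig.psi _ hab)).2 (ray_refl h.pos _) x hx

end sums

/-- The first step: the element `β₀`. -/
private theorem Bet_ex (hKf : S_Kf) (hKP : S_KP) {f : ℕ} {R : Finset (Ideal (OO k))}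
    {σ : Ideal (OO k) → Gal(Om/ℚ)} (hG : Bet_G k f R σ) {P : Ideal ZZ} (hf : Odd f) (h3 : 3 ≤ f)
    (hP : AbP k P) (κ : Ideal (OO k) → Om) (S : Set Om) (hκ : ∀ b ∈ R, UP P (κ b))
    (hS : ∀ w ∈ S, w ∈ Kf k f ∧ ∀ Q : Ideal ZZ, Npr Q → MP Q 2 → VP Q w)
    (hS' : ∀ w ∈ S, ∀ τ ∈ GK k, τ w ∈ S)
    (hS'' : ∀ w ∈ S, MP P (∑ b ∈ R, κ b * σ b w)) (b1 : Ideal (OO k)) (hb1 : b1 ∈ R) :
    ∃ x ∈ Bet_A k f hP.1.1, (∃ s ∈ R, ¬ MP P (σ s x)) ∧ ∀ w ∈ S, MP P (∑ b ∈ R, σ b (x * w)) := by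
  classical
  obtain ⟨⟨hPp, h0⟩, hP2, hw⟩ := id hP
  obtain ⟨hfd, -, -, hst, hfix, -, hdist, -, -, -⟩ := hKf k f hf h3
  have h2 : (2 : ZZ) ∈ P := (mp_coe hPp 2).1 hP2
  have := charP_RF hPp h0 h2
  have hm : ∀ b ∈ R, σ b ∈ GK k := fun b hb => hG.sig.mem b (rc_fb hG.rc hb)
  have hvS : ∀ w ∈ S, ∀ τ ∈ GK k, VP P (τ w) := fun w hw τ hτ =>
    (hS _ (hS' w hw τ hτ)).2 P ⟨hPp, h0⟩ hP2
  have hSA : ∀ w ∈ S, w ∈ Bet_A k f hPp := fun w hw => ⟨(hS w hw).1, hvS w hw⟩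
  let r : {b // b ∈ R} → Bet_A k f hPp →+* RF hPp h0 := fun b => Bet_r k f hPp h0 (σ b.1) (hm b.1 b.2)
  have hinj : Function.Injective r := by
    intro b b' h
    apply Subtype.ext
    apply hG.rc.uni b.1 b.2 b'.1 b'.2
    refine (hG.gal _ (hm b.1 b.2) _ (hm b'.1 b'.2) b.1 b'.1 (hG.sig.psi _ (rc_fb hG.rc b.2))
      (hG.sig.psi _ (rc_fb hG.rc b'.2))).1 ?_
    apply hdist P ⟨hPp, h0⟩ hP2 _ (hm b.1 b.2) _ (hm b'.1 b'.2)
    intro x hx hxi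
    have hxv : ∀ τ : Gal(Om/ℚ), VP P (τ x) := fun τ =>
      vp_integral hPp (hxi.map ((τ : Om ≃ₐ[ℚ] Om).toAlgHom.restrictScalars ℤ))
    have hxR : x ∈ Bet_A k f hPp := ⟨hx, fun τ _ => hxv τ⟩
    have h4 := RingHom.congr_fun h ⟨x, hxR⟩
    rw [← red_eq_iff hPp h0 (hxv (σ b.1)) (hxv (σ b'.1))]
    exact h4
  have hfin : (Set.range fun (x : Bet_A k f hPp) (i : {b // b ∈ R}) => r i x).Finite := by
    have h4 := tResFin tFrac P hPp h0 h2 (Kf k f) hfd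
    apply (Set.Finite.pi (fun _ : {b // b ∈ R} => h4)).subset
    rintro _ ⟨x, rfl⟩ i _
    exact ⟨σ i.1 (x : Om), hst _ _ x.2.1, x.2.2 _ (hm _ i.2), rfl⟩
  have hsum : ∀ x : Om, x ∈ Bet_A k f hPp → ∀ i0 : RF hPp h0,
      i0 = ∑ i : {b // b ∈ R}, red hPp h0 (σ i.1 x) → i0 = red hPp h0 (∑ b ∈ R, σ b x) := by
    intro x hx i0 hi
    rw [hi, red_sum hPp h0 R (fun b => σ b x) fun b hb => hx.2 _ (hm b hb)]
    exact (Finset.sum_coe_sort R fun b => red hPp h0 (σ b x))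
  have h01 : ∀ x : Bet_A k f hPp, ∑ i, r i x = 0 ∨ ∑ i, r i x = 1 := by
    intro x
    have h4 := hsum x x.2 (∑ i, r i x) rfl
    have hv : VP P (∑ b ∈ R, σ b (x : Om)) := vp_sum hPp _ _ fun b hb => x.2.2 _ (hm b hb)
    have hK : (∑ b ∈ R, σ b (x : Om)) ∈ KQ k := by
      apply hfix
      intro τ hτ
      rw [map_sum]
      exact Bet_left hG hτ x.2.1
    rw [h4]
    rcases (hKP k P hP).2.1 _ hK hv with h5 | h5
    · left
      exact (red_eq_zero_iff hPp h0 hv).2 h5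
    · right
      rw [← red_one hPp h0]
      exact (red_eq_iff hPp h0 hv (vp_one hPp)).2 h5
  obtain ⟨x, ⟨i, hi⟩, hx⟩ := tLin (Bet_A k f hPp) (RF hPp h0) {b // b ∈ R} r hinj hfin h01
    (fun i => red hPp h0 (κ i.1)) {w | (w : Om) ∈ S}
    ⟨⟨b1, hb1⟩, fun h => (hκ b1 hb1).2 ((red_eq_zero_iff hPp h0 (hκ b1 hb1).1).1 h)⟩ (by
      intro w hw
      have hw' : (w : Om) ∈ S := hw
      have h4 := (red_eq_zero_iff hPp h0 (mp_vp (hS'' _ hw'))).2 (hS'' _ hw')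
      rw [red_sum hPp h0 R _ fun b hb =>
        vp_mul hPp (hκ b hb).1 (hvS _ hw' _ (hm b hb))] at h4
      rw [← h4, ← Finset.sum_coe_sort R fun b => red hPp h0 (κ b * σ b (w : Om))]
      apply Finset.sum_congr rfl
      intro b _
      exact (red_mul hPp h0 (hκ b.1 b.2).1 (hvS _ hw' _ (hm b.1 b.2))).symm)
  refine ⟨x, x.2, ⟨i.1, i.2, fun h => hi ?_⟩, ?_⟩
  · exact (red_eq_zero_iff hPp h0 (mp_vp h)).2 h
  · intro w hw
    have h4 := hx ⟨w, hSA w hw⟩ hw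
    have hv : ∀ b ∈ R, VP P (σ b ((x : Om) * w)) := by
      intro b hb
      rw [map_mul]
      exact vp_mul hPp (x.2.2 _ (hm b hb)) (hvS w hw _ (hm b hb))
    rw [← red_eq_zero_iff hPp h0 (vp_sum hPp _ _ hv), red_sum hPp h0 R _ hv, ← h4,
      ← Finset.sum_coe_sort R fun b => red hPp h0 (σ b ((x : Om) * w))]
    apply Finset.sum_congr rfl
    intro b _
    rw [map_mul]
    exact red_mul hPp h0 (x.2.2 _ (hm b.1 b.2)) (hvS w hw _ (hm b.1 b.2))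

private theorem Bet_pow {P : Ideal ZZ} (hP : P.IsPrime) {x : Om} {j n : ℕ} (h : j ≤ n)
    (hx : VP P (2 ^ j * x)) : VP P (2 ^ n * x) := by
  obtain ⟨i, rfl⟩ := Nat.exists_eq_add_of_le h
  have h1 : (2 : Om) ^ (j + i) * x = ((2 ^ i : ℕ) : Om) * (2 ^ j * x) := by
    push_cast
    ring
  rw [h1]
  exact vp_mul hP (vp_natCast hP _) hx

private theorem Bet_alg {w wb K y : Om} (h : w * wb = 2 * K) (hwb : wb ≠ 0) (j : ℕ) :
    w ^ (j + 1) * y = w * ((K ^ j * (2 ^ j * y)) * (wb ^ j)⁻¹) := by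
  have h1 : w ^ j * wb ^ j = 2 ^ j * K ^ j := by rw [← mul_pow, h, mul_pow]
  have h2 : wb ^ j ≠ 0 := pow_ne_zero j hwb
  have h3 : w ^ j * y = (K ^ j * (2 ^ j * y)) * (wb ^ j)⁻¹ := by
    rw [eq_mul_inv_iff_mul_eq₀ h2]
    linear_combination y * h1
  rw [← h3, pow_succ]
  ring

/-- **The element `β`.** -/
theorem tBet (hE1 : S_E1) (hKf : S_Kf) (hKP : S_KP) : S_Bet := by
  intro k _ f R hf h3 hR P hP σ hσ c hc κ S hκ hS hS' hS'' b1 hb1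
  have hf0 : 0 < f := by omega
  obtain ⟨-, hwK, -, hst, -, hgal, -, -, -, -⟩ := hKf k f hf h3
  have hG : Bet_G k f R σ := ⟨hf0, hR, hσ, (hE1 k f hf0).1, hgal⟩
  obtain ⟨x, hxA, ⟨s, hs, hsx⟩, hx⟩ := Bet_ex hKf hKP hG hf h3 hP κ S hκ hS hS' hS'' b1 hb1
  obtain ⟨⟨hPp, h0⟩, hP2, hw⟩ := id hP
  have h2 : (2 : ZZ) ∈ P := (mp_coe hPp 2).1 hP2
  have hm : ∀ b ∈ R, σ b ∈ GK k := fun b hb => hσ.mem b (rc_fb hR hb)
  have hvS : ∀ w ∈ S, ∀ τ ∈ GK k, VP P (τ w) := fun w hw τ hτ =>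
    (hS _ (hS' w hw τ hτ)).2 P ⟨hPp, h0⟩ hP2
  obtain ⟨w, hwd⟩ : ∃ w, w = wO k := ⟨_, rfl⟩
  obtain ⟨wb, hwbd⟩ : ∃ wb, wb = 1 - wO k := ⟨_, rfl⟩
  have hwfix : ∀ τ ∈ GK k, τ w = w := fun τ hτ => by rw [hwd]; exact mem_GK_iff.1 hτ
  have hwbfix : ∀ τ ∈ GK k, τ wb = wb := fun τ hτ => by
    rw [hwbd, map_sub, map_one, mem_GK_iff.1 hτ]
  have hwK' : w ∈ Kf k f := by rw [hwd]; exact hwK
  have hwbK : wb ∈ Kf k f := by rw [hwbd]; exact sub_mem (one_mem _) hwK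
  have hcw : c w = wb := by rw [hwd, hwbd]; exact cj_wO hc
  have hcwb : c wb = w := by rw [hwbd, map_sub, map_one, cj_wO hc, hwd]; ring
  have hwwb : w * wb = 2 * (k : Om) := by rw [hwd, hwbd]; exact Bet_w
  have hwm : MP P w := by rw [hwd]; exact hw
  have hu : UP P wb := by rw [hwbd]; exact Bet_up hP
  have hne : wb ≠ 0 := up_ne_zero hPp hu
  have hsum1 : wb - 1 = -w := by rw [hwd, hwbd]; ring
  -- the element `β₁`
  obtain ⟨ρ, hρ⟩ : ∃ ρ, ρ = (σ b1)⁻¹ * σ s := ⟨_, rfl⟩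
  have hρG : ρ ∈ GK k := by
    rw [hρ]
    exact (GK k).mul_mem ((GK k).inv_mem (hm b1 hb1)) (hm s hs)
  obtain ⟨y, hy⟩ : ∃ y, y = ρ x := ⟨_, rfl⟩
  have hyK : y ∈ Kf k f := by rw [hy]; exact hst _ _ hxA.1
  have hyv : ∀ τ ∈ GK k, VP P (τ y) := by
    intro τ hτ
    rw [hy]
    exact hxA.2 (τ * ρ) ((GK k).mul_mem hτ hρG)
  have hyu : UP P (σ b1 y) := by
    have h4 : σ b1 y = σ s x := by
      rw [hy]
      change (σ b1 * ρ) x = σ s x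
      rw [hρ, mul_inv_cancel_left]
    rw [h4]
    exact ⟨hxA.2 _ (hm s hs), hsx⟩
  have hyS : ∀ w' ∈ S, MP P (∑ b ∈ R, σ b (y * w')) := by
    intro w' hw'
    have h4 := hx (ρ⁻¹ w') (hS' w' hw' _ ((GK k).inv_mem hρG))
    have h5 : x * ρ⁻¹ w' ∈ Kf k f := mul_mem hxA.1 (hst _ _ (hS w' hw').1)
    rw [← Bet_right hG hρG h5] at h4
    have h6 : ρ (x * ρ⁻¹ w') = y * w' := by
      rw [map_mul, ← hy]
      have h7 : ρ (ρ⁻¹ w') = w' := by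
        change (ρ * ρ⁻¹) w' = w'
        rw [mul_inv_cancel]
        rfl
      rw [h7]
    rw [h6] at h4
    exact h4
  -- the exponent `j`
  obtain ⟨j, hj⟩ : ∃ j : ℕ, ∀ b ∈ R, VP P (2 ^ j * σ b (c y)) := by
    have h4 : ∀ b : Ideal (OO k), ∃ j : ℕ, VP P (2 ^ j * σ b (c y)) := fun b => exists_two_pow hPp h2 _
    choose g hg using h4
    refine ⟨R.sup g, fun b hb => Bet_pow hPp (Finset.le_sup hb) (hg b)⟩
  have hj' : ∀ τ ∈ GK k, VP P (2 ^ j * τ (c y)) := by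
    intro τ hτ
    obtain ⟨a, ha⟩ := hG.psi τ hτ
    obtain ⟨h4, h5⟩ := rep_spec hR (fb_psi ha)
    have h6 := (hgal τ hτ _ (hm _ h4) a (rep f R a) ha (hσ.psi _ (rc_fb hR h4))).2 h5 (c y) (hst c _ hyK)
    rw [h6]
    exact hj _ h4
  refine ⟨wb ^ (j + 1) * y + w, add_mem (mul_mem (pow_mem hwbK _) hyK) hwK', ?_, ?_, ?_, ?_⟩
  · rw [map_add, map_mul, map_pow, hwbfix _ (hm b1 hb1), hwfix _ (hm b1 hb1)]
    exact up_add_mp hPp (up_mul hPp (up_pow hPp hu _) hyu) hwm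
  · intro τ hτ
    rw [map_add, map_mul, map_pow, hwbfix τ hτ, hwfix τ hτ]
    exact vp_add hPp (vp_mul hPp (vp_pow hPp hu.1 _) (hyv τ hτ)) (mp_vp hwm)
  · intro τ hτ
    have h4 : τ (c (wb ^ (j + 1) * y + w)) - 1 =
        w * (((k : Om) ^ j * (2 ^ j * τ (c y))) * (wb ^ j)⁻¹) - w := by
      rw [map_add, map_mul, map_pow, hcwb, hcw, map_add, map_mul, map_pow, hwbfix τ hτ, hwfix τ hτ,
        Bet_alg hwwb hne j, add_sub_assoc, hsum1]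
      ring
    rw [h4]
    refine mp_sub hPp (mp_mul_vp hPp hwm (vp_mul hPp (vp_mul hPp ?_ (hj' τ hτ))
      (up_inv hPp (up_pow hPp hu j)).1)) hwm
    exact vp_pow hPp (vp_natCast hPp k) j
  · intro w' hw'
    have h4 : ∑ b ∈ R, σ b ((wb ^ (j + 1) * y + w) * w') =
        (∑ b ∈ R, σ b (y * w')) * wb ^ (j + 1) + w * ∑ b ∈ R, σ b w' := by
      rw [Finset.sum_mul, Finset.mul_sum, ← Finset.sum_add_distrib]
      apply Finset.sum_congr rfl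
      intro b hb
      rw [map_mul, map_add, map_mul, map_pow, hwbfix _ (hm b hb), hwfix _ (hm b hb), map_mul]
      ring
    rw [h4]
    exact mp_add hPp (mp_mul_vp hPp (hyS w' hw') (vp_pow hPp hu.1 _))
      (mp_mul_vp hPp hwm (vp_sum hPp _ _ fun b hb => hvS w' hw' _ (hm b hb)))

end Pool.Agent.DK.F
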