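import Pool.Agent.Lib.DK.F.Spec

/-!
# Theorem DK, part F, module CB: the function `B`
-/

set_option autoImplicit false

open scoped Pointwise Topology

noncomputable section

namespace Pool.Agent.DK.F

open Pool.Agent.MuZ Pool.Agent.FW NumberField IsDedekindDomain Pool.Agent.DK
open Pool.Agent.DI (io ofC io_inj exists_io io_ofC ofC_io VP MP UP TP ex sqr sqr_sq kap)

theorem tCB (hKf : S_Kf) (hC6 : S_C6) : S_CB := by
  intro k _ f m R hm hR σ hσ c hc β hβ N0 z
  have hf : 0 < f := by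
    have := hm.three
    omega
  obtain ⟨-, -, -, hst, -, hiff, -, -, -, hcj⟩ := hKf k f hm.odd hm.three
  obtain ⟨-, hcc⟩ := hcj c hc
  have hcβ : c β ∈ Kf k f := hst c β hβ
  -- the conjugates of the coefficients
  have h1 : ∀ b ∈ R, c (σ b β) = σ (cjI b) (c β) := by
    intro b hb
    have hfb : FB f b := rc_fb hR hb
    obtain ⟨h2, h3⟩ := hcc (σ b) (hσ.mem b hfb)
    have h4 := h3 f b hf (hσ.psi b hfb)
    have h5 := (hiff (c * σ b * c) h2 (σ (cjI b)) (hσ.mem _ (fb_cj hfb)) (cjI b) (cjI b) h4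
      (hσ.psi _ (fb_cj hfb))).2 (ray_refl hf _) (c β) hcβ
    rw [← h5]
    change c (σ b β) = c (σ b (c (c β)))
    rw [cj_cj hc]
  have h2 : ∀ b ∈ R, (starRingEnd ℂ) (io (σ b β) * ThM f m b (-(starRingEnd ℂ) z)) =
      io (σ (cjI b) (c β)) * ThM f (cjI m) (cjI b) z := by
    intro b hb
    rw [map_mul, ← hc, h1 b hb, (hC6 k f m b hm (rc_fb hR hb)).2.2.1, map_neg,
      Complex.conj_conj, neg_neg]
  unfold AF
  rw [map_mul, map_natCast, map_sum, Finset.sum_congr rfl h2]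
  congr 1
  refine sum_cj hf hR (fun b => io (σ b (c β)) * ThM f (cjI m) b z) ?_
  intro b b' hb hb' hray
  have h3 : σ b (c β) = σ b' (c β) :=
    (hiff (σ b) (hσ.mem b hb) (σ b') (hσ.mem b' hb') b b' (hσ.psi b hb) (hσ.psi b' hb')).2 hray
      (c β) hcβ
  have h4 := ((hC6 k f (cjI m) b (fm_cj hm) hb).1 b' hb' hray).1 z
  change io (σ b (c β)) * ThM f (cjI m) b z = io (σ b' (c β)) * ThM f (cjI m) b' z
  rw [h3, h4]

end Pool.Agent.DK.F
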