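import Pool.Agent.Lib.DK.F.Spec

set_option autoImplicit false

noncomputable section

namespace Pool.Agent.DK.F

open Pool.Agent.MuZ Pool.Agent.FW NumberField IsDedekindDomain Pool.Agent.DK
open Pool.Agent.DI (io ofC io_inj exists_io io_ofC ofC_io VP MP UP TP ex sqr sqr_sq kap)

theorem tCls (hR5 : S_R5) (hHm : S_Hm) (hAl : S_Al) : S_Cls := by
  intro k _ f m b b' hm hb hb' hR n
  obtain ⟨α, α', h1, h2, h3, h4, h5⟩ := ray_norm hR
  obtain ⟨-, hf1, hc1⟩ := hHm k f m b hm hb α h1 h3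
  obtain ⟨-, hf2, hc2⟩ := hHm k f m b' hm hb' α' h2 h4
  obtain ⟨hn, hr, -⟩ := hR5 k f m b ⊤ hm.odd hm.three hm.ne hb.ne Eb.ne_top hm.two hm.cop hb.cop
    (Eb.pri_top f)
  obtain ⟨hn', hr', -⟩ := hR5 k f m b' ⊤ hm.odd hm.three hm.ne hb'.ne Eb.ne_top hm.two hm.cop
    hb'.cop (Eb.pri_top f)
  apply io_inj
  rw [map_mul, map_mul, hr, hr', (hAl k f m b hm hb n).2, (hAl k f m b' hm hb' n).2]
  have e1 : toC α * fr f b = toC α' * fr f b' := by rw [← hf1, ← hf2, h5]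
  have e2 : toC α * cM f m b n = toC α' * cM f m b' n := by rw [← hc1 n, ← hc2 n, h5]
  have hα : toC α ≠ 0 := fun h => h1 (toC_eq_zero.1 h)
  rw [div_mul_eq_mul_div, div_mul_eq_mul_div, div_eq_div_iff hn hn']
  refine mul_left_cancel₀ hα ?_
  linear_combination (fr f (⊤ : Ideal (OO k)) * fr f b') * e2 -
    (fr f (⊤ : Ideal (OO k)) * cM f m b' n) * e1

end Pool.Agent.DK.F
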