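import Pool.Agent.Lib.DK.F.Spec

/-!
# Theorem DK, part F, module CoL: the coefficients are in `Kf`
-/

set_option autoImplicit false

open scoped Pointwise Topology

noncomputable section

namespace Pool.Agent.DK.F

open Pool.Agent.MuZ Pool.Agent.FW NumberField IsDedekindDomain Pool.Agent.DK
open Pool.Agent.DI (io ofC io_inj exists_io io_ofC ofC_io VP MP UP TP ex sqr sqr_sq kap)

/-- The quotients `fr ⊤ / fr b` depend only on the class. -/
private theorem CoL_quot {A A' x y u v : ℂ} (hA : A ≠ 0) (hA' : A' ≠ 0) (hy : y ≠ 0) (hv : v ≠ 0)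
    (h1 : A * x = A' * u) (h2 : A * y = A' * v) : x / y = u / v := by
  rw [div_eq_div_iff hy hv]
  apply mul_left_cancel₀ (mul_ne_zero hA hA')
  linear_combination (A' * v) * h1 - (A' * u) * h2

theorem tCoL (hKf : S_Kf) (hE10 : S_E10) (hR5 : S_R5) (hHm : S_Hm) (hAl : S_Al) : S_CoL := by
  intro k _ f m R hm hR σ hσ N0 β hβ
  have hf : 0 < f := by
    have := hm.three
    omega
  obtain ⟨-, -, -, hst, -, -, -, -, -, -⟩ := hKf k f hm.odd hm.three
  -- elements of `KQ k`
  have hKQ : ∀ x ∈ KQ k, x ∈ Kf k f := by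
    intro x hx
    rw [kf_mem]
    intro τ hτ a _ _
    exact (IntermediateField.mem_fixingSubgroup_iff (KQ k) τ).1 hτ x hx
  have h1 : ∀ b : Ideal (OO k), FB f b → rO f b ⊤ ∈ Kf k f := by
    intro b hb
    rw [kf_mem]
    intro τ hτ a hpsi hray
    have ha : FB f a := fb_psi hpsi
    have htop : FB f (⊤ : Ideal (OO k)) := fb_top f
    have h2 := ((hE10 k τ f a hf hpsi).2.1 f hm.odd hm.three dvd_rfl).1 b ⊤ hb.ne hb.cop
      htop.ne htop.cop
    obtain ⟨α, α', hα, hα', hα1, hα1', hab⟩ := ray_norm hray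
    have h3 := (hHm k f m (a * b) hm (fb_mul ha hb) α hα hα1).2.1
    have h4 := (hHm k f m b hm hb α' hα' hα1').2.1
    have h5 := (hHm k f m a hm ha α hα hα1).2.1
    have h6 := (hHm k f m ⊤ hm htop α' hα' hα1').2.1
    have e1 : sp α * (a * b) = sp α' * b := by
      rw [← mul_assoc, hab, Ideal.mul_top]
    rw [e1, h4] at h3
    rw [hab, h6] at h5
    have h7 := (hR5 k f m (a * b) b hm.odd hm.three hm.ne (fb_mul ha hb).ne hb.ne hm.two hm.cop
      (fb_mul ha hb).cop hb.cop).1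
    have h8 := (hR5 k f m b b hm.odd hm.three hm.ne hb.ne hb.ne hm.two hm.cop hb.cop hb.cop).1
    rw [h2, Ideal.mul_top]
    unfold rO
    rw [CoL_quot (toC_ne hα) (toC_ne hα') h7 h8 h5.symm h3.symm]
  refine ⟨h1, fun n => ?_⟩
  unfold aF
  refine mul_mem (natCast_mem _ _) (sum_mem fun b hb => ?_)
  have hfb := rc_fb hR hb
  exact mul_mem (mul_mem (hst _ β hβ) (h1 b hfb)) (hKQ _ (hAl k f m b hm hfb n).1)

end Pool.Agent.DK.F
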