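import Pool.Agent.Lib.DK.F.Spec
import Pool.Agent.Lib.DI.B.A12

/-!
# Theorem DK, part F: module `F1` (`S_F1`)
-/

set_option autoImplicit false
set_option linter.unusedSectionVars false

open scoped Pointwise Topology MatrixGroups
open Filter

noncomputable section

namespace Pool.Agent.DK.F

open Pool.Agent.MuZ Pool.Agent.FW NumberField IsDedekindDomain Pool.Agent.DK
open Pool.Agent.DI (io ofC io_inj exists_io io_ofC ofC_io VP MP UP TP ex sqr sqr_sq kap)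

private theorem F1_neg (b d : ℤ) : -((b : ℚ) / d) = ((-b : ℤ) : ℚ) / d := by
  push_cast
  ring

theorem tF1 (hKf : S_Kf) (hKP : S_KP) (hBet : S_Bet) (hMu : S_Mu) (hSm : S_Sm) (hPb : S_Pb)
    (hCB : S_CB) : S_F1 := by
  intro k _ f M m R hm hFR hR hLv χ hχ P hP σ hσ hyp
  obtain ⟨c, hc⟩ := Pool.Agent.DI.tA1
  have hc' : IsCj c := hc
  have hf : 0 < f := by
    have := hm.three
    omega
  haveI : P.IsPrime := hP.1.1
  obtain ⟨-, -, -, k4, -⟩ := hKf k f hm.odd hm.three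
  obtain ⟨b1, hb1, hb2, hb3⟩ := exists_b1 hf (fm_fb hm) hR
  have hmu := hMu k f M m R hm hLv
  have h0 : (0 : ℚ).den.Coprime M := by
    rw [Rat.den_zero]
    exact Nat.coprime_one_left M
  obtain ⟨sm1, sm2⟩ := hSm k f M m R hm hFR hR hLv χ hχ P hP σ hσ
  -- the numbers `muT`
  have hmK : ∀ a b c d : ℤ, G0 M a b c d → (M : ℤ) ∣ d - 1 → muT f m b d ∈ Kf k f := by
    intro a b c d h1 h2
    have e1 := (hmu _ (den_cop h1 h2 dvd_rfl)).1
    have e2 := (hmu _ (den_cop (g0_inv h1) h2 dvd_rfl)).1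
    have e3 := (hmu _ h0).1
    rw [← F1_neg] at e2
    unfold muT
    have e4 : (2 : Om) ∈ Kf k f := by
      have := (Kf k f).toSubring.add_mem (Kf k f).one_mem (Kf k f).one_mem
      rwa [one_add_one_eq_two] at this
    exact sub_mem (add_mem e1 e2) (mul_mem e4 e3)
  have hmV : ∀ a b c d : ℤ, G0 M a b c d → (M : ℤ) ∣ d - 1 → ∀ (Q : Ideal ZZ) (τ : Gal(Om/ℚ)),
      Npr Q → MP Q 2 → VP Q (τ (muT f m b d)) := by
    intro a b c d h1 h2 Q τ hQ hQ2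
    haveI : Q.IsPrime := hQ.1
    have e1 := (hmu _ (den_cop h1 h2 dvd_rfl)).2.1 Q τ hQ hQ2
    have e2 := (hmu _ (den_cop (g0_inv h1) h2 dvd_rfl)).2.1 Q τ hQ hQ2
    have e3 := (hmu _ h0).2.1 Q τ hQ hQ2
    rw [← F1_neg] at e2
    unfold muT
    rw [map_sub, map_add, map_mul, map_ofNat]
    have e4 : VP Q ((2 : Om)) := by
      have := VP.nat (P := Q) 2
      exact_mod_cast this
    exact (e1.add e2).sub (e4.mul e3)
  -- the set `S`
  let S : Set Om := {w | ∃ τ ∈ GK k, ∃ a b c d : ℤ, G0 M a b c d ∧ (M : ℤ) ∣ d - 1 ∧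
    w = τ (muT f m b d)}
  have hS1 : ∀ w ∈ S, w ∈ Kf k f ∧ ∀ Q : Ideal ZZ, Npr Q → MP Q 2 → VP Q w := by
    rintro w ⟨τ, hτ, a, b, c, d, h1, h2, rfl⟩
    exact ⟨k4 τ _ (hmK a b c d h1 h2), fun Q hQ hQ2 => hmV a b c d h1 h2 Q τ hQ hQ2⟩
  have hS2 : ∀ w ∈ S, ∀ τ ∈ GK k, τ w ∈ S := by
    rintro w ⟨τ', hτ', a, b, c, d, h1, h2, rfl⟩ τ hτ
    exact ⟨τ * τ', mul_mem hτ hτ', a, b, c, d, h1, h2, rfl⟩
  have hS3 : ∀ w ∈ S, MP P (∑ b ∈ R, χ b * σ b w) := by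
    rintro w ⟨τ, hτ, a, b, c, d, h1, h2, rfl⟩
    exact sm2 a b c d h1 h2 (hyp a b c d h1 h2) τ hτ
  obtain ⟨β, hβK, hβ1, hβ2, hβ3, hβ4⟩ := hBet k f R hm.odd hm.three hR P hP σ hσ c hc' χ S
    (fun b hb => sm1 b (rc_fb hR hb)) hS1 hS2 hS3 b1 hb1
  have hU : ∀ τ ∈ GK k, UP P (τ (c β)) := fun τ hτ => UP.congr UP.one (hβ3 τ hτ)
  obtain ⟨N0, hN0, hper⟩ := hPb k f M m R hm hFR hR hLv P hP σ hσ c hc' β hβK hβ2
    (fun τ hτ => (hU τ hτ).1)
  refine ⟨N0, β, c β, hN0, hβK, k4 c β hβK, ?_, hU, hβ2, ?_⟩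
  · intro b hb hray
    rw [hb3 b hb hray]
    exact hβ1
  · intro a b c₂ d h1 h2
    obtain ⟨α, hα1, hα2⟩ := hper a b c₂ d h1 h2
    obtain ⟨αi, hαi1, hαi2⟩ := hper a (-b) (-c₂) d (g0_inv h1) h2
    have hpar : α + αi ∈ pp k := by
      rw [← (hKP k P hP).1, toO_add, ← hα1, ← hαi1, ← mul_add]
      refine MP.mul_left (VP.nat N0) ?_
      unfold perA
      rw [← Finset.sum_add_distrib]
      have e : ∀ b' ∈ R, σ b' (β * laT f m b d) + σ b' (β * laT f m (-b) d) =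
          σ b' (β * muT f m b d) := by
        intro b' _
        rw [← map_add, ← mul_add]
        congr 2
        unfold laT muT
        rw [F1_neg]
        ring
      rw [Finset.sum_congr rfl e]
      exact hβ4 _ ⟨1, one_mem _, a, b, c₂, d, h1, h2, rfl⟩
    have hiff : α ∈ pp k ↔ αi ∈ pp k := by
      constructor
      · intro h
        exact (Ideal.add_mem_iff_right _ h).1 hpar
      · intro h
        exact (Ideal.add_mem_iff_left _ h).1 hpar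
    refine ⟨α, cjO αi, ?_, fun z hz => ⟨hα2 z hz, ?_⟩⟩
    · rw [hiff, ← (aO4 k).2.1, (aO3 k).1 (pp k) (cjO αi), cjO_cjO]
    · have hz' : 0 < (-(starRingEnd ℂ) z).im := by
        rw [Complex.neg_im, Complex.conj_im, neg_neg]
        exact hz
      rw [← hCB k f m R hm hR σ hσ c hc' β hβK N0 ((a * z + b) / (c₂ * z + d)),
        ← hCB k f m R hm hR σ hσ c hc' β hβK N0 z, g0_conj, hαi2 _ hz', map_add, conj_toC]

end Pool.Agent.DK.F
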