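import Pool.Agent.Lib.DK.F.SpecT
import Pool.Agent.Lib.DI.F.F3core

set_option autoImplicit false

/-!
# Theorem DK, part F, module F3c: the formal output of F3
-/

noncomputable section

namespace Pool.Agent.DK.F

open Filter Topology

open Pool.Agent.DK
open Pool.Agent.DI.F (tay Co Cf P0 P1)

/-- The value of the function `S` at small `q ≠ 0`. -/
private theorem F3c_val (x y q u v a b : ℂ) (hu : u = q * a) (hv : v = q * b) (hq : q ≠ 0)
    (ha : a ≠ 0) (hb : b ≠ 0) : x * y * a⁻¹ * b⁻¹ = q ^ 2 * (x / u * (y / v)) := by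
  subst hu
  subst hv
  field_simp

/-- The relation (R) for numbers. -/
private theorem F3c_rel (ka q G1 G2 TA WA TB WB : ℂ) (hA : WA ≠ 0) (hB : WB ≠ 0)
    (h1 : ka * G1 ^ 2 = TA / WA) (h2 : ka * G2 ^ 2 = 4 * (TB / WB) + ka) :
    q ^ 2 * (G1 * G2) * (q ^ 2 * (G1 * G2)) * ka ^ 2 * WA * WB =
      q * q * q * q * TA * (4 * TB + ka * WB) := by
  have e1 : ka * G1 ^ 2 * WA = TA := by
    rw [h1, div_mul_cancel₀ _ hA]
  have e2 : ka * G2 ^ 2 * WB = 4 * TB + ka * WB := by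
    rw [h2, add_mul, mul_assoc, div_mul_cancel₀ _ hB]
  rw [← e2, ← e1]
  ring

/-- The square of `S`, for numbers. -/
private theorem F3c_sq (ka q s u v a b TA WA TB WB tA wA tB wB : ℂ) (hka : ka ≠ 0)
    (hu : u = q * a) (hv : v = q * b) (hq : q ≠ 0) (ha : a ≠ 0) (hb : b ≠ 0)
    (hTA : TA = u * tA) (hWA : WA = u ^ 3 * wA) (hTB : TB = v * tB) (hWB : WB = v ^ 3 * wB)
    (hA : WA ≠ 0) (hB : WB ≠ 0)
    (h : s * s * ka ^ 2 * WA * WB = q * q * q * q * TA * (4 * TB + ka * WB)) :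
    s * s = tA * (4 * tB + ka * (v * v) * wB) *
      (ka * ka * (a * a) * (b * b) * (wA * wB))⁻¹ := by
  have hwA : wA ≠ 0 := by
    rintro rfl
    exact hA (by rw [hWA, mul_zero])
  have hwB : wB ≠ 0 := by
    rintro rfl
    exact hB (by rw [hWB, mul_zero])
  have hD : ka * ka * (a * a) * (b * b) * (wA * wB) ≠ 0 :=
    mul_ne_zero (mul_ne_zero (mul_ne_zero (mul_ne_zero hka hka) (mul_ne_zero ha ha))
      (mul_ne_zero hb hb)) (mul_ne_zero hwA hwB)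
  rw [eq_mul_inv_iff_mul_eq₀ hD]
  have hne : q ^ 6 * a * b ≠ 0 := mul_ne_zero (mul_ne_zero (pow_ne_zero 6 hq) ha) hb
  apply mul_left_cancel₀ hne
  rw [hTA, hWA, hTB, hWB, hu, hv] at h
  rw [hv]
  linear_combination h

/-- **Formal output of F3.** -/
theorem tF3c (hTWg : S_TWg) (hTWc : S_TWc) (hSqr : S_Sqr) : S_F3c := by
  intro Λ a2 a4 ka hΛ k ha2 ha4 hka hka0 g1 g2 hg1 hg2 hG1 hG2 uA uB huA huB huA0 huB0 hdA hdB
  have hCo0 : Pool.Agent.DI.F.S_Co := Pool.Agent.DI.F.tCo Pool.Agent.DI.F.tTay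
  obtain ⟨hT1, _, hTadd, hTmul, ⟨hTc, hTX⟩, _, hTcongr⟩ := Pool.Agent.DI.F.tTay
  obtain ⟨⟨hc, hid⟩, har, _, hinv, hcomp, hsl, _⟩ := hCo0 k
  -- elements of the field
  have h2k : (2 : ℂ) ∈ k := by exact_mod_cast natCast_mem k 2
  have h4k : (4 : ℂ) ∈ k := by exact_mod_cast natCast_mem k 4
  -- the functions
  obtain ⟨haC, ha0, haq⟩ := hsl uA huA huA0
  obtain ⟨hbC, hb0, hbq⟩ := hsl uB huB huB0
  obtain ⟨hTAk, hWAk, hrelA⟩ := hTWc Λ a2 a4 hΛ k ha2 ha4 uA huA huA0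
  obtain ⟨hTBk, hWBk, hrelB⟩ := hTWc Λ a2 a4 hΛ k ha2 ha4 uB huB huB0
  obtain ⟨hnA, htA⟩ := Pool.Agent.DI.F.F3coreAux.near uA k hCo0 huA huA0 hdA
  obtain ⟨hnB, htB⟩ := Pool.Agent.DI.F.F3coreAux.near uB k hCo0 huB huB0 hdB
  obtain ⟨_, _, _, _, ⟨t, w, htk, hwk, ht0, hw0, hTt, hWw⟩, hTWn⟩ :=
    hTWg Λ a2 a4 hΛ k ha2 ha4
  have hW0 : Wg Λ a2 0 = 0 := by
    rw [hWw 0]
    ring
  have aA : AnalyticAt ℂ (dslope uA 0) 0 := haC.1
  have aB : AnalyticAt ℂ (dslope uB 0) 0 := hbC.1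
  have hA0 : dslope uA 0 0 ≠ 0 := by
    rw [ha0]
    exact hdA
  have hB0 : dslope uB 0 0 ≠ 0 := by
    rw [hb0]
    exact hdB
  have ag1 : AnalyticAt ℂ (fun q => g1 (uA q)) 0 := hg1.fun_comp_of_eq huA.1 huA0
  have ag2 : AnalyticAt ℂ (fun q => g2 (uB q)) 0 := hg2.fun_comp_of_eq huB.1 huB0
  have aS' : AnalyticAt ℂ (fun q => g1 (uA q) * g2 (uB q) * (dslope uA 0 q)⁻¹ *
      (dslope uB 0 q)⁻¹) 0 := ((ag1.mul ag2).mul (aA.fun_inv hA0)).mul (aB.fun_inv hB0)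
  obtain ⟨S, hS⟩ : ∃ S : ℂ → ℂ, S = fun q => g1 (uA q) * g2 (uB q) * (dslope uA 0 q)⁻¹ *
      (dslope uB 0 q)⁻¹ := ⟨_, rfl⟩
  have aS : AnalyticAt ℂ S 0 := by
    rw [hS]
    exact aS'
  have hSq : ∀ᶠ q in 𝓝[≠] (0 : ℂ), S q =
      q ^ 2 * (g1 (uA q) / uA q * (g2 (uB q) / uB q)) := by
    filter_upwards [hnA, hnB] with q hqA hqB
    rw [hS]
    exact F3c_val _ _ q _ _ _ _ (haq q) (hbq q) hqA.1 hqA.2.1 hqB.2.1
  -- the relation of functions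
  have hR : ∀ᶠ q in 𝓝[≠] (0 : ℂ), S q * S q * ka ^ 2 * Wg Λ a2 (uA q) * Wg Λ a2 (uB q) =
      q * q * q * q * Tg Λ a2 (uA q) * (4 * Tg Λ a2 (uB q) + ka * Wg Λ a2 (uB q)) := by
    filter_upwards [hSq, htA.eventually hG1, htB.eventually hG2, htA.eventually hTWn,
      htB.eventually hTWn] with q h1 h2 h3 h4 h5
    obtain ⟨_, hA1, hA2⟩ := h4
    obtain ⟨_, hB1, hB2⟩ := h5
    rw [hA2] at h2
    rw [hB2] at h3
    rw [h1]
    exact F3c_rel ka q _ _ _ _ _ _ hA1 hB1 h2 h3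
  have hfun : (fun q => S q * S q * ka ^ 2 * Wg Λ a2 (uA q) * Wg Λ a2 (uB q)) =ᶠ[𝓝 0]
      (fun q => q * q * q * q * Tg Λ a2 (uA q) *
        (4 * Tg Λ a2 (uB q) + ka * Wg Λ a2 (uB q))) := by
    have h2 : S 0 * S 0 * ka ^ 2 * Wg Λ a2 (uA 0) * Wg Λ a2 (uB 0) =
        (0 : ℂ) * 0 * 0 * 0 * Tg Λ a2 (uA 0) *
          (4 * Tg Λ a2 (uB 0) + ka * Wg Λ a2 (uB 0)) := by
      rw [huA0, hW0]
      ring
    have h1 := hR
    rw [eventually_nhdsWithin_iff] at h1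
    filter_upwards [h1] with q hq
    by_cases hq0 : q = 0
    · rw [hq0]
      exact h2
    · exact hq hq0
  -- analytic functions
  have aWA : AnalyticAt ℂ (fun q => Wg Λ a2 (uA q)) 0 := hWAk.1
  have aWB : AnalyticAt ℂ (fun q => Wg Λ a2 (uB q)) 0 := hWBk.1
  have aTA : AnalyticAt ℂ (fun q => Tg Λ a2 (uA q)) 0 := hTAk.1
  have aTB : AnalyticAt ℂ (fun q => Tg Λ a2 (uB q)) 0 := hTBk.1
  have ac : ∀ c : ℂ, AnalyticAt ℂ (fun _ : ℂ => c) 0 := fun c => analyticAt_const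
  have aid : AnalyticAt ℂ (fun q : ℂ => q) 0 := analyticAt_id
  have aSS : AnalyticAt ℂ (fun q => S q * S q) 0 := aS.mul aS
  -- the power series
  have hpow := hTcongr _ _ hfun
  have aSSk : AnalyticAt ℂ (fun q => S q * S q * ka ^ 2) 0 := aSS.mul (ac _)
  have aL3 : AnalyticAt ℂ (fun q => S q * S q * ka ^ 2 * Wg Λ a2 (uA q)) 0 := aSSk.mul aWA
  have hL : tay (fun q => S q * S q * ka ^ 2 * Wg Λ a2 (uA q) * Wg Λ a2 (uB q)) =
      tay S * tay S * PowerSeries.C (ka ^ 2) * tay (fun q => Wg Λ a2 (uA q)) *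
        tay (fun q => Wg Λ a2 (uB q)) := by
    rw [hTmul (fun q => S q * S q * ka ^ 2 * Wg Λ a2 (uA q)) (fun q => Wg Λ a2 (uB q)) aL3 aWB,
      hTmul (fun q => S q * S q * ka ^ 2) (fun q => Wg Λ a2 (uA q)) aSSk aWA,
      hTmul (fun q => S q * S q) (fun _ => ka ^ 2) aSS (ac _), hTmul S S aS aS, hTc]
  have a4T : AnalyticAt ℂ (fun q => 4 * Tg Λ a2 (uB q)) 0 := (ac 4).mul aTB
  have akW : AnalyticAt ℂ (fun q => ka * Wg Λ a2 (uB q)) 0 := (ac ka).mul aWB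
  have aR1 : AnalyticAt ℂ (fun q => 4 * Tg Λ a2 (uB q) + ka * Wg Λ a2 (uB q)) 0 := a4T.add akW
  have hR1 : tay (fun q => 4 * Tg Λ a2 (uB q) + ka * Wg Λ a2 (uB q)) =
      PowerSeries.C 4 * tay (fun q => Tg Λ a2 (uB q)) +
        PowerSeries.C ka * tay (fun q => Wg Λ a2 (uB q)) := by
    rw [hTadd (fun q => 4 * Tg Λ a2 (uB q)) (fun q => ka * Wg Λ a2 (uB q)) a4T akW,
      hTmul (fun _ => 4) (fun q => Tg Λ a2 (uB q)) (ac _) aTB,
      hTmul (fun _ => ka) (fun q => Wg Λ a2 (uB q)) (ac _) aWB, hTc, hTc]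
  have aq2 : AnalyticAt ℂ (fun q : ℂ => q * q) 0 := aid.mul aid
  have aq3 : AnalyticAt ℂ (fun q : ℂ => q * q * q) 0 := aq2.mul aid
  have aq4 : AnalyticAt ℂ (fun q : ℂ => q * q * q * q) 0 := aq3.mul aid
  have aR2 : AnalyticAt ℂ (fun q => q * q * q * q * Tg Λ a2 (uA q)) 0 := aq4.mul aTA
  have hRR : tay (fun q => q * q * q * q * Tg Λ a2 (uA q) *
        (4 * Tg Λ a2 (uB q) + ka * Wg Λ a2 (uB q))) =
      PowerSeries.X * PowerSeries.X * PowerSeries.X * PowerSeries.X *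
        tay (fun q => Tg Λ a2 (uA q)) *
        (PowerSeries.C 4 * tay (fun q => Tg Λ a2 (uB q)) +
          PowerSeries.C ka * tay (fun q => Wg Λ a2 (uB q))) := by
    rw [hTmul (fun q => q * q * q * q * Tg Λ a2 (uA q))
        (fun q => 4 * Tg Λ a2 (uB q) + ka * Wg Λ a2 (uB q)) aR2 aR1,
      hTmul (fun q => q * q * q * q) (fun q => Tg Λ a2 (uA q)) aq4 aTA,
      hTmul (fun q => q * q * q) (fun q => q) aq3 aid,
      hTmul (fun q => q * q) (fun q => q) aq2 aid,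
      hTmul (fun q => q) (fun q => q) aid aid, hTX, hR1]
  rw [hL, hRR] at hpow
  -- the square of the function
  have htA' := hcomp t uA htk huA huA0
  have htB' := hcomp t uB htk huB huB0
  have hwA' := hcomp w uA hwk huA huA0
  have hwB' := hcomp w uB hwk huB huB0
  have hvv := (har _ _ huB huB).2.1
  have hN1 := (har _ _ (hc 4 h4k) htB').2.1
  have hN2 := (har _ _ ((har _ _ (hc ka hka) hvv).2.1) hwB').2.1
  have hN3 := (har _ _ hN1 hN2).1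
  have hN := (har _ _ htA' hN3).2.1
  have hkk := (har _ _ (hc ka hka) (hc ka hka)).2.1
  have haa := (har _ _ haC haC).2.1
  have hbb := (har _ _ hbC hbC).2.1
  have hww := (har _ _ hwA' hwB').2.1
  have hD := (har _ _ ((har _ _ ((har _ _ hkk haa).2.1) hbb).2.1) hww).2.1
  have hD0 : ka * ka * (dslope uA 0 0 * dslope uA 0 0) * (dslope uB 0 0 * dslope uB 0 0) *
      (w (uA 0) * w (uB 0)) ≠ 0 := by
    rw [huA0, huB0, hw0]
    exact mul_ne_zero (mul_ne_zero (mul_ne_zero (mul_ne_zero hka0 hka0) (mul_ne_zero hA0 hA0))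
      (mul_ne_zero hB0 hB0)) (mul_ne_zero one_ne_zero one_ne_zero)
  have hE := (har _ _ hN (hinv _ hD hD0)).2.1
  have hsqE : (fun q => S q * S q) =ᶠ[𝓝 0]
      (fun q => t (uA q) * (4 * t (uB q) + ka * (uB q * uB q) * w (uB q)) *
        (ka * ka * (dslope uA 0 q * dslope uA 0 q) * (dslope uB 0 q * dslope uB 0 q) *
          (w (uA q) * w (uB q)))⁻¹) := by
    refine (ContinuousAt.eventuallyEq_nhds_iff_eventuallyEq_nhdsNE aSS.continuousAt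
      hE.1.continuousAt).1 ?_
    filter_upwards [hR, hnA, hnB, htA.eventually hTWn, htB.eventually hTWn] with q h1 h2 h3 h4 h5
    exact F3c_sq ka q (S q) (uA q) (uB q) _ _ _ _ _ _ _ _ _ _ hka0 (haq q) (hbq q) h2.1 h2.2.1
      h3.2.1 (hTt (uA q)) (hWw (uA q)) (hTt (uB q)) (hWw (uB q)) h4.2.1 h5.2.1 h1
  have hEk : Cf k (tay S ^ 2) := by
    rw [sq, ← hTmul S S aS aS, hTcongr _ _ hsqE]
    exact hE.2
  have hak : dslope uA 0 0 ∈ k := by
    have h := haC.2 0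
    rwa [Pool.Agent.DI.F.F3coreAux.coeff_zero_tay] at h
  have hbk : dslope uB 0 0 ∈ k := by
    have h := hbC.2 0
    rwa [Pool.Agent.DI.F.F3coreAux.coeff_zero_tay] at h
  have hsk : 2 / (ka * dslope uA 0 0 * dslope uB 0 0) ∈ k :=
    k.div_mem h2k (k.mul_mem (k.mul_mem hka hak) hbk)
  have hs0 : 2 / (ka * dslope uA 0 0 * dslope uB 0 0) ≠ 0 :=
    div_ne_zero two_ne_zero (mul_ne_zero (mul_ne_zero hka0 hA0) hB0)
  have hsS : PowerSeries.coeff 0 (tay S) ^ 2 = (2 / (ka * dslope uA 0 0 * dslope uB 0 0)) ^ 2 := by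
    rw [Pool.Agent.DI.F.F3coreAux.coeff_zero_tay]
    have h := hsqE.eq_of_nhds
    beta_reduce at h
    rw [sq, h, huA0, huB0, ht0, hw0]
    field_simp
    norm_num
  have hψ0 : tay S ≠ 0 := by
    intro h0
    rw [h0, map_zero] at hsS
    have h1 := pow_ne_zero 2 hs0
    rw [← hsS] at h1
    exact h1 (by ring)
  refine ⟨tay (fun q => Tg Λ a2 (uA q)), tay (fun q => Wg Λ a2 (uA q)),
    tay (fun q => Tg Λ a2 (uB q)), tay (fun q => Wg Λ a2 (uB q)), tay S, hTAk.2, hWAk.2, hTBk.2,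
    hWBk.2, hSqr k (tay S) _ hsk hs0 hsS hEk, hrelA, hrelB, hψ0, ?_, ?_⟩
  · calc tay S ^ 2 * PowerSeries.C (ka ^ 2) * tay (fun q => Wg Λ a2 (uA q)) *
          tay (fun q => Wg Λ a2 (uB q))
        = tay S * tay S * PowerSeries.C (ka ^ 2) * tay (fun q => Wg Λ a2 (uA q)) *
          tay (fun q => Wg Λ a2 (uB q)) := by
          rw [sq]
      _ = _ := hpow
      _ = _ := by
          rw [map_ofNat]
          ring
  · have h1 := (hT1 S aS).filter_mono (nhdsWithin_le_nhds (s := {(0 : ℂ)}ᶜ))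
    filter_upwards [h1, hSq] with q hq hq'
    rw [← hq']
    exact hq

end Pool.Agent.DK.F
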