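import Pool.Agent.Lib.DK.F.Spec

/-!
# Theorem DK, part F, module GHf: the functions `Gt`, `Ht` in terms of `X`
-/

set_option autoImplicit false

open scoped Pointwise Topology MatrixGroups
open Filter

noncomputable section

namespace Pool.Agent.DK.F

open Pool.Agent.MuZ Pool.Agent.FW NumberField IsDedekindDomain Pool.Agent.DK
open Pool.Agent.DI (io ofC io_inj exists_io io_ofC ofC_io VP MP UP TP ex sqr sqr_sq kap)
open Pool.Agent.DI.F (tay Co Cf P0 P1)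

private theorem GHf_mer (Λ : PeriodPair) (e : ℂ) : Meromorphic (DI.F.GG Λ 2 e) := by
  have hCo := DI.F.tCo DI.F.tTay
  exact (DI.F.tGam hCo (DI.F.tP01 DI.F.tTay hCo) Λ 2 e two_ne_zero).2.2.2

theorem tGHf (hB1 : S_B1) (hB5 : S_B5) (hB6 : S_B6) : S_GHf := by
  intro k _
  have ht : (⊤ : Ideal (OO k)) ≠ ⊥ := Eb.ne_top
  have hp : pp k ≠ ⊥ := (aO4 k).2.2.2.2.2.2.2.1
  have hpb : ppb k ≠ ⊥ := (aO4 k).2.2.2.2.2.2.2.2.1
  have hs0 : s2r k ≠ 0 := by
    intro h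
    have h1 := s2r_sq k
    rw [h, zero_pow two_ne_zero] at h1
    exact (hB1 k ⊤ ht).2.2.1 h1.symm
  have h5 := (hB5 k ⊤ ht).2.2.1
  have h6 := (hB6 k ⊤ ht).2.2.1
  rw [Ideal.mul_top, ← s2r_sq k] at h5 h6
  obtain ⟨-, -, p3, -, -, -, -, p8, -, p10, -, -⟩ := hB1 k (pp k) hp
  obtain ⟨-, -, q3, -, -, -, -, q8, -, -, q11, -⟩ := hB1 k (ppb k) hpb
  refine ⟨fun z => ?_, fun z => ?_, hs0, h5, h6, ?_, ?_⟩
  · have e : (LP (ppb k)).weierstrassP (z / 2) - eG k =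
        s2 (ppb k) * (4 * XC (ppb k) (z / 2) + 1) / 4 := by
      change wpC (ppb k) (z / 2) - wpC (ppb k) (ptT (ppb k)) = _
      rw [q8 (z / 2), q8 (ptT (ppb k)), q11]
      ring
    unfold Gt DI.F.GG
    rw [e]
    change wdC (ppb k) (z / 2) / (2 * 2 * (s2 (ppb k) * (4 * XC (ppb k) (z / 2) + 1) / 4)) /
      s2r k = _
    rw [div_div]
    congr 1
    ring
  · have e : (LP (pp k)).weierstrassP (z / 2) - eH k = s2 (pp k) * XC (pp k) (z / 2) := by
      change wpC (pp k) (z / 2) - wpC (pp k) (ptS (pp k)) = _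
      rw [p8 (z / 2)]
      ring
    unfold Ht DI.F.GG
    rw [e]
    change 2 * (wdC (pp k) (z / 2) / (2 * 2 * (s2 (pp k) * XC (pp k) (z / 2)))) / s2r k = _
    have e2 : 2 * 2 * (s2 (pp k) * XC (pp k) (z / 2)) * s2r k =
        2 * (2 * s2 (pp k) * XC (pp k) (z / 2) * s2r k) := by ring
    rw [mul_div_assoc', div_div, e2, mul_div_mul_left _ _ two_ne_zero]
  · intro z
    exact (GHf_mer (LP (ppb k)) (eG k) z).fun_div (MeromorphicAt.const (s2r k) z)
  · intro z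
    exact ((MeromorphicAt.const 2 z).fun_mul (GHf_mer (LP (pp k)) (eH k) z)).fun_div
      (MeromorphicAt.const (s2r k) z)

end Pool.Agent.DK.F
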