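import Pool.Agent.Lib.DK.F.Spec

/-! # Theorem DK, part F, module GHi: periods of `Gt`, `Ht` -/

set_option autoImplicit false

noncomputable section

namespace Pool.Agent.DK.F

open Pool.Agent.DK

private theorem GHi_in {k : ℕ} [SqK k] {p q : Ideal (OO k)} (hqp : q * p = sp 2) {α : OO k}
    (hα : α ∈ p) : toC α / 2 ∈ Lam q := by
  intro y hy
  have h1 : y * α ∈ q * p := Ideal.mul_mem_mul hy hα
  rw [hqp, Ideal.mem_span_singleton] at h1
  obtain ⟨u, hu⟩ := h1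
  refine ⟨u, ?_⟩
  have h2 := congrArg toC hu
  rw [toC_mul, toC_mul, toC_two] at h2
  linear_combination h2 / 2

private theorem GHi_sp {k : ℕ} [SqK k] (α : OO k) : toC α / 2 ∈ Lam (sp (2 : OO k)) := by
  intro y hy
  obtain ⟨u, hu⟩ := Ideal.mem_span_singleton.1 hy
  refine ⟨u * α, ?_⟩
  rw [hu, toC_mul, toC_mul, toC_two]
  ring

private theorem GHi_out {k : ℕ} [SqK k] {p q : Ideal (OO k)} (h3 : (2 : OO k) ∈ p) (hp : p.IsPrime)
    {y : OO k} (hy : y ∈ q) (hyp : y ∉ p) {α : OO k} (hα : α ∉ p) : toC α / 2 ∉ Lam q := by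
  intro h
  obtain ⟨u, hu⟩ := h y hy
  have h1 : y * α = 2 * u := by
    apply toC_inj
    rw [toC_mul, toC_mul, toC_two]
    linear_combination 2 * hu
  have h2 : y * α ∈ p := by
    rw [h1]
    exact p.mul_mem_right u h3
  rcases hp.mem_or_mem h2 with h4 | h4
  · exact hyp h4
  · exact hα h4

private theorem GHi_div (W s Y r : ℂ) : W / (s * Y * r) = W / Y / (s * r) := by
  rw [mul_comm s Y, mul_assoc, div_mul_eq_div_div]

theorem tGHi (hB1 : S_B1) (hGHf : S_GHf) (hTra : S_Tra) : S_GHi := by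
  intro k _ z α
  obtain ⟨hG, hH, -⟩ := hGHf k
  obtain ⟨o1, -, o3, o4, -, -, -, o8, o9, o10, o11⟩ := aO4 k
  have o1' : ppb k * pp k = sp 2 := (mul_comm _ _).trans o1
  have hre : (2 : OO k).re = 2 := rfl
  have him : (2 : OO k).im = 0 := rfl
  have h2p : (2 : OO k) ∈ pp k := by
    rw [o10, hre]
  have h2q : (2 : OO k) ∈ ppb k := by
    rw [o11, hre, him, add_zero]
  have hw : (1 - wI k : OO k) ∈ ppb k ∧ (1 - wI k : OO k) ∉ pp k := by
    have h1 : (1 - wI k : OO k).re = 1 := by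
      change (1 : ℤ) - 0 = 1
      norm_num
    have h2 : (1 - wI k : OO k).im = -1 := by
      change (0 : ℤ) - 1 = -1
      norm_num
    rw [o10, o11, h1, h2]
    norm_num
  have hw' : wI k ∈ pp k ∧ wI k ∉ ppb k := by
    have h1 : (wI k : OO k).re = 0 := rfl
    have h2 : (wI k : OO k).im = 1 := rfl
    rw [o10, o11, h1, h2]
    norm_num
  have hv : (z + toC α) / 2 = z / 2 + toC α / 2 := by ring
  refine ⟨fun hα => ?_, fun hα => ?_, fun hα => ?_, fun hα => ?_⟩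
  · have h3 := (hB1 k (ppb k) o9).1 (z / 2) _ (GHi_in o1' hα)
    rw [hG, hG, hv, h3.2.1, h3.2.2]
  · have h4 := (aL6 k (ppb k) o9).1.2.2 (toC α / 2) (by
      rw [o1]
      exact GHi_sp α)
    have h5 : toC α / 2 - ptT (ppb k) ∈ Lam (ppb k) :=
      h4.resolve_left (GHi_out h2p o3 hw.1 hw.2 hα)
    have h6 := (hB1 k (ppb k) o9).1 (z / 2 + ptT (ppb k)) _ h5
    have h7 : (z + toC α) / 2 = z / 2 + ptT (ppb k) + (toC α / 2 - ptT (ppb k)) := by ring
    rw [hG, hG, h7, h6.2.1, h6.2.2, GHi_div, (hTra k (ppb k) o9 (z / 2)).1,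
      GHi_div (wdC (ppb k) (z / 2)), neg_div]
  · have h3 := (hB1 k (pp k) o8).1 (z / 2) _ (GHi_in o1 hα)
    rw [hH, hH, hv, h3.2.1, h3.2.2]
  · have h4 := (aL6 k (pp k) o8).2.1.2.2 (toC α / 2) (by
      rw [o1']
      exact GHi_sp α)
    have h5 : toC α / 2 - ptS (pp k) ∈ Lam (pp k) :=
      h4.resolve_left (GHi_out h2q o4 hw'.1 hw'.2 hα)
    have h6 := (hB1 k (pp k) o8).1 (z / 2 + ptS (pp k)) _ h5
    have h7 : (z + toC α) / 2 = z / 2 + ptS (pp k) + (toC α / 2 - ptS (pp k)) := by ring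
    rw [hH, hH, h7, h6.2.1, h6.2.2, GHi_div, (hTra k (pp k) o8 (z / 2)).2,
      GHi_div (wdC (pp k) (z / 2)), neg_div]

end Pool.Agent.DK.F
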