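import Pool.Agent.Lib.DK.F.Spec

/-!
# Theorem DK, part F, module GHs: the squares of `Gt`, `Ht`
-/

set_option autoImplicit false

open scoped Pointwise Topology MatrixGroups
open Filter

noncomputable section

namespace Pool.Agent.DK.F

open Pool.Agent.MuZ Pool.Agent.FW NumberField IsDedekindDomain Pool.Agent.DK
open Pool.Agent.DI (io ofC io_inj exists_io io_ofC ofC_io VP MP UP TP ex sqr sqr_sq kap)
open Pool.Agent.DI.F (tay Co Cf P0 P1)

private theorem GHs_sp (k : ℕ) [SqK k] {z : ℂ} :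
    z / 2 ∈ Lam (sp (2 : OO k)) ↔ z ∈ Lam (⊤ : Ideal (OO k)) := by
  have h := lam_sp (α := (2 : OO k)) (b := ⊤) (z := z / 2)
  rw [Ideal.mul_top, toC_two, mul_div_cancel₀ z two_ne_zero] at h
  exact h

theorem tGHs (hB1 : S_B1) (hB2 : S_B2) (hB5 : S_B5) (hB6 : S_B6) (hB7 : S_B7) (hGHf : S_GHf) :
    S_GHs := by
  intro k _ z hz
  have ht : (⊤ : Ideal (OO k)) ≠ ⊥ := Eb.ne_top
  have hp : pp k ≠ ⊥ := (aO4 k).2.2.2.2.2.2.2.1
  have hpb : ppb k ≠ ⊥ := (aO4 k).2.2.2.2.2.2.2.2.1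
  have hpp : pp k * ppb k = sp (2 : OO k) := (aO4 k).1
  have h20 : (2 : OO k) ≠ 0 := by
    intro h
    have h1 := congrArg toC h
    rw [toC_two, toC_zero] at h1
    exact two_ne_zero h1
  obtain ⟨f1, f2, hs0, f4, f5, -, -⟩ := hGHf k
  have hv : z / 2 ∉ Lam (pp k * ppb k) := by
    rw [hpp, GHs_sp]
    exact hz
  have hv' : z / 2 ∉ Lam (ppb k * pp k) := by rwa [mul_comm]
  have hv1 : z / 2 ∉ Lam (ppb k) := fun h => hv (lam_mono h)
  have hv2 : z / 2 ∉ Lam (pp k) := fun h => hv' (lam_mono h)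
  obtain ⟨g1, -, g3, -⟩ := (hB7 k ⊤ ht).1 2 h20
  have gX : XC (pp k * ppb k) (z / 2) = XC (⊤ : Ideal (OO k)) z := by
    have h := (g1 (z / 2)).1
    rw [Ideal.mul_top, toC_two, mul_div_cancel₀ z two_ne_zero, ← hpp] at h
    exact h
  have gθ : ThC (pp k * ppb k) = ThC (⊤ : Ideal (OO k)) := by
    rw [Ideal.mul_top, ← hpp] at g3
    exact g3
  constructor
  · -- the first square
    have hq := ((hB6 k (ppb k) hpb).2.2.2 (z / 2) hv).1
    rw [gX, gθ] at hq
    have hq0 : 4 * XC (ppb k) (z / 2) + 1 ≠ 0 := by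
      intro h
      obtain ⟨-, -, -, -, -, b6, -, -, -, -, b11, -⟩ := hB1 k (ppb k) hpb
      obtain ⟨t1, t2, -⟩ := (aL6 k (ppb k) hpb).1
      have h1 : XC (ppb k) (z / 2) = XC (ppb k) (ptT (ppb k)) := by
        rw [b11]
        linear_combination h / 4
      rcases (b6 _ _ hv1 t2).1 h1 with h2 | h2
      · apply hv
        have h4 := lam_add (lam_mono (a := pp k) h2) t1
        rwa [sub_add_cancel] at h4
      · apply hv
        have h4 := lam_sub (lam_mono (a := pp k) h2) t1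
        rwa [add_sub_cancel_right] at h4
    have hw := (hB2 k (ppb k) hpb (z / 2) hv1).1
    have hS0 : s2 (ppb k) ≠ 0 := (hB1 k (ppb k) hpb).2.2.1
    rw [f1 z, div_pow, div_eq_iff (pow_ne_zero 2 (mul_ne_zero (mul_ne_zero hS0 hq0) hs0))]
    linear_combination hw - s2 (ppb k) ^ 2 * (4 * XC (ppb k) (z / 2) + 1) * s2r k ^ 2 * hq +
      s2 (ppb k) ^ 2 * (4 * XC (ppb k) (z / 2) + 1) *
        (XC (ppb k) (z / 2) * (XC (ppb k) (z / 2) + 4 * DC (ppb k))) * f4
  · -- the second square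
    have hq := ((hB5 k (pp k) hp).2.2.2 (z / 2) hv').1
    rw [mul_comm (ppb k) (pp k), gX] at hq
    obtain ⟨-, -, hS0, -, -, b6, -, -, -, b10, -, -, b13⟩ := hB1 k (pp k) hp
    have hX0 : XC (pp k) (z / 2) ≠ 0 := by
      intro h
      obtain ⟨t1, t2, -⟩ := (aL6 k (pp k) hp).2.1
      have h1 : XC (pp k) (z / 2) = XC (pp k) (ptS (pp k)) := by rw [b10, h]
      rcases (b6 _ _ hv2 t2).1 h1 with h2 | h2
      · apply hv'
        have h4 := lam_add (lam_mono (a := ppb k) h2) t1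
        rwa [sub_add_cancel] at h4
      · apply hv'
        have h4 := lam_sub (lam_mono (a := ppb k) h2) t1
        rwa [add_sub_cancel_right] at h4
    have hw := (hB2 k (pp k) hp (z / 2) hv2).1
    rw [← b13] at hw
    rw [f2 z, div_pow, div_eq_iff (pow_ne_zero 2
      (mul_ne_zero (mul_ne_zero (mul_ne_zero two_ne_zero hS0) hX0) hs0))]
    linear_combination hw - 4 * s2 (pp k) ^ 3 * XC (pp k) (z / 2) * hq +
      s2 (pp k) ^ 2 * XC (pp k) (z / 2) ^ 2 * (4 * XC (⊤ : Ideal (OO k)) z + 1) * f5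

end Pool.Agent.DK.F
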