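import Pool.Agent.Lib.DK.F.Spec

/-!
# Theorem DK, part F: module `Hm` (homogeneity)
-/

set_option autoImplicit false
set_option linter.unusedSectionVars false

open scoped Pointwise Topology MatrixGroups
open Filter

noncomputable section

namespace Pool.Agent.DK.F

open Pool.Agent.MuZ Pool.Agent.FW NumberField IsDedekindDomain Pool.Agent.DK
open Pool.Agent.DI (io ofC io_inj exists_io io_ofC ofC_io VP MP UP TP ex sqr sqr_sq kap)

variable {k : ℕ} [SqK k]

private theorem Hm_lam {f : ℕ} (hf : 0 < f) (b : Ideal (OO k)) {α : OO k} (hα : (f : OO k) ∣ α - 1)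
    (v : ℂ) : v - 1 / f ∈ Lam (sp α * b) ↔ toC α * v - 1 / f ∈ Lam b := by
  rw [lam_sp]
  obtain ⟨u, hu⟩ := hα
  have hf0 : (f : ℂ) ≠ 0 := by exact_mod_cast hf.ne'
  have h1 : toC α - 1 = f * toC u := by
    rw [← toC_one (k := k), ← toC_sub, hu, toC_mul, toC_nat]
  have h2 : toC α * (v - 1 / f) - (toC α * v - 1 / f) ∈ Lam b := by
    have e : toC α * (v - 1 / f) - (toC α * v - 1 / f) = -toC u := by
      field_simp
      linear_combination -h1
    rw [e]
    apply lam_neg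
    intro x _
    exact ⟨x * u, (toC_mul x u).symm⟩
  exact lam_sub_iff h2

private theorem Hm_norm (α : OO k) (b : Ideal (OO k)) (v : ℂ) (f : ℝ) :
    f ^ 2 * NI (sp α * b) * ‖v‖ ^ 2 = f ^ 2 * NI b * ‖toC α * v‖ ^ 2 := by
  have h1 : ((NI (sp α) : ℕ) : ℝ) = ‖toC α‖ ^ 2 := by
    rw [← Nm_norm, ← (aO2 k).2.2.2.1 α]
    push_cast
    rfl
  rw [NI_mul, norm_mul]
  push_cast
  rw [h1]
  ring

theorem tHm (hB12 : S_B12) (hC7 : S_C7) : S_Hm := by
  intro k _ f m b hm hb α hα hα1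
  have hf : 0 < f := by
    have := hm.three
    omega
  have hcop : Cop α f := by
    refine cop_congr ?_ (cop_one f)
    rw [← neg_sub]
    exact (dvd_neg).2 hα1
  have hsp : FB f (sp α) := by
    refine ⟨?_, ((aO6 k).2.2.2.1 f α hf).2 hcop⟩
    intro h
    exact hα (Ideal.span_singleton_eq_bot.1 h)
  have hb' : FB f (sp α * b) := fb_mul hsp hb
  refine ⟨hb', (hB12 k f b hm.odd hm.three hb.ne hb.cop).2.2.1 α hα hα1, fun n => ?_⟩
  have hmb : m * (sp α * b) = sp α * (m * b) := mul_left_comm m (sp α) b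
  have h7 := (hC7 k f m b hm hb).2.1 n
  have h7' := (hC7 k f m (sp α * b) hm hb').2.1 n
  have hα0 : toC α ≠ 0 := toC_ne hα
  have key : ∀ v : ℂ, v ∈ vN f (m * (sp α * b)) n ↔ toC α * v ∈ vN f (m * b) n := by
    intro v
    rw [h7, h7', hmb, Hm_lam hf (m * b) hα1 v, Hm_norm]
  unfold cM
  rw [Finset.mul_sum]
  refine Finset.sum_bij (fun v _ => toC α * v) (fun v hv => (key v).1 hv) ?_ ?_ ?_
  · intro v _ v' _ h
    exact mul_left_cancel₀ hα0 h
  · intro w hw
    refine ⟨(toC α)⁻¹ * w, ?_, ?_⟩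
    · rw [key, mul_inv_cancel_left₀ hα0]
      exact hw
    · exact mul_inv_cancel_left₀ hα0 w
  · intro v _
    have e : v - 1 / f ∈ Lam (sp α * b) ↔ toC α * v - 1 / f ∈ Lam b := Hm_lam hf b hα1 v
    rw [mul_inv, mul_left_comm, mul_inv_cancel_left₀ hα0]
    by_cases h : toC α * v - 1 / f ∈ Lam b
    · rw [if_pos h, if_pos (e.2 h)]
    · rw [if_neg h, if_neg (fun h' => h (e.1 h'))]

end Pool.Agent.DK.F
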