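import Pool.Agent.Lib.DK.F.Spec

/-!
# Theorem DK, part F, module KL: field of definition of the twisted model
-/

set_option autoImplicit false

noncomputable section

namespace Pool.Agent.DK.F

open Pool.Agent.MuZ Pool.Agent.FW NumberField IsDedekindDomain Pool.Agent.DK
open Pool.Agent.DI (io ofC io_inj exists_io io_ofC ofC_io VP MP UP TP ex sqr sqr_sq kap)

/-- `𝒟` depends only on the ray class. -/
private theorem KL_dO (hB7 : S_B7) {k : ℕ} [SqK k] {f : ℕ} {a b : Ideal (OO k)} (ha : a ≠ ⊥)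
    (hb : b ≠ ⊥) (h : Ray f a b) : dO a = dO b := by
  obtain ⟨α, α', h1, h2, -, -, h3⟩ := ray_norm h
  have e1 := ((hB7 k a ha).1 α h1).2.1
  have e2 := ((hB7 k b hb).1 α' h2).2.1
  have e3 : DC a = DC b := by rw [← e1, ← e2, h3]
  unfold dO
  rw [e3]

theorem tKL (hB7 : S_B7) (hB1 : S_B1) (hKap : S_Kap) (hR5 : S_R5) : S_KL := by
  intro k _ f hf h3
  have ht : (⊤ : Ideal (OO k)) ≠ ⊥ := Eb.ne_top
  obtain ⟨k1, k2, -⟩ := (hKap k f hf h3).1 ⊤ (fb_top f)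
  have hd : dO (⊤ : Ideal (OO k)) ∈ Kf k f := by
    rw [kf_mem]
    intro τ _ a hτ hr
    rw [hτ.dd ⊤ ht, Ideal.mul_top]
    exact KL_dO hB7 hτ.ne ht hr
  have h4 : (4 : Om) ∈ Kf k f := by
    have := natCast_mem (Kf k f) 4
    exact_mod_cast this
  refine ⟨k2, ?_, ?_, ?_⟩
  · intro h0
    rw [h0, map_zero] at k1
    have hs := (hB1 k ⊤ ht).2.2.1
    have hr := (hR5 k f ⊤ ⊤ ⊤ hf h3 ht ht ht (Eb.pri_top 2) (Eb.pri_top f) (Eb.pri_top f)
      (Eb.pri_top f)).1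
    exact div_ne_zero hs (pow_ne_zero 2 hr) k1.symm
  · unfold a2O
    exact add_mem (div_mem (sub_mem k2 (one_mem _)) h4) (mul_mem (mul_mem h4 hd) k2)
  · unfold a4O
    exact mul_mem hd (pow_mem k2 2)

end Pool.Agent.DK.F
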