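import Pool.Agent.Lib.DK.F.Spec

/-!
# Theorem DK, part F, module KP: the field `K` at the primes above `𝔭`
-/

set_option autoImplicit false

open scoped Pointwise Topology MatrixGroups
open Filter

noncomputable section

namespace Pool.Agent.DK.F

open Pool.Agent.MuZ Pool.Agent.FW NumberField IsDedekindDomain Pool.Agent.DK
open Pool.Agent.DI (io ofC io_inj exists_io io_ofC ofC_io VP MP UP TP ex sqr sqr_sq kap)

variable {k : ℕ} [SqK k] {P : Ideal ZZ}

omit [SqK k] in
private theorem KP_even [P.IsPrime] (h2 : MP P 2) {n : ℤ} (hn : Even n) : MP P (n : Om) := by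
  obtain ⟨m, rfl⟩ := hn
  have h : ((m + m : ℤ) : Om) = 2 * (m : Om) := by
    push_cast
    ring
  rw [h]
  exact MP.mul_right h2 (VP.int m)

private theorem KP_one [P.IsPrime] (h2 : MP P 2) {n : ℤ} (hn : Odd n) : MP P ((n : Om) - 1) := by
  obtain ⟨m, rfl⟩ := hn
  have h : ((2 * m + 1 : ℤ) : Om) - 1 = 2 * (m : Om) := by
    push_cast
    ring
  rw [h]
  exact MP.mul_right h2 (VP.int m)

private theorem KP_odd [P.IsPrime] (h2 : MP P 2) {n : ℤ} (hn : Odd n) : UP P (n : Om) :=
  UP.one.congr (KP_one h2 hn)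

private theorem KP_int [P.IsPrime] (h2 : MP P 2) {n : ℤ} : MP P (n : Om) ↔ (2 : ℤ) ∣ n := by
  constructor
  · intro h
    by_contra h1
    rw [← even_iff_two_dvd, Int.not_even_iff_odd] at h1
    exact (KP_odd h2 h1).2 h
  · intro h
    exact KP_even h2 (even_iff_two_dvd.2 h)

private theorem KP_p1 [P.IsPrime] (h2 : MP P 2) (hw : MP P (wO k)) (v : OO k) :
    MP P (toO v) ↔ v ∈ pp k := by
  rw [((aO4 k).2.2.2.2.2.2.2.2.2.1 v), ← KP_int (P := P) h2]
  have h : MP P ((v.im : Om) * wO k) := MP.mul_left (VP.int _) hw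
  rw [toO_apply]
  constructor
  · intro h1
    have h3 := h1.sub h
    rwa [add_sub_cancel_right] at h3
  · intro h1
    exact h1.add h

/-- elements of `KQ` are `a + b w` -/
private theorem KP_form (x : Om) (hx : x ∈ KQ k) : ∃ a b : ℚ, x = (a : Om) + (b : Om) * wO k := by
  have hint : IsIntegral ℚ (wO k) := (Algebra.IsAlgebraic.isAlgebraic (wO k)).isIntegral
  have h1 : x ∈ Algebra.adjoin ℚ {wO k} := by
    rw [← IntermediateField.adjoin_simple_toSubalgebra_of_isAlgebraic hint.isAlgebraic]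
    exact hx
  clear hx
  induction h1 using Algebra.adjoin_induction with
  | mem y hy =>
      rw [Set.mem_singleton_iff] at hy
      exact ⟨0, 1, by rw [hy]; simp⟩
  | algebraMap r => exact ⟨r, 0, by simp⟩
  | add y z hy hz ihy ihz =>
      obtain ⟨a, b, h⟩ := ihy
      obtain ⟨a', b', h'⟩ := ihz
      refine ⟨a + a', b + b', ?_⟩
      rw [h, h']
      push_cast
      ring
  | mul y z hy hz ihy ihz =>
      obtain ⟨a, b, h⟩ := ihy
      obtain ⟨a', b', h'⟩ := ihz
      refine ⟨a * a' - 2 * k * (b * b'), a * b' + b * a' + b * b', ?_⟩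
      rw [h, h']
      push_cast
      linear_combination ((b : Om) * b') * wO_sq (k := k)

private theorem KP_den (x : Om) (hx : x ∈ KQ k) :
    ∃ (N : ℕ) (A B : ℤ), 0 < N ∧ x * (N : Om) = A + B * wO k := by
  obtain ⟨a, b, h⟩ := KP_form x hx
  refine ⟨a.den * b.den, a.num * b.den, b.num * a.den, Nat.mul_pos a.pos b.pos, ?_⟩
  have ha : (a : Om) * (a.den : Om) = (a.num : Om) := by
    have h1 := Rat.mul_den_eq_num a
    exact_mod_cast congrArg (fun r : ℚ => (r : Om)) h1
  have hb : (b : Om) * (b.den : Om) = (b.num : Om) := by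
    have h1 := Rat.mul_den_eq_num b
    exact_mod_cast congrArg (fun r : ℚ => (r : Om)) h1
  rw [h]
  push_cast
  linear_combination (b.den : Om) * ha + (a.den : Om) * wO k * hb

private theorem KP_wb [P.IsPrime] (hw : MP P (wO k)) : UP P (1 - wO k) := by
  refine UP.one.congr ?_
  have h : 1 - wO k - 1 = -wO k := by ring
  rw [h]
  exact hw.neg

private theorem KP_half [P.IsPrime] (hw : MP P (wO k)) : VP P (wO k / 2) := by
  have hb := KP_wb hw
  have h : wO k / 2 = k * (1 - wO k)⁻¹ := by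
    have h1 := hb.ne_zero
    field_simp
    linear_combination -(wO_sq (k := k))
  rw [h]
  exact (VP.nat k).mul hb.inv.1

/-- `w` is congruent to an even integer modulo every power of `2` -/
private theorem KP_app [P.IsPrime] (hw : MP P (wO k)) (i : ℕ) :
    ∃ e : ℤ, Even e ∧ VP P ((wO k - e) / 2 ^ i) := by
  induction i with
  | zero =>
    refine ⟨0, ⟨0, by ring⟩, ?_⟩
    rw [pow_zero, div_one, Int.cast_zero, sub_zero]
    exact hw.vp
  | succ i ih =>
    obtain ⟨e, he, h⟩ := ih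
    refine ⟨e ^ 2 + 2 * k, ?_, ?_⟩
    · exact (he.pow_of_ne_zero two_ne_zero).add (even_two_mul _)
    · obtain ⟨m, rfl⟩ := he
      have h1 : (wO k - ((m + m : ℤ) ^ 2 + 2 * (k : ℤ) : ℤ)) / 2 ^ (i + 1) =
          (wO k - ((m + m : ℤ) : Om)) / 2 ^ i * (wO k / 2 + m) := by
        push_cast
        field_simp
        linear_combination (-(2 ^ (i + 1) : Om)) * (wO_sq (k := k))
      rw [h1]
      exact h.mul ((KP_half hw).add (VP.int m))

private theorem KP_dvd [P.IsPrime] (h2 : MP P 2) (j : ℕ) : ∀ C : ℤ, VP P ((C : Om) / 2 ^ j) →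
    (2 : ℤ) ^ j ∣ C := by
  induction j with
  | zero =>
    intro C _
    rw [pow_zero]
    exact one_dvd C
  | succ j ih =>
    intro C hC
    have h1 : MP P (C : Om) := by
      have h3 : (C : Om) = 2 * (2 ^ j * ((C : Om) / 2 ^ (j + 1))) := by
        field_simp
        ring
      rw [h3]
      exact MP.mul_right h2 ((h2.vp.pow j).mul hC)
    obtain ⟨C', rfl⟩ := (KP_int h2).1 h1
    have h4 : (((2 * C' : ℤ)) : Om) / 2 ^ (j + 1) = (C' : Om) / 2 ^ j := by
      push_cast
      field_simp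
      ring
    rw [h4] at hC
    rw [pow_succ, mul_comm]
    exact mul_dvd_mul_left 2 (ih C' hC)

private theorem KP_p2 [P.IsPrime] (h2 : MP P 2) (hw : MP P (wO k)) (x : Om) (hx : x ∈ KQ k)
    (hv : VP P x) : MP P x ∨ MP P (x - 1) := by
  obtain ⟨N, A, B, hN, h⟩ := KP_den x hx
  obtain ⟨j, n, hn, hj⟩ := Nat.exists_eq_two_pow_mul_odd hN.ne'
  obtain ⟨e, -, he⟩ := KP_app hw (j + 1)
  have h20 : (2 : Om) ≠ 0 := two_ne_zero
  have hN' : (N : Om) = 2 ^ j * n := by
    rw [hj]
    push_cast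
    rfl
  rw [hN'] at h
  have h3 : MP P (x * n - (A + B * e) / 2 ^ j) := by
    have h4 : x * n - (A + B * e) / 2 ^ j = 2 * (B * ((wO k - e) / 2 ^ (j + 1))) := by
      have h5 : x * n = (A + B * wO k) / 2 ^ j := by
        rw [← h]
        field_simp
      rw [h5, pow_succ]
      field_simp
      ring
    rw [h4]
    exact MP.mul_right h2 ((VP.int B).mul he)
  have h6 : VP P (((A + B * e : ℤ) : Om) / 2 ^ j) := by
    have h7 := (hv.mul (VP.nat n)).sub h3.vp
    rw [sub_sub_cancel] at h7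
    push_cast
    exact h7
  obtain ⟨C, hC⟩ := KP_dvd h2 j _ h6
  have h8 : (A + B * e : Om) / 2 ^ j = (C : Om) := by
    have h9 : ((A + B * e : ℤ) : Om) = ((2 ^ j * C : ℤ) : Om) := congrArg _ hC
    push_cast at h9
    rw [h9]
    field_simp
  rw [h8] at h3
  have h10 : MP P (x - C) := by
    have h11 : MP P ((n : Om) - 1) := by
      have h12 := KP_one (P := P) h2 (n := (n : ℤ)) (by exact_mod_cast hn)
      rwa [Int.cast_natCast] at h12
    have h13 := h3.sub (MP.mul_left hv h11)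
    have h14 : x * n - C - x * (n - 1) = x - C := by ring
    rwa [h14] at h13
  rcases Int.even_or_odd C with hc | hc
  · left
    have h15 := h10.add (KP_even h2 hc)
    rwa [sub_add_cancel] at h15
  · right
    have h15 := h10.add (KP_one h2 hc)
    have h16 : x - C + (C - 1) = x - 1 := by ring
    rwa [h16] at h15

private theorem KP_rat [P.IsPrime] (h2 : MP P 2) (q : ℚ) (h : VP P (q : Om)) : Odd q.den := by
  by_contra hc
  rw [Nat.not_odd_iff_even] at hc
  have h1 : (q : Om) * (q.den : Om) = (q.num : Om) := by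
    exact_mod_cast congrArg (fun r : ℚ => (r : Om)) (Rat.mul_den_eq_num q)
  have h3 : MP P (q.den : Om) := by
    have h3 := KP_even (P := P) h2 (n := (q.den : ℤ)) (by exact_mod_cast hc)
    rwa [Int.cast_natCast] at h3
  have h4 := MP.mul_left h h3
  rw [h1] at h4
  have h5 : 2 ∣ q.num.natAbs := Int.natAbs_dvd_natAbs.2 ((KP_int h2).1 h4)
  have h6 : 2 ∣ q.den := hc.two_dvd
  have h7 := Nat.dvd_gcd h5 h6
  rw [q.reduced] at h7
  omega

private theorem KP_p3 [P.IsPrime] (h2 : MP P 2) (hw : MP P (wO k)) (c : Gal(Om/ℚ))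
    (hc : c (wO k) = 1 - wO k) (x : Om) (hx : x ∈ KQ k) (hv : VP P x) (hv' : VP P (c x)) :
    ∃ n : ℕ, Odd n ∧ ∃ v : OO k, (n : Om) * x = toO v := by
  obtain ⟨a, b, h⟩ := KP_form x hx
  have hcx : c x = (a : Om) + (b : Om) * (1 - wO k) := by
    rw [h, map_add, map_mul, hc, map_ratCast, map_ratCast]
  have hb : VP P (b : Om) := by
    have h4 := (hv.sub hv').pow 2
    have h7 : UP P ((1 - 8 * k : ℤ) : Om) := KP_odd h2 ⟨-(4 * k), by ring⟩
    have h5 := h4.mul h7.inv.1
    have h70 := h7.ne_zero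
    have h6 : (x - c x) ^ 2 * ((1 - 8 * k : ℤ) : Om)⁻¹ = (b : Om) ^ 2 := by
      rw [mul_inv_eq_iff_eq_mul₀ h70, hcx, h]
      push_cast
      linear_combination (4 * (b : Om) ^ 2) * wO_sq (k := k)
    rw [h6] at h5
    exact VP.of_pow two_pos h5
  have ha : VP P (a : Om) := by
    have h3 := hv.sub (hb.mul hw.vp)
    rwa [h, add_sub_cancel_right] at h3
  have hda := KP_rat h2 a ha
  have hdb := KP_rat h2 b hb
  refine ⟨a.den * b.den, hda.mul hdb, ⟨a.num * b.den, b.num * a.den⟩, ?_⟩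
  have ha : (a : Om) * (a.den : Om) = (a.num : Om) := by
    exact_mod_cast congrArg (fun r : ℚ => (r : Om)) (Rat.mul_den_eq_num a)
  have hb : (b : Om) * (b.den : Om) = (b.num : Om) := by
    exact_mod_cast congrArg (fun r : ℚ => (r : Om)) (Rat.mul_den_eq_num b)
  rw [toO_apply, h]
  push_cast
  linear_combination (b.den : Om) * ha + (a.den : Om) * wO k * hb

theorem tKP : S_KP := by
  intro k _ P hAb
  obtain ⟨hP, h2, hw⟩ := hAb
  haveI : P.IsPrime := hP.1
  refine ⟨fun v => KP_p1 h2 hw v, fun x hx hv => KP_p2 h2 hw x hx hv, ?_⟩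
  intro c hc x hx hv hv'
  exact KP_p3 h2 hw c (cj_wO hc) x hx hv hv'

end Pool.Agent.DK.F
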