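import Pool.Agent.Lib.DK.F.Spec
import Pool.Agent.Lib.DK.B.Scl

/-!
# Theorem DK, part F, module LaF: the lattice `φ O`
-/

set_option autoImplicit false

open scoped Pointwise Topology MatrixGroups
open Filter

noncomputable section

namespace Pool.Agent.DK.F

open Pool.Agent.MuZ Pool.Agent.FW NumberField IsDedekindDomain Pool.Agent.DK
open Pool.Agent.DI (io ofC io_inj exists_io io_ofC ofC_io VP MP UP TP ex sqr sqr_sq kap)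
open Pool.Agent.DI.F (tay Co Cf P0 P1)

theorem tLaF (hR1 : S_R1) (hR5 : S_R5) (hKap : S_Kap) (hB1 : S_B1) (hB2 : S_B2) : S_LaF := by
  intro k _ f hf h3
  have ht : (⊤ : Ideal (OO k)) ≠ ⊥ := Eb.ne_top
  obtain ⟨φ, hφ⟩ : ∃ φ, φ = fr f (⊤ : Ideal (OO k)) := ⟨_, rfl⟩
  have hφ0 : fr f (⊤ : Ideal (OO k)) ≠ 0 :=
    (hR5 k f ⊤ ⊤ ⊤ hf h3 ht ht ht (Eb.pri_top 2) (Eb.pri_top f) (Eb.pri_top f) (Eb.pri_top f)).1
  refine ⟨hφ0, ?_⟩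
  have hka := ((hKap k f hf h3).1 ⊤ (fb_top f)).1
  have hD := (hR1 k ⊤ ht).1
  rw [← hφ] at hφ0 hka
  -- the lattice
  obtain ⟨Λ, hΛ⟩ := DKB.tScl.2.2 (LP (⊤ : Ideal (OO k))) φ⁻¹ (inv_ne_zero hφ0)
  obtain ⟨s1, s2', -, -, -⟩ := DKB.tScl.1 (LP (⊤ : Ideal (OO k))) Λ φ⁻¹ (inv_ne_zero hφ0) hΛ
  have hlat : ∀ z : ℂ, z ∈ Lam (⊤ : Ideal (OO k)) ↔ φ * z ∈ Λ.lattice := by
    intro z
    have h := hΛ (φ * z)
    rw [inv_mul_cancel_left₀ hφ0] at h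
    have h4 : φ * z ∈ Λ.lattice ↔ z ∈ (LP (⊤ : Ideal (OO k))).lattice := h
    rw [h4]
    have h5 := aL1 k ⊤ ht
    rw [← h5]
    exact Iff.rfl
  have hwp : ∀ z : ℂ, Λ.weierstrassP (φ * z) = wpC (⊤ : Ideal (OO k)) z / φ ^ 2 := by
    intro z
    have h := s1 (φ * z)
    rw [inv_mul_cancel_left₀ hφ0] at h
    have h4 : Λ.weierstrassP (φ * z) = φ⁻¹ ^ 2 * wpC (⊤ : Ideal (OO k)) z := h
    rw [h4, inv_pow, div_eq_inv_mul]
  have hwd : ∀ z : ℂ, Λ.derivWeierstrassP (φ * z) = wdC (⊤ : Ideal (OO k)) z / φ ^ 3 := by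
    intro z
    have h := s2' (φ * z)
    rw [inv_mul_cancel_left₀ hφ0] at h
    have h4 : Λ.derivWeierstrassP (φ * z) = φ⁻¹ ^ 3 * wdC (⊤ : Ideal (OO k)) z := h
    rw [h4, inv_pow, div_eq_inv_mul]
  -- the constants
  obtain ⟨-, -, b3, -, -, -, -, b8, b9, b10, b11, -⟩ := hB1 k ⊤ ht
  obtain ⟨s, hs⟩ : ∃ s, s = s2 (⊤ : Ideal (OO k)) := ⟨_, rfl⟩
  obtain ⟨D, hDe⟩ : ∃ D, D = DC (⊤ : Ideal (OO k)) := ⟨_, rfl⟩
  rw [← hs] at b3 b8 hka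
  rw [← hDe] at b9 hD
  have hS : wpC (⊤ : Ideal (OO k)) (ptS (⊤ : Ideal (OO k))) = s * (1 + 16 * D) / 12 := by
    have h := b8 0
    rw [(b9 0 (lam_zero _)).1] at h
    have h0 : wpC (⊤ : Ideal (OO k)) 0 = 0 := (LP (⊤ : Ideal (OO k))).weierstrassP_zero
    rw [h0] at h
    linear_combination -h
  have ha2 : 1 + 4 * io (a2O f (⊤ : Ideal (OO k))) = s / φ ^ 2 * (1 + 16 * D) := by
    unfold a2O
    rw [map_add, map_div₀, map_sub, map_one, map_mul, map_mul, hka, hD, map_ofNat]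
    ring
  have ha4 : io (a4O f (⊤ : Ideal (OO k))) = D * (s / φ ^ 2) ^ 2 := by
    unfold a4O
    rw [map_mul, map_pow, hka, hD]
  have hX : ∀ z : ℂ, s / φ ^ 2 * XC (⊤ : Ideal (OO k)) z =
      Λ.weierstrassP (φ * z) - s / φ ^ 2 * (1 + 16 * D) / 12 := by
    intro z
    rw [hwp, b8 z, hS]
    field_simp
    ring
  obtain ⟨ka, hkae⟩ : ∃ ka, ka = s / φ ^ 2 := ⟨_, rfl⟩
  rw [← hkae] at ha2 ha4 hX hka
  have hka0 : ka ≠ 0 := by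
    rw [hkae]
    exact div_ne_zero b3 (pow_ne_zero 2 hφ0)
  have key : ∀ z : ℂ, z ∉ Lam (⊤ : Ideal (OO k)) →
      (Λ.g₂ - ((ka * (1 + 16 * D)) ^ 2 - 48 * (D * ka ^ 2)) / 12) *
        (ka * XC (⊤ : Ideal (OO k)) z + ka * (1 + 16 * D) / 12) +
      (Λ.g₃ - (-(ka * (1 + 16 * D)) ^ 3 + 72 * (ka * (1 + 16 * D)) * (D * ka ^ 2)) / 216) = 0 := by
    intro z hz
    have h1 := Λ.derivWeierstrassP_sq (φ * z) (fun h => hz ((hlat z).2 h))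
    have h2 := (hB2 k ⊤ ht z hz).1
    rw [← hs, ← hDe] at h2
    have h4 : Λ.weierstrassP (φ * z) =
        ka * XC (⊤ : Ideal (OO k)) z + ka * (1 + 16 * D) / 12 := by
      linear_combination -(hX z)
    have h5 : (wdC (⊤ : Ideal (OO k)) z / φ ^ 3) ^ 2 = ka ^ 3 *
        (XC (⊤ : Ideal (OO k)) z * (XC (⊤ : Ideal (OO k)) z + 4 * D) *
          (4 * XC (⊤ : Ideal (OO k)) z + 1)) := by
      rw [div_pow, h2, hkae]
      field_simp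
    rw [hwd, h4, h5] at h1
    linear_combination h1
  have hT : ptT (⊤ : Ideal (OO k)) ∉ Lam (⊤ : Ideal (OO k)) := (aL6 k ⊤ ht).1.2.1
  have hS' : ptS (⊤ : Ideal (OO k)) ∉ Lam (⊤ : Ideal (OO k)) := (aL6 k ⊤ ht).2.1.2.1
  have k1 := key _ hS'
  have k2 := key _ hT
  rw [b10] at k1
  rw [b11] at k2
  have g2e : Λ.g₂ - ((ka * (1 + 16 * D)) ^ 2 - 48 * (D * ka ^ 2)) / 12 = 0 := by
    have h : (Λ.g₂ - ((ka * (1 + 16 * D)) ^ 2 - 48 * (D * ka ^ 2)) / 12) * ka = 0 := by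
      linear_combination 4 * k1 - 4 * k2
    exact (mul_eq_zero.1 h).resolve_right hka0
  have g3e : Λ.g₃ - (-(ka * (1 + 16 * D)) ^ 3 + 72 * (ka * (1 + 16 * D)) * (D * ka ^ 2)) / 216
      = 0 := by
    rw [g2e, zero_mul, zero_add] at k1
    exact k1
  refine ⟨Λ, ⟨?_, ?_⟩, ?_, ?_⟩
  · rw [ha2, ha4]
    exact sub_eq_zero.1 g2e
  · rw [ha2, ha4]
    exact sub_eq_zero.1 g3e
  · intro z
    rw [ha2, hka, ← hφ]
    exact hX z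
  · intro z
    rw [← hφ]
    exact hlat z

end Pool.Agent.DK.F
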