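import Pool.Agent.Lib.DK.F.Spec
import Pool.Agent.Lib.DK.FH.Co2

/-!
# Theorem DK, part F, module Lead: the `q`-expansion of `A`
-/

set_option autoImplicit false

noncomputable section

namespace Pool.Agent.DK.F

open Pool.Agent.MuZ Pool.Agent.FW NumberField IsDedekindDomain Pool.Agent.DK
open Pool.Agent.DI (io ofC io_inj io_ofC ofC_io VP MP UP TP ex)

/-- `ofC 0 = 0`. -/
private theorem Lead_zero : ofC 0 = 0 := by
  have := ofC_io 0
  rwa [map_zero] at this

theorem tLead (hR5 : S_R5) (hD9 : S_D9) (hKP : S_KP) (hCoL : S_CoL) (hHas : S_Has)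
    (hV1b : S_V1b) : S_Lead := by
  classical
  intro k _ f m R hm hR hRC σ hσ N0 β hβ
  obtain ⟨h1, h2⟩ := hHas k f m R hm hRC σ N0 β
  refine ⟨(hCoL k f m R hm hRC σ hσ N0 β hβ).2, h2, h1, ?_⟩
  intro hmt P hP hN0 hu
  have hf : 0 < f := hm.odd.pos
  have hPp : P.IsPrime := hP.1.1
  obtain ⟨b1, hb1, hr1, hun⟩ := exists_b1 hf (fm_fb hm) hRC
  have hfb1 := rc_fb hRC hb1
  obtain ⟨x, hx0, hx1, hx2, hx3, hx4⟩ := (hV1b k f m b1 hm hfb1).2 hr1
  have hfC : (f : ℂ) ≠ 0 := by exact_mod_cast hf.ne'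
  have hxC : toC x ≠ 0 := toC_ne hx0
  -- the coefficients
  have hc1 : ofC (cM f m b1 1) = f * toO x := by
    have h3 : cM f m b1 1 = io (f * toO x) := by
      unfold cM
      rw [hx3, Finset.sum_singleton, if_neg (hx4 hmt), one_mul, one_div, inv_inv, map_mul,
        map_natCast, io_toO]
    rw [h3, ofC_io]
  have hc2 : ∀ b ∈ R, b ≠ b1 → ofC (cM f m b 1) = 0 := by
    intro b hb hne
    have h3 : vN f (m * b) 1 = ∅ := by
      by_contra h4
      exact hne (hun b hb ((hV1b k f m b hm (rc_fb hRC hb)).1 h4))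
    have h4 : cM f m b 1 = 0 := by
      unfold cM
      rw [h3, Finset.sum_empty]
    rw [h4, Lead_zero]
  have ha : aF f m R σ N0 β 1 = N0 * (σ b1 β * rO f b1 ⊤ * (f * toO x)) := by
    unfold aF
    rw [Finset.sum_eq_single b1 (fun b hb hne => by rw [hc2 b hb hne, mul_zero])
      (fun h => absurd hb1 h), hc1]
  -- the unit `x`
  have hxu : UP P (toO x) := by
    refine ⟨toO_VP x, fun h => ?_⟩
    have h3 : x ∈ pp k := ((hKP k P hP).1 x).1 h
    obtain ⟨-, -, hpr, -, -, -, -, -, -, -, -⟩ := aO4 k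
    have h4 : m * b1 ≤ pp k := by
      rw [hx1]
      exact (Ideal.span_singleton_le_iff_mem _).2 h3
    rcases (Ideal.IsPrime.mul_le hpr).1 h4 with h5 | h5
    · exact not_le_pp hm.two h5
    · exact not_le_pp (hR b1 hb1).2.2 h5
  rw [ha]
  exact (odd_UP hP.2.1 hN0).mul (((hu b1 hb1 hr1).mul
    (rO_unit hR5 hD9 hP hm.odd hm.three hfb1 (hR b1 hb1).2.2)).mul
      ((odd_UP hP.2.1 hm.odd).mul hxu))

end Pool.Agent.DK.F
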