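import Pool.Agent.Lib.DK.F.Spec

/-!
# Theorem DK, part F, module Mu: the numbers `etaM f m ⊤ r`
-/

set_option autoImplicit false

open scoped Pointwise

noncomputable section

namespace Pool.Agent.DK.F

open Pool.Agent.MuZ Pool.Agent.FW NumberField IsDedekindDomain Pool.Agent.DK
open Pool.Agent.DI (io ofC io_inj exists_io io_ofC ofC_io VP MP UP TP ex sqr sqr_sq kap)

/-- The conjugate of a prime above `2`. -/
private lemma Mu_npr (τ : Gal(Om/ℚ)) {Q : Ideal ZZ} (hQ : Npr Q) : Npr (τ⁻¹ • Q) := by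
  refine ⟨hQ.1.smul _, ?_⟩
  intro h
  apply hQ.2
  have h1 : Q = τ • (τ⁻¹ • Q) := (smul_inv_smul τ Q).symm
  rw [h1, h]
  rw [Ideal.pointwise_smul_def, Ideal.map_bot]

private lemma Mu_two (τ : Gal(Om/ℚ)) {Q : Ideal ZZ} (h : MP Q 2) : MP (τ⁻¹ • Q) 2 := by
  have h1 := (MP.smul (P := Q) τ⁻¹ (x := 2)).2 h
  rwa [map_ofNat] at h1

theorem tMu (hC6 : S_C6) (hC8 : S_C8) (hC9 : S_C9) : S_Mu := by
  intro k _ f M m R hm hlv r hr
  have hr' : r.den.Coprime (NI m) := Nat.Coprime.coprime_dvd_right (lv_m hlv) hr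
  refine ⟨?_, ?_, ?_⟩
  · rw [kf_mem]
    intro τ hτ a hψ hray
    rw [hC8 k f m ⊤ hm (fb_top f) r hr' τ hτ a hψ, Ideal.mul_top]
    exact ((hC6 k f m a hm (fb_psi hψ)).1 ⊤ (fb_top f) hray).2 r
  · intro Q τ hQ hQ2
    have h1 := hC9 k f M m ⊤ hm (fb_top f) (Eb.pri_top 2) (lv_top hlv) r hr (τ⁻¹ • Q) (Mu_npr τ hQ)
      (Mu_two τ hQ2)
    have h2 := (VP.smul (P := τ⁻¹ • Q) τ (x := etaM f m ⊤ r)).2 h1
    rwa [smul_inv_smul] at h2
  · intro σ hσ b hb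
    rw [hC8 k f m ⊤ hm (fb_top f) r hr' (σ b) (hσ.mem b hb) b (hσ.psi b hb), Ideal.mul_top]

end Pool.Agent.DK.F
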