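import Pool.Agent.Lib.DK.F.Spec

/-!
# Theorem DK, part F, module `Pa`: the periods of `A`
-/

set_option autoImplicit false
set_option linter.unusedSectionVars false

open scoped Pointwise Topology MatrixGroups
open Filter

noncomputable section

namespace Pool.Agent.DK.F

open Pool.Agent.MuZ Pool.Agent.FW NumberField IsDedekindDomain Pool.Agent.DK
open Pool.Agent.DI (io ofC io_inj exists_io io_ofC ofC_io VP MP UP TP ex sqr sqr_sq kap)

theorem tPa (hE1 : S_E1) (hKf : S_Kf) (hMu : S_Mu) (hC2 : S_C2) : S_Pa := by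
  intro k _ f M m R hFM hFR hR hLv P hP σ hσ c hc β hβ hβV hβcV a b c' d hg hd
  have hf : 0 < f := by have := hFM.three; omega
  have hp : P.IsPrime := hP.1.1
  obtain ⟨-, -, -, hst, hfix, hiff, -, -, -, hcj⟩ := hKf k f hFM.odd hFM.three
  obtain ⟨hcc, hcG⟩ := hcj c hc
  obtain ⟨hE, -⟩ := hE1 k f hf
  have hden : ((b : ℚ) / d).den.Coprime M := den_cop hg hd dvd_rfl
  have hden0 : (0 : ℚ).den.Coprime M := by simp
  obtain ⟨hr1, hr2, hr3⟩ := hMu k f M m R hFM hLv _ hden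
  obtain ⟨h01, h02, h03⟩ := hMu k f M m R hFM hLv _ hden0
  have hla : laT f m b d ∈ Kf k f := (Kf k f).sub_mem hr1 h01
  have hlaV : ∀ τ : Gal(Om/ℚ), VP P (τ (laT f m b d)) := by
    intro τ
    unfold laT
    rw [map_sub]
    exact (hr2 P τ hP.1 hP.2.1).sub (h02 P τ hP.1 hP.2.1)
  have hy : β * laT f m b d ∈ Kf k f := (Kf k f).mul_mem hβ hla
  have hcl : ∀ b1 b2 : Ideal (OO k), FB f b1 → FB f b2 → Ray f b1 b2 →
      σ b1 (β * laT f m b d) = σ b2 (β * laT f m b d) := by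
    intro b1 b2 h1 h2 h3
    exact (hiff _ (hσ.mem b1 h1) _ (hσ.mem b2 h2) _ _ (hσ.psi b1 h1) (hσ.psi b2 h2)).2 h3 _ hy
  refine ⟨?_, ?_, ?_, ?_⟩
  · intro z hz
    have h1 : ∀ b' ∈ R, io (σ b' β) * ThM f m b' ((a * z + b) / (c' * z + d)) =
        io (σ b' β) * ThM f m b' z + io (σ b' (β * laT f m b d)) := by
      intro b' hb'
      have hfb := fr_fb hFR hb'
      have h2 := hC2 k f M m b' hFM hfb (hFR b' hb').2.2 (lv_one hLv hb') a b c' d hg hd z hz
      rw [h2, ← hr3 σ hσ b' hfb, ← h03 σ hσ b' hfb, ← map_sub (σ b'), mul_add, ← map_mul io,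
        ← map_mul (σ b')]
      rfl
    unfold AF perA
    rw [Finset.sum_congr rfl h1, Finset.sum_add_distrib, map_sum]
    push_cast
    ring
  · refine hfix _ fun τ hτ => ?_
    obtain ⟨e, he⟩ := hE τ hτ
    have hfe : FB f e := fb_psi he
    have h1 := sum_mul hf hR hfe (fun b' => σ b' (β * laT f m b d)) hcl
    unfold perA
    rw [map_sum, ← h1]
    refine Finset.sum_congr rfl fun b' hb' => ?_
    have hfb := rc_fb hR hb'
    have h2 := (hiff (τ * σ b') ((GK k).mul_mem hτ (hσ.mem b' hfb)) (σ (e * b'))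
      (hσ.mem _ (fb_mul hfe hfb)) (e * b') (e * b') (Eb.psi_mul he (hσ.psi b' hfb))
      (hσ.psi _ (fb_mul hfe hfb))).2 (ray_refl hf _) _ hy
    rw [← h2, AlgEquiv.mul_apply]
  · refine VP.sum _ _ fun b' hb' => ?_
    rw [map_mul]
    exact (hβV _ (hσ.mem b' (rc_fb hR hb'))).mul (hlaV _)
  · unfold perA
    rw [map_sum]
    refine VP.sum _ _ fun b' hb' => ?_
    have hfb := rc_fb hR hb'
    rw [map_mul, map_mul]
    have h1 : c (σ b' β) = (c * σ b' * c) (c β) := by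
      rw [AlgEquiv.mul_apply, AlgEquiv.mul_apply, cj_cj hc]
    have h2 : c (σ b' (laT f m b d)) = (c * σ b') (laT f m b d) := by
      rw [AlgEquiv.mul_apply]
    rw [h1, h2]
    exact (hβcV _ (hcG _ (hσ.mem b' hfb)).1).mul (hlaV _)

end Pool.Agent.DK.F
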