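import Pool.Agent.Lib.DK.F.Spec
import Pool.Agent.Lib.DI.F.PsiExp

/-!
# THEOREM DK, part F, module PsE: the expansion of `Psi`
-/

set_option autoImplicit false

open scoped Pointwise Topology MatrixGroups
open Filter

noncomputable section

namespace Pool.Agent.DK.F

open Pool.Agent.MuZ Pool.Agent.FW NumberField IsDedekindDomain Pool.Agent.DK
open Pool.Agent.DI (io ofC io_inj exists_io io_ofC ofC_io VP MP UP TP ex sqr sqr_sq kap)
open Pool.Agent.DI.F (tay Co Cf P0 P1)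
open Pool.Agent.DI.F.PsiExpAux (pmap_inj der_map lift norm_ex ex_ne)

private theorem PsE_twr {a2 a4 : Om} {u T W : PowerSeries Om}
    (h : TWr (io a2) (io a4) (PowerSeries.map io u) (PowerSeries.map io T)
      (PowerSeries.map io W)) : TWr a2 a4 u T W := by
  refine ⟨?_, ?_, ?_, ?_, ?_, ?_, ?_, ?_⟩
  · apply pmap_inj
    have := h.curve
    simp only [map_add, map_mul, map_pow, PowerSeries.map_C]
    exact this
  · apply pmap_inj
    have := h.diff
    rw [der_map, der_map, der_map] at this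
    simp only [map_sub, map_mul, map_ofNat]
    exact this
  · have := h.T0
    rw [PowerSeries.coeff_map] at this
    exact io_inj (by rw [this, map_zero])
  · have := h.T1
    rw [PowerSeries.coeff_map, PowerSeries.coeff_map] at this
    exact io_inj this
  · have := h.W0
    rw [PowerSeries.coeff_map] at this
    exact io_inj (by rw [this, map_zero])
  · have := h.W1
    rw [PowerSeries.coeff_map] at this
    exact io_inj (by rw [this, map_zero])
  · have := h.W2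
    rw [PowerSeries.coeff_map] at this
    exact io_inj (by rw [this, map_zero])
  · have := h.W3
    rw [PowerSeries.coeff_map, PowerSeries.coeff_map, ← map_pow] at this
    exact io_inj this

/-- the function `c Gam(u / φ)` -/
private theorem PsE_gam (Λ : PeriodPair) (e φ c : ℂ) (hφ : φ ≠ 0) :
    AnalyticAt ℂ (fun u : ℂ => φ * (c * DI.F.Gam Λ 2 e (u / φ))) 0 ∧
    ∀ u : ℂ, φ * (c * DI.F.Gam Λ 2 e (u / φ)) / u = c * DI.F.GG Λ 2 e (u / φ) := by
  have hCo := DI.F.tCo DI.F.tTay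
  obtain ⟨g1, -, g3, -⟩ := DI.F.tGam hCo (DI.F.tP01 DI.F.tTay hCo) Λ 2 e two_ne_zero
  have h1 : AnalyticAt ℂ (DI.F.Gam Λ 2 e) 0 := (g3 ⊤ trivial trivial trivial trivial).1
  constructor
  · have h2 : AnalyticAt ℂ (fun u : ℂ => u / φ) 0 := analyticAt_id.div_const
    have h3 : AnalyticAt ℂ (fun u : ℂ => DI.F.Gam Λ 2 e (u / φ)) 0 :=
      AnalyticAt.comp_of_eq h1 h2 (zero_div φ)
    exact analyticAt_const.mul (analyticAt_const.mul h3)
  · intro u
    rcases eq_or_ne u 0 with rfl | hu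
    · have h4 : DI.F.GG Λ 2 e (0 / φ) = 0 := by
        unfold DI.F.GG
        rw [zero_div, zero_div, Λ.derivWeierstrassP_zero, zero_div]
      rw [h4, div_zero, mul_zero]
    · have h5 := g1 (u / φ) (div_ne_zero hu hφ)
      rw [← h5]
      field_simp

/-- **The expansion of Psi.** -/
theorem tPsE (hF3c : S_F3c) (hLaF : S_LaF) (hGHs : S_GHs) (huA : S_uA) (hKL : S_KL) : S_PsE := by
  intro k _ f m m' R hm hm' hFR hRC σ hσ N0 β β' hβ hβ' hA hA'
  obtain ⟨hφ, Λ, hTW, hka, hLat⟩ := hLaF k f hm.odd hm.three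
  obtain ⟨uA, cA, zA, dA, tA, eA⟩ := huA k f m R hm hFR hRC σ hσ N0 β hβ hA
  obtain ⟨uB, cB, zB, dB, tB, eB⟩ := huA k f m' R hm' hFR hRC σ hσ N0 β' hβ' hA'
  obtain ⟨k1, k2, k3, k4⟩ := hKL k f hm.odd hm.three
  obtain ⟨ga1, ga2⟩ := PsE_gam (LP (ppb k)) (eG k) (fr f (⊤ : Ideal (OO k))) (1 / s2r k) hφ
  obtain ⟨gb1, gb2⟩ := PsE_gam (LP (pp k)) (eH k) (fr f (⊤ : Ideal (OO k))) (2 / s2r k) hφ
  have hG : ∀ u : ℂ, fr f (⊤ : Ideal (OO k)) * (1 / s2r k *
      DI.F.Gam (LP (ppb k)) 2 (eG k) (u / fr f (⊤ : Ideal (OO k)))) / u =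
      Gt k (u / fr f (⊤ : Ideal (OO k))) := by
    intro u
    rw [ga2 u]
    unfold Gt
    rw [one_div, mul_comm, ← div_eq_mul_inv]
  have hH : ∀ u : ℂ, fr f (⊤ : Ideal (OO k)) * (2 / s2r k *
      DI.F.Gam (LP (pp k)) 2 (eH k) (u / fr f (⊤ : Ideal (OO k)))) / u =
      Ht k (u / fr f (⊤ : Ideal (OO k))) := by
    intro u
    rw [gb2 u]
    unfold Ht
    rw [div_mul_eq_mul_div]
  have evL : ∀ᶠ u in 𝓝[≠] (0 : ℂ), u / fr f (⊤ : Ideal (OO k)) ∉ Lam (⊤ : Ideal (OO k)) := by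
    have ev1 : ∀ᶠ u in 𝓝[≠] (0 : ℂ), u ∉ (Λ.lattice : Set ℂ) \ {0} :=
      nhdsWithin_le_nhds (Λ.compl_lattice_sdiff_singleton_mem_nhds 0)
    filter_upwards [ev1, self_mem_nhdsWithin] with u hu hu0
    rw [hLat, mul_div_cancel₀ _ hφ]
    exact fun h => hu ⟨h, hu0⟩
  obtain ⟨TA, WA, TB, WB, ψ, kTA, kWA, kTB, kWB, kψ, rA, rB, hψ0, hrel, hsum⟩ :=
    hF3c Λ _ _ (io (kO f (⊤ : Ideal (OO k)))) hTW ((Kf k f).toSubfield.map io)
      ⟨_, k3, rfl⟩ ⟨_, k4, rfl⟩ ⟨_, k1, rfl⟩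
      (fun h => k2 (io_inj (by rw [h, map_zero])))
      _ _ ga1 gb1
      (by
        filter_upwards [evL] with u hu
        rw [hG u, (hGHs k _ hu).1, hka, mul_div_cancel₀ _ hφ])
      (by
        filter_upwards [evL] with u hu
        rw [hH u, (hGHs k _ hu).2, mul_add, mul_one, mul_left_comm, hka, mul_div_cancel₀ _ hφ])
      uA uB cA cB zA zB dA dB
  obtain ⟨TA', -, rfl⟩ := lift (Kf k f) TA kTA
  obtain ⟨WA', -, rfl⟩ := lift (Kf k f) WA kWA
  obtain ⟨TB', -, rfl⟩ := lift (Kf k f) TB kTB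
  obtain ⟨WB', -, rfl⟩ := lift (Kf k f) WB kWB
  obtain ⟨ψ', lψ, rfl⟩ := lift (Kf k f) ψ kψ
  rw [tA] at rA
  rw [tB] at rB
  rw [eventually_nhdsWithin_iff, Metric.eventually_nhds_iff] at hsum
  obtain ⟨ε, hε, hsum⟩ := hsum
  -- the bound for the imaginary part
  obtain ⟨Y, hY0, hY⟩ : ∃ Y : ℝ, 0 ≤ Y ∧ ∀ z : ℂ, Y < z.im → ‖ex z‖ < ε := by
    refine ⟨max 0 (-Real.log ε / (2 * Real.pi)), le_max_left _ _, fun z hz => ?_⟩
    have h1 : -Real.log ε / (2 * Real.pi) < z.im := lt_of_le_of_lt (le_max_right _ _) hz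
    rw [div_lt_iff₀ (by positivity)] at h1
    rw [norm_ex, ← Real.exp_log hε, Real.exp_lt_exp]
    linarith
  refine ⟨TA', WA', TB', WB', ψ', Y, lψ, PsE_twr rA, PsE_twr rB, ?_, ?_, ?_⟩
  · rintro rfl
    exact hψ0 (map_zero _)
  · apply pmap_inj
    simp only [map_mul, map_pow, map_add, PowerSeries.map_X, PowerSeries.map_C, map_ofNat]
    simp only [map_pow] at hrel
    exact hrel
  · intro z hz
    have hz0 : 0 < z.im := lt_of_le_of_lt hY0 hz
    have h1 := hsum (y := ex z) (by rw [dist_zero_right]; exact hY z hz) (ex_ne z)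
    simp only [PowerSeries.coeff_map] at h1
    rw [hG, hH, eA z hz0, eB z hz0, mul_div_cancel_left₀ _ hφ, mul_div_cancel_left₀ _ hφ] at h1
    exact h1

end Pool.Agent.DK.F
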