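import Pool.Agent.Lib.DK.F.Spec

/-!
# Theorem DK, part F, module Psi: the function `Ψ`
-/

set_option autoImplicit false

open scoped Pointwise Topology MatrixGroups
open Filter

noncomputable section

namespace Pool.Agent.DK.F

open Pool.Agent.MuZ Pool.Agent.FW NumberField IsDedekindDomain Pool.Agent.DK
open Pool.Agent.DI (io ofC io_inj exists_io io_ofC ofC_io VP MP UP TP ex sqr sqr_sq kap)

private theorem Psi_an (hC7 : S_C7) {k : ℕ} [SqK k] {f : ℕ} {m : Ideal (OO k)}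
    {R : Finset (Ideal (OO k))} (hm : FM f m) (hR : FR f R) (σ : Ideal (OO k) → Gal(Om/ℚ)) (N0 : ℕ)
    (β : Om) (z : ℂ) (hz : 0 < z.im) : AnalyticAt ℂ (AF f m R σ N0 β) z := by
  have hopen : {z : ℂ | 0 < z.im} ∈ 𝓝 z :=
    (isOpen_lt continuous_const Complex.continuous_im).mem_nhds hz
  have h1 : ∀ b ∈ R, AnalyticAt ℂ (fun z => io (σ b β) * ThM f m b z) z := fun b hb =>
    analyticAt_const.mul ((hC7 k f m b hm (fr_fb hR hb)).1.analyticAt hopen)
  have h2 : AnalyticAt ℂ (fun z => ∑ b ∈ R, io (σ b β) * ThM f m b z) z :=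
    Finset.analyticAt_fun_sum R h1
  exact analyticAt_const.mul h2

private theorem Psi_ex (z M : ℂ) : ex (z / M) = Complex.exp (2 * Real.pi * Complex.I * z / M) := by
  unfold ex
  congr 1
  ring

/-- **The function `Ψ`.** -/
theorem tPsi (hC7 : S_C7) (hGHf : S_GHf) (hGHi : S_GHi) (hCus : S_Cus) (hPsE : S_PsE) : S_Psi := by
  intro k _ f M m m' R hm hm' hR hRC hlv hlv' σ hσ N0 β β' hβ hβ' ha ha'
  obtain ⟨-, -, -, -, -, hmG, hmH⟩ := hGHf k
  refine ⟨PsF f m m' R σ N0 β β', fun z hz => ?_, fun z z' hz hz' α α' hpar h1 h2 => ?_,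
    fun γ => ?_, ?_⟩
  · have g1 : MeromorphicAt (fun z => Gt k (AF f m R σ N0 β z)) z :=
      (hmG _).comp_analyticAt (Psi_an hC7 hm hR σ N0 β z hz)
    have g2 : MeromorphicAt (fun z => Ht k (AF f m' R σ N0 β' z)) z :=
      (hmH _).comp_analyticAt (Psi_an hC7 hm' hR σ N0 β' z hz)
    exact g1.mul g2
  · obtain ⟨s1, s2, -, -⟩ := hGHi k (AF f m R σ N0 β z) α
    obtain ⟨-, -, s3, s4⟩ := hGHi k (AF f m' R σ N0 β' z) α'
    unfold PsF
    rw [h1, h2]
    by_cases h : α ∈ pp k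
    · rw [s1 h, s3 (hpar.1 h)]
    · rw [s2 h, s4 (fun h' => h (hpar.2 h'))]
      ring
  · have hdet : γ 0 0 * γ 1 1 - γ 0 1 * γ 1 0 = 1 := by
      have h := γ.det_coe
      rw [Matrix.det_fin_two] at h
      exact h
    obtain ⟨al, hal, hal2⟩ := hCus k f M m R hm hR hlv σ N0 β (γ 0 0) (γ 0 1) (γ 1 0) (γ 1 1) hdet
    obtain ⟨al', hal', hal2'⟩ :=
      hCus k f M m' R hm' hR hlv' σ N0 β' (γ 0 0) (γ 0 1) (γ 1 0) (γ 1 1) hdet
    refine ⟨fun t => Gt k (al t) * Ht k (al' t), 0, ?_, fun z hz => ?_⟩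
    · have g1 : MeromorphicAt (fun t => Gt k (al t)) 0 := (hmG _).comp_analyticAt hal
      have g2 : MeromorphicAt (fun t => Ht k (al' t)) 0 := (hmH _).comp_analyticAt hal'
      exact g1.mul g2
    · have hz' : 0 < (z : ℂ).im := hz
      have hγ : ((γ • z : UpperHalfPlane) : ℂ) =
          ((γ 0 0 : ℤ) * (z : ℂ) + (γ 0 1 : ℤ)) / ((γ 1 0 : ℤ) * (z : ℂ) + (γ 1 1 : ℤ)) := by
        rw [UpperHalfPlane.specialLinearGroup_apply]
        simp
      unfold PsF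
      rw [hγ, hal2 _ hz', hal2' _ hz', Psi_ex]
  · exact hPsE k f m m' R hm hm' hR hRC σ hσ N0 β β' hβ hβ' ha ha'

end Pool.Agent.DK.F
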