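import Pool.Agent.Lib.DK.F.Spec

/-!
# Theorem DK, part F, module Sm: the sums with `χ`
-/

set_option autoImplicit false

open scoped Pointwise Topology MatrixGroups
open Filter

noncomputable section

namespace Pool.Agent.DK.F

open Pool.Agent.MuZ Pool.Agent.FW NumberField IsDedekindDomain Pool.Agent.DK
open Pool.Agent.DI (io ofC io_inj exists_io io_ofC ofC_io VP MP UP TP ex sqr sqr_sq kap)

theorem tSm (hE1 : S_E1) (hKf : S_Kf) (hMu : S_Mu) : S_Sm := by
  intro k _ f M m R hm hFR hR hlv χ hχ P hP σ hσ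
  have hPr : P.IsPrime := hP.1.1
  have hf : 0 < f := lt_of_lt_of_le (by norm_num) hm.three
  obtain ⟨-, -, -, -, -, h6, -⟩ := hKf k f hm.odd hm.three
  obtain ⟨hE1a, -⟩ := hE1 k f hf
  have hunit : ∀ b : Ideal (OO k), FB f b → UP P (χ b) := by
    intro b hb
    obtain ⟨j, hj, h⟩ := hχ.odd
    have e := h b hb.ne hb.cop
    apply DI.UP.of_pow hj.pos
    rw [e]
    exact DI.UP.one
  refine ⟨hunit, ?_⟩
  intro a b c d hG hd hM τ hτ
  have d1 : ((b : ℚ) / d).den.Coprime M := den_cop hG hd dvd_rfl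
  have d2 : (-((b : ℚ) / d)).den.Coprime M := by
    rw [Rat.neg_den]
    exact d1
  have d0 : (0 : ℚ).den.Coprime M := by
    rw [Rat.den_zero]
    exact Nat.coprime_one_left M
  obtain ⟨k1, -, s1⟩ := hMu k f M m R hm hlv _ d1
  obtain ⟨k2, -, s2⟩ := hMu k f M m R hm hlv _ d2
  obtain ⟨k0, -, s0⟩ := hMu k f M m R hm hlv _ d0
  have hμK : muT f m b d ∈ Kf k f := by
    have h2 : (2 : Om) ∈ Kf k f := ofNat_mem (Kf k f) 2
    exact sub_mem (add_mem k1 k2) (mul_mem h2 k0)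
  have hsum : etaX f m R χ (b / d) + etaX f m R χ (-(b / d)) - 2 * etaX f m R χ 0 =
      ∑ b' ∈ R, χ b' * σ b' (muT f m b d) := by
    unfold etaX
    rw [Finset.mul_sum, ← Finset.sum_add_distrib, ← Finset.sum_sub_distrib]
    refine Finset.sum_congr rfl fun b' hb' => ?_
    have hb := rc_fb hR hb'
    unfold muT
    rw [map_sub, map_add, map_mul, map_ofNat, s1 σ hσ b' hb, s2 σ hσ b' hb, s0 σ hσ b' hb]
    ring
  rw [hsum] at hM
  -- the class function
  have hF : ∀ b1 b2 : Ideal (OO k), FB f b1 → FB f b2 → Ray f b1 b2 →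
      χ b1 * σ b1 (muT f m b d) = χ b2 * σ b2 (muT f m b d) := by
    intro b1 b2 hb1 hb2 hr
    rw [hχ.ray b1 b2 hb1.ne hb2.ne hb1.cop hb2.cop hr,
      (h6 (σ b1) (hσ.mem b1 hb1) (σ b2) (hσ.mem b2 hb2) b1 b2 (hσ.psi b1 hb1)
        (hσ.psi b2 hb2)).2 hr _ hμK]
  obtain ⟨a0, ha0⟩ := hE1a τ hτ
  have hfa : FB f a0 := fb_psi ha0
  have hmul : χ a0 * ∑ b' ∈ R, χ b' * σ b' (τ (muT f m b d)) =
      ∑ b' ∈ R, χ b' * σ b' (muT f m b d) := by
    rw [← sum_mul hf hR hfa (fun b' => χ b' * σ b' (muT f m b d)) hF, Finset.mul_sum]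
    refine Finset.sum_congr rfl fun b' hb' => ?_
    have hb := rc_fb hR hb'
    have hab : FB f (a0 * b') := fb_mul hfa hb
    have hpsi : Psi (σ b' * τ) f (b' * a0) := Eb.psi_mul (hσ.psi b' hb) ha0
    have e := (h6 (σ b' * τ) ((GK k).mul_mem (hσ.mem b' hb) hτ) (σ (a0 * b'))
      (hσ.mem _ hab) (b' * a0) (a0 * b') hpsi (hσ.psi _ hab)).2
      (by rw [mul_comm b' a0]; exact ray_refl hf _) _ hμK
    have e1 : σ b' (τ (muT f m b d)) = σ (a0 * b') (muT f m b d) := by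
      rw [← e]
      rfl
    rw [e1]
    rw [hχ.mul, mul_assoc]
  rw [← hmul] at hM
  have h7 := DI.MP.mul_left (hunit a0 hfa).inv.1 hM
  rwa [inv_mul_cancel_left₀ (hunit a0 hfa).ne_zero] at h7

end Pool.Agent.DK.F
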