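import Pool.Agent.Lib.DK.F.SpecT

/-! # Theorem DK, part F, module Sqr: square roots of power series -/

set_option autoImplicit false

noncomputable section

namespace Pool.Agent.DK.F

open Pool.Agent.DI.F (Cf)

theorem tSqr : S_Sqr := by
  intro k p s hs hs0 h0 hC
  have hp0 : PowerSeries.coeff 0 p ∈ k := by
    rcases sq_eq_sq_iff_eq_or_eq_neg.1 h0 with h | h
    · rw [h]
      exact hs
    · rw [h]
      exact k.neg_mem hs
  have hne : PowerSeries.coeff 0 p ≠ 0 := by
    intro h
    rw [h, zero_pow two_ne_zero] at h0
    exact hs0 (pow_eq_zero_iff two_ne_zero |>.1 h0.symm)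
  intro n
  induction n using Nat.strong_induction_on with
  | _ n ih =>
    rcases Nat.eq_zero_or_pos n with hn | hn
    · rw [hn]
      exact hp0
    · have h1 := hC n
      rw [sq, PowerSeries.coeff_mul] at h1
      have h2 : ∑ x ∈ Finset.HasAntidiagonal.antidiagonal n, PowerSeries.coeff x.1 p * PowerSeries.coeff x.2 p =
          2 * PowerSeries.coeff 0 p * PowerSeries.coeff n p +
            ∑ x ∈ ((Finset.HasAntidiagonal.antidiagonal n).erase (0, n)).erase (n, 0),
              PowerSeries.coeff x.1 p * PowerSeries.coeff x.2 p := by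
        have hm1 : (0, n) ∈ Finset.HasAntidiagonal.antidiagonal n := by
          rw [Finset.HasAntidiagonal.mem_antidiagonal, zero_add]
        have hm2 : (n, 0) ∈ (Finset.HasAntidiagonal.antidiagonal n).erase (0, n) := by
          rw [Finset.mem_erase, Finset.HasAntidiagonal.mem_antidiagonal]
          refine ⟨fun h => ?_, add_zero n⟩
          have h3 := congrArg Prod.fst h
          exact hn.ne' h3
        rw [← Finset.add_sum_erase _ _ hm1, ← Finset.add_sum_erase _ _ hm2]
        ring
      have h3 : ∑ x ∈ ((Finset.HasAntidiagonal.antidiagonal n).erase (0, n)).erase (n, 0),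
          PowerSeries.coeff x.1 p * PowerSeries.coeff x.2 p ∈ k := by
        refine k.sum_mem fun x hx => ?_
        rw [Finset.mem_erase, Finset.mem_erase, Finset.HasAntidiagonal.mem_antidiagonal] at hx
        obtain ⟨hx1, hx2, hx3⟩ := hx
        have h4 : x.1 < n := by
          rcases Nat.lt_or_ge x.1 n with h | h
          · exact h
          · exact absurd (Prod.ext (by simp only; omega) (by simp only; omega) : x = (n, 0)) hx1
        have h5 : x.2 < n := by
          rcases Nat.lt_or_ge x.2 n with h | h
          · exact h
          · exact absurd (Prod.ext (by simp only; omega) (by simp only; omega) : x = (0, n)) hx2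
        exact k.mul_mem (ih _ h4) (ih _ h5)
      rw [h2] at h1
      have h6 : 2 * PowerSeries.coeff 0 p * PowerSeries.coeff n p ∈ k := by
        have h7 := k.sub_mem h1 h3
        rwa [add_sub_cancel_right] at h7
      have h8 : (2 : ℂ) * PowerSeries.coeff 0 p ∈ k := k.mul_mem (ofNat_mem k 2) hp0
      have h9 : PowerSeries.coeff n p = (2 * PowerSeries.coeff 0 p)⁻¹ *
          (2 * PowerSeries.coeff 0 p * PowerSeries.coeff n p) := by
        rw [inv_mul_cancel_left₀ (mul_ne_zero two_ne_zero hne)]
      rw [h9]
      exact k.mul_mem (k.inv_mem h8) h6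

end Pool.Agent.DK.F
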