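import Pool.Agent.Lib.DK.F.SpecT

set_option autoImplicit false

/-!
# Theorem DK, part F: the functions `T`, `W` near `0`

Adapted from `DI/F/TW.lean` (there `1 + 4 a₂ = -3`).
-/

open Filter Topology

noncomputable section

namespace Pool.Agent.DK.F

open Pool.Agent.DK
open Pool.Agent.DI.F (tay Co Cf P0 P1)

private theorem ratmem (k : Subfield ℂ) (q : ℚ) : (q : ℂ) ∈ k := SubfieldClass.ratCast_mem k q

/-- `(1 + 4 a₂)/12`. -/
private def ee (a2 : ℂ) : ℂ := (1 + 4 * a2) / 12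

private def tt (Λ : PeriodPair) (a2 u : ℂ) : ℂ :=
  (-2) * (P0 Λ u - u * u * ee a2) * (Dg Λ a2 u)⁻¹

private def ww (Λ : PeriodPair) (a2 u : ℂ) : ℂ := (-2) * (Dg Λ a2 u)⁻¹

private theorem Tg_eq (Λ : PeriodPair) (a2 u : ℂ) : Tg Λ a2 u = u * tt Λ a2 u := by
  unfold Tg tt ee
  rw [div_eq_mul_inv]
  ring

private theorem Wg_eq (Λ : PeriodPair) (a2 u : ℂ) : Wg Λ a2 u = u ^ 3 * ww Λ a2 u := by
  unfold Wg ww
  rw [div_eq_mul_inv]
  ring

private theorem algT {x y w t a2 a4 : ℂ} (hy : y ≠ 0)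
    (h : (2 * y + x) ^ 2 = 4 * x ^ 3 + (1 + 4 * a2) * x ^ 2 + 4 * a4 * x)
    (hw : w = -1 / y) (ht : t = -x / y) :
    w = t ^ 3 + t * w + a2 * (t ^ 2 * w) + a4 * (t * w ^ 2) := by
  subst hw ht
  field_simp
  linear_combination (-1 / 4 : ℂ) * h

/-- The functions `T`, `W` near `0`. -/
theorem tTWg : S_TWg := by
  intro Λ a2 a4 hTW k ha2 ha4
  have hCo : Pool.Agent.DI.F.S_Co := Pool.Agent.DI.F.tCo Pool.Agent.DI.F.tTay
  have hP01 : Pool.Agent.DI.F.S_P01 := Pool.Agent.DI.F.tP01 Pool.Agent.DI.F.tTay hCo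
  obtain ⟨⟨cc, cid⟩, c2, -, cinv, -, -, -⟩ := hCo k
  obtain ⟨p1, p2, p3, p4⟩ := hP01 Λ
  have hg2 := hTW.g2
  have hg3 := hTW.g3
  have q1 : ∀ n : ℕ, (n : ℂ) ∈ k := fun n => by
    have h := ratmem k n
    push_cast at h
    exact h
  have n4 : (4 : ℂ) ∈ k := by have := q1 4; push_cast at this; exact this
  have n12 : (12 : ℂ) ∈ k := by have := q1 12; push_cast at this; exact this
  have n48 : (48 : ℂ) ∈ k := by have := q1 48; push_cast at this; exact this
  have n72 : (72 : ℂ) ∈ k := by have := q1 72; push_cast at this; exact this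
  have n216 : (216 : ℂ) ∈ k := by have := q1 216; push_cast at this; exact this
  have mb : (1 + 4 * a2 : ℂ) ∈ k := k.add_mem k.one_mem (k.mul_mem n4 ha2)
  have m2 : Λ.g₂ ∈ k := by
    rw [hg2]
    exact k.div_mem (k.sub_mem (k.pow_mem mb 2) (k.mul_mem n48 ha4)) n12
  have m3 : Λ.g₃ ∈ k := by
    rw [hg3]
    exact k.div_mem (k.add_mem (k.neg_mem (k.pow_mem mb 3)) (k.mul_mem (k.mul_mem n72 mb) ha4)) n216
  have m4 : ee a2 ∈ k := k.div_mem mb n12
  have mm2 : (-2 : ℂ) ∈ k := by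
    have h := ratmem k (-2)
    push_cast at h
    exact h
  obtain ⟨hP0, hP1⟩ := p4 k m2 m3
  have cadd : ∀ {f g : ℂ → ℂ}, Co k f → Co k g → Co k fun q => f q + g q :=
    fun hf hg => (c2 _ _ hf hg).1
  have cmul : ∀ {f g : ℂ → ℂ}, Co k f → Co k g → Co k fun q => f q * g q :=
    fun hf hg => (c2 _ _ hf hg).2.1
  have csub : ∀ {f g : ℂ → ℂ}, Co k f → Co k g → Co k fun q => f q - g q :=
    fun hf hg => (c2 _ _ hf hg).2.2.1
  have hD : Co k (Dg Λ a2) := by
    have e : Dg Λ a2 = fun u => P1 Λ u - u * P0 Λ u + u * u * u * ee a2 := by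
      funext u
      unfold Dg ee
      ring
    rw [e]
    exact cadd (csub hP1 (cmul cid hP0)) (cmul (cmul (cmul cid cid) cid) (cc _ m4))
  have hD0 : Dg Λ a2 0 = -2 := by
    unfold Dg
    rw [p3]
    ring
  have hD0' : Dg Λ a2 0 ≠ 0 := by rw [hD0]; norm_num
  have hDi : Co k fun u => (Dg Λ a2 u)⁻¹ := cinv _ hD hD0'
  have ht : Co k (tt Λ a2) :=
    cmul (cmul (cc _ mm2) (csub hP0 (cmul (cmul cid cid) (cc _ m4)))) hDi
  have hw : Co k (ww Λ a2) := cmul (cc _ mm2) hDi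
  have hT : Co k (Tg Λ a2) := by
    have e : Tg Λ a2 = fun u => u * tt Λ a2 u := funext (Tg_eq Λ a2)
    rw [e]
    exact cmul cid ht
  have hW : Co k (Wg Λ a2) := by
    have e : Wg Λ a2 = fun u => u * u * u * ww Λ a2 u := by
      funext u
      rw [Wg_eq]
      ring
    rw [e]
    exact cmul (cmul (cmul cid cid) cid) hw
  have T0 : Tg Λ a2 0 = 0 := by rw [Tg_eq, zero_mul]
  have W0 : Wg Λ a2 0 = 0 := by rw [Wg_eq]; ring
  have evD : ∀ᶠ u in 𝓝 (0 : ℂ), Dg Λ a2 u ≠ 0 := hD.1.continuousAt.eventually_ne hD0'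
  have evL : ∀ᶠ u in 𝓝 (0 : ℂ), u ∉ (Λ.lattice : Set ℂ) \ {0} :=
    Λ.compl_lattice_sdiff_singleton_mem_nhds 0
  -- the last part
  have key : ∀ u : ℂ, u ≠ 0 → Dg Λ a2 u ≠ 0 → Wg Λ a2 u ≠ 0 ∧
      Λ.weierstrassP u - ee a2 = Tg Λ a2 u / Wg Λ a2 u ∧
      (Λ.derivWeierstrassP u - (Λ.weierstrassP u - ee a2)) / 2 = -1 / Wg Λ a2 u := by
    intro u hu hd
    obtain ⟨q1, q2⟩ := p1 u hu
    have w0 : Wg Λ a2 u ≠ 0 := by
      unfold Wg
      exact div_ne_zero (mul_ne_zero (by norm_num) (pow_ne_zero _ hu)) hd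
    refine ⟨w0, ?_, ?_⟩
    · rw [eq_div_iff w0]
      unfold Wg Tg ee
      rw [q1]
      field_simp
    · rw [eq_div_iff w0]
      have e : Dg Λ a2 u =
          u ^ 3 * (Λ.derivWeierstrassP u - (Λ.weierstrassP u - ee a2)) := by
        unfold Dg ee
        rw [q1, q2]
        ring
      unfold Wg
      rw [mul_div_assoc', div_eq_iff hd, e]
      ring
  have evK : ∀ᶠ u in 𝓝[≠] (0 : ℂ), u ∉ Λ.lattice ∧ Wg Λ a2 u ≠ 0 ∧
      Λ.weierstrassP u - ee a2 = Tg Λ a2 u / Wg Λ a2 u ∧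
      (Λ.derivWeierstrassP u - (Λ.weierstrassP u - ee a2)) / 2 = -1 / Wg Λ a2 u := by
    filter_upwards [evD.filter_mono nhdsWithin_le_nhds, evL.filter_mono nhdsWithin_le_nhds,
      self_mem_nhdsWithin] with u h1 h2 h3
    exact ⟨fun h => h2 ⟨h, h3⟩, key u h3 h1⟩
  have evA : ∀ᶠ u in 𝓝 (0 : ℂ), AnalyticAt ℂ (Wg Λ a2) u := hW.1.eventually_analyticAt
  refine ⟨hT, hW, ?_, ?_, ⟨tt Λ a2, ww Λ a2, ht, hw, ?_, ?_, Tg_eq Λ a2, Wg_eq Λ a2⟩, ?_⟩
  · -- the curve
    rw [eventually_nhdsWithin_iff] at evK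
    filter_upwards [evK] with u h
    by_cases hu : u = 0
    · rw [hu, T0, W0]
      ring
    · obtain ⟨h1, h2, h3, h4⟩ := h hu
      have h5 := Λ.derivWeierstrassP_sq u h1
      rw [hg2, hg3] at h5
      set x := Λ.weierstrassP u - ee a2 with hx
      set y := (Λ.derivWeierstrassP u - x) / 2 with hy
      have y0 : y ≠ 0 := by
        rw [h4]
        exact div_ne_zero (by norm_num) h2
      have e1 : Λ.derivWeierstrassP u = 2 * y + x := by rw [hy]; ring
      have e2 : Λ.weierstrassP u = x + ee a2 := by rw [hx]; ring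
      rw [e1, e2] at h5
      have hwy : Wg Λ a2 u = -1 / y := by
        rw [h4]
        field_simp
      refine algT (x := x) y0 ?_ hwy ?_
      · rw [h5]
        unfold ee
        ring
      · have : Tg Λ a2 u = x * Wg Λ a2 u := by
          rw [h3]
          field_simp
        rw [this, hwy]
        ring
  · -- the derivative
    have evK2 : ∀ᶠ u in 𝓝 (0 : ℂ), u ≠ 0 → (∀ᶠ v in 𝓝 u, v ∉ Λ.lattice ∧ Wg Λ a2 v ≠ 0 ∧
        Λ.weierstrassP v - ee a2 = Tg Λ a2 v / Wg Λ a2 v ∧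
        (Λ.derivWeierstrassP v - (Λ.weierstrassP v - ee a2)) / 2 = -1 / Wg Λ a2 v) := by
      rw [eventually_nhdsWithin_iff] at evK
      filter_upwards [eventually_eventually_nhds.2 evK] with u h hu
      filter_upwards [h, isOpen_ne.mem_nhds hu] with v h1 h2
      exact h1 h2
    filter_upwards [evK2, evA] with u h hA
    by_cases hu : u = 0
    · rw [hu, T0, W0]
      ring
    · have h6 := h hu
      obtain ⟨h1, h2, h3, h4⟩ := h6.self_of_nhds
      have hder : HasDerivAt Λ.weierstrassP (Λ.derivWeierstrassP u) u := by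
        have a1 : AnalyticAt ℂ Λ.weierstrassP u := Λ.analyticOnNhd_weierstrassP u h1
        have a2 := a1.differentiableAt.hasDerivAt
        rwa [Λ.deriv_weierstrassP] at a2
      have hWd : HasDerivAt (Wg Λ a2) (deriv (Wg Λ a2) u) u := hA.differentiableAt.hasDerivAt
      have hTd : HasDerivAt (Tg Λ a2) (Λ.derivWeierstrassP u * Wg Λ a2 u +
          (Λ.weierstrassP u - ee a2) * deriv (Wg Λ a2) u) u := by
        refine ((hder.sub_const (ee a2)).mul hWd).congr_of_eventuallyEq ?_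
        filter_upwards [h6] with v hv
        obtain ⟨-, v2, v3, -⟩ := hv
        simp only [Pi.mul_apply]
        rw [v3]
        field_simp
      rw [hTd.deriv]
      have e1 : Tg Λ a2 u = (Λ.weierstrassP u - ee a2) * Wg Λ a2 u := by
        rw [h3]
        field_simp
      rw [eq_div_iff h2] at h4
      rw [e1]
      linear_combination (2 * Wg Λ a2 u) * h4
  · unfold tt
    rw [hD0, p2]
    norm_num
  · unfold ww
    rw [hD0]
    norm_num
  · filter_upwards [evK] with u hu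
    exact ⟨hu.1, hu.2.1, hu.2.2.1⟩

end Pool.Agent.DK.F
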