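import Pool.Agent.Lib.DK.F.Spec

/-!
# Theorem DK, part F: module `Tra` (translation by the points of order two)
-/

set_option autoImplicit false

open scoped Pointwise Topology MatrixGroups
open Filter

noncomputable section

namespace Pool.Agent.DK.F

open Pool.Agent.MuZ Pool.Agent.FW NumberField IsDedekindDomain Pool.Agent.DK

private theorem Tra_open {k : ℕ} [SqK k] {b : Ideal (OO k)} (hb : b ≠ ⊥) : IsOpen ((Lam b)ᶜ : Set ℂ) := by
  have h : ((LP b).lattice : Set ℂ) = Lam b := aL1 k b hb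
  rw [← h]
  exact (LP b).isClosed_lattice.isOpen_compl

/-- `2 z ∈ Lam b` gives `wdC b z = 0`. -/
private theorem Tra_wd (hB1 : S_B1) {k : ℕ} [SqK k] {b : Ideal (OO k)} (hb : b ≠ ⊥) {z : ℂ}
    (hz : 2 * z ∈ Lam b) : wdC b z = 0 := by
  obtain ⟨-, -, -, -, -, -, h7, -, h9, -⟩ := hB1 k b hb
  by_cases h : z ∈ Lam b
  · exact (h9 z h).2
  · exact (h7 z h).2 hz

/-- The trivial case. -/
private theorem Tra_triv (hB1 : S_B1) {k : ℕ} [SqK k] {b : Ideal (OO k)} (hb : b ≠ ⊥) {p v : ℂ}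
    (hp : 2 * p ∈ Lam b) (hv : v ∈ Lam b ∨ v + p ∈ Lam b) : wdC b v = 0 ∧ wdC b (v + p) = 0 := by
  obtain ⟨⟨-, hadd, hneg, -⟩, -⟩ := (⟨(aL2 k).1 b, trivial⟩ : _ ∧ True)
  have hsum : 2 * v ∈ Lam b ∧ 2 * (v + p) ∈ Lam b := by
    rcases hv with hv | hv
    · have h1 : 2 * v ∈ Lam b := by
        rw [two_mul]
        exact hadd v v hv hv
      refine ⟨h1, ?_⟩
      rw [mul_add]
      exact hadd _ _ h1 hp
    · have h1 : 2 * (v + p) ∈ Lam b := by
        rw [two_mul]
        exact hadd _ _ hv hv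
      refine ⟨?_, h1⟩
      have h2 : 2 * v = 2 * (v + p) + -(2 * p) := by ring
      rw [h2]
      exact hadd _ _ h1 (hneg _ hp)
  exact ⟨Tra_wd hB1 hb hsum.1, Tra_wd hB1 hb hsum.2⟩

/-- The points near `v`. -/
private theorem Tra_ev {k : ℕ} [SqK k] {b : Ideal (OO k)} (hb : b ≠ ⊥) {p v : ℂ}
    (hv : v ∉ Lam b) (hvp : v + p ∉ Lam b) : ∀ᶠ y in 𝓝 v, y ∉ Lam b ∧ y + p ∉ Lam b := by
  have hO := Tra_open hb
  have h1 : ∀ᶠ y in 𝓝 v, y ∉ Lam b := hO.mem_nhds hv
  have hc : Tendsto (fun y : ℂ => y + p) (𝓝 v) (𝓝 (v + p)) :=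
    (continuous_id.add continuous_const).tendsto v
  have h2 : ∀ᶠ y in 𝓝 v, y + p ∉ Lam b := hc.eventually (hO.mem_nhds hvp)
  exact h1.and h2

/-- Differentiation of a constant product. -/
private theorem Tra_der {F G : ℂ → ℂ} {F' G' v c : ℂ} (hF : HasDerivAt F F' v) (hG : HasDerivAt G G' v)
    (h : ∀ᶠ y in 𝓝 v, F y * G y = c) : F' * G v + F v * G' = 0 := by
  have h1 : HasDerivAt (fun y => F y * G y) (F' * G v + F v * G') v := hF.mul hG
  have h2 : HasDerivAt (fun _ : ℂ => c) 0 v := hasDerivAt_const v c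
  exact h1.unique (h2.congr_of_eventuallyEq h)

theorem tTra (hB1 : S_B1) (hB2 : S_B2) (hB4 : S_B4) : S_Tra := by
  intro k _ b hb v
  have hs2 : s2 b ≠ 0 := (hB1 k b hb).2.2.1
  have hD : DC b ≠ 0 := (hB1 k b hb).2.2.2.1
  have hD1 : 1 - 16 * DC b ≠ 0 := (hB1 k b hb).2.2.2.2.1
  obtain ⟨hBT, hBS⟩ := hB4 k b hb
  have hP : 2 * ptT b ∈ Lam b ∧ 2 * ptS b ∈ Lam b := by
    obtain ⟨-, -, ⟨h1, h2, -⟩, -⟩ := aL6 k b hb
    exact ⟨h1, h2⟩
  have hX : ∀ z : ℂ, z ∉ Lam b → HasDerivAt (XC b) (wdC b z / s2 b) z := fun z hz =>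
    (hB2 k b hb z hz).2.2.2.1
  constructor
  · by_cases hv : v ∈ Lam b ∨ v + ptT b ∈ Lam b
    · obtain ⟨h1, h2⟩ := Tra_triv hB1 hb hP.1 hv
      rw [h1, h2, zero_div, zero_div, neg_zero]
    · push Not at hv
      obtain ⟨hv1, hv2⟩ := hv
      have hev : ∀ᶠ y in 𝓝 v,
          (4 * XC b (y + ptT b) + 1) * (4 * XC b y + 1) = 1 - 16 * DC b := by
        filter_upwards [Tra_ev hb hv1 hv2] with y hy
        have h := (hBT y hy.1 hy.2).2
        linear_combination 4 * h
      have hF : HasDerivAt (fun y => 4 * XC b (y + ptT b) + 1) (4 * (wdC b (v + ptT b) / s2 b)) v :=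
        (((hX (v + ptT b) hv2).comp_add_const v (ptT b)).const_mul 4).add_const 1
      have hG : HasDerivAt (fun y => 4 * XC b y + 1) (4 * (wdC b v / s2 b)) v :=
        ((hX v hv1).const_mul 4).add_const 1
      have hd := Tra_der hF hG hev
      have hpr := hev.self_of_nhds
      have hne1 : 4 * XC b (v + ptT b) + 1 ≠ 0 := by
        intro h
        rw [h, zero_mul] at hpr
        exact hD1 hpr.symm
      have hne2 : 4 * XC b v + 1 ≠ 0 := by
        intro h
        rw [h, mul_zero] at hpr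
        exact hD1 hpr.symm
      have hd' : wdC b (v + ptT b) * (4 * XC b v + 1) + (4 * XC b (v + ptT b) + 1) * wdC b v = 0 := by
        have h4 : (4 : ℂ) / s2 b ≠ 0 := div_ne_zero (by norm_num) hs2
        have : 4 / s2 b * (wdC b (v + ptT b) * (4 * XC b v + 1) +
            (4 * XC b (v + ptT b) + 1) * wdC b v) = 0 := by
          rw [← hd]
          ring
        exact (mul_eq_zero.1 this).resolve_left h4
      rw [← neg_div, div_eq_div_iff hne1 hne2]
      linear_combination hd'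
  · by_cases hv : v ∈ Lam b ∨ v + ptS b ∈ Lam b
    · obtain ⟨h1, h2⟩ := Tra_triv hB1 hb hP.2 hv
      rw [h1, h2, zero_div, zero_div, neg_zero]
    · push Not at hv
      obtain ⟨hv1, hv2⟩ := hv
      have hev : ∀ᶠ y in 𝓝 v, XC b (y + ptS b) * XC b y = DC b := by
        filter_upwards [Tra_ev hb hv1 hv2] with y hy
        exact (hBS y hy.1 hy.2).2
      have hF : HasDerivAt (fun y => XC b (y + ptS b)) (wdC b (v + ptS b) / s2 b) v :=
        (hX (v + ptS b) hv2).comp_add_const v (ptS b)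
      have hd := Tra_der hF (hX v hv1) hev
      have hpr := hev.self_of_nhds
      have hne1 : XC b (v + ptS b) ≠ 0 := by
        intro h
        rw [h, zero_mul] at hpr
        exact hD hpr.symm
      have hne2 : XC b v ≠ 0 := by
        intro h
        rw [h, mul_zero] at hpr
        exact hD hpr.symm
      have hd' : wdC b (v + ptS b) * XC b v + XC b (v + ptS b) * wdC b v = 0 := by
        have h4 : (1 : ℂ) / s2 b ≠ 0 := div_ne_zero one_ne_zero hs2
        have : 1 / s2 b * (wdC b (v + ptS b) * XC b v + XC b (v + ptS b) * wdC b v) = 0 := by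
          rw [← hd]
          ring
        exact (mul_eq_zero.1 this).resolve_left h4
      rw [← neg_div, div_eq_div_iff hne1 hne2]
      linear_combination hd'

end Pool.Agent.DK.F
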