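import Pool.Agent.Lib.DK.F.Spec

/-! Theorem DK, part F, module `V1b`. -/

set_option autoImplicit false

open scoped Pointwise Topology
open Filter

noncomputable section

namespace Pool.Agent.DK.F

open Pool.Agent.MuZ Pool.Agent.FW NumberField IsDedekindDomain Pool.Agent.DK
open Pool.Agent.DI (io ofC io_inj exists_io io_ofC ofC_io VP MP UP TP ex sqr sqr_sq kap)

variable {k : ℕ} [SqK k]

private theorem V1b_sq {z : ℤ} (h : z ^ 2 = 1) : z = 1 ∨ z = -1 := by
  have h1 : (z - 1) * (z + 1) = 0 := by linear_combination h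
  rcases mul_eq_zero.1 h1 with h2 | h2
  · left
    linarith
  · right
    linarith

private theorem V1b_unit {y : OO k} (h : Nm y = 1) : y = 1 ∨ y = -1 := by
  have h1 := four_Nm y
  rw [h] at h1
  have hk := hk1 (k := k)
  have h2 : y.im = 0 := by
    by_contra h0
    have h3 : 1 ≤ y.im ^ 2 := by
      have := sq_pos_of_ne_zero h0
      omega
    have h4 : (7 : ℤ) ≤ (8 * k - 1) * y.im ^ 2 := by nlinarith
    have h5 := sq_nonneg (2 * y.re + y.im)
    linarith
  rw [h2] at h1
  have h3 : y.re ^ 2 = 1 := by nlinarith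
  rcases V1b_sq h3 with h4 | h4
  · left
    exact ext' (by rw [h4, re_one]) (by rw [h2, im_one])
  · right
    refine ext' ?_ ?_
    · rw [h4, QuadraticAlgebra.re_neg, re_one]
    · rw [h2, QuadraticAlgebra.im_neg, im_one, neg_zero]

theorem tV1b (hC7 : S_C7) (hV1a : S_V1a) : S_V1b := by
  intro k _ f m b hm hb
  have hf3 := hm.three
  have hf0 : (f : ℂ) ≠ 0 := by
    have : f ≠ 0 := by omega
    exact_mod_cast this
  have hfR : (f : ℝ) ≠ 0 := by
    have : f ≠ 0 := by omega
    exact_mod_cast this
  refine ⟨fun h => ?_, fun h => ?_⟩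
  · obtain ⟨v, hv⟩ := Finset.nonempty_iff_ne_empty.2 h
    obtain ⟨x, hx0, hx, hfx, -⟩ := hV1a k f m b hm hb v hv
    refine ray_of (α := 1) (α' := x) one_ne_zero hx0 ?_ hfx ?_
    · rw [sub_self]
      exact dvd_zero _
    · rw [show sp (1 : OO k) = ⊤ from Ideal.span_singleton_one, Ideal.top_mul, Ideal.mul_top, hx]
  · obtain ⟨α, α', hα, hα', h1, h2, h3⟩ := ray_norm h
    rw [Ideal.mul_top] at h3
    have h4 : α' ∈ sp α * (m * b) := by
      rw [h3]
      exact Ideal.mem_span_singleton_self α'
    obtain ⟨x, hxm, hx⟩ := Ideal.mem_span_singleton_mul.1 h4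
    have hx0 : x ≠ 0 := by
      rintro rfl
      rw [mul_zero] at hx
      exact hα' hx.symm
    have hmb : m * b = sp x := by
      apply sp_cancel hα
      rw [h3, ← hx, sp_mul]
    have hfx : (f : OO k) ∣ x - 1 := by
      have e : x - 1 = (α' - 1) - (α - 1) * x := by
        rw [← hx]
        ring
      rw [e]
      exact dvd_sub h2 (h1.mul_right _)
    have hxC : toC x ≠ 0 := toC_ne hx0
    obtain ⟨s, hs⟩ := hfx
    have hs' : toC x = 1 + f * toC s := by
      have e : x = 1 + (f : OO k) * s := by
        rw [← hs]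
        ring
      conv_lhs => rw [e]
      rw [toC_add, toC_one, toC_mul, toC_nat]
    have hNI : ((NI (m * b) : ℕ) : ℝ) = ‖toC x‖ ^ 2 := by
      rw [← Nm_norm, hmb]
      have := (aO2 k).2.2.2.1 x
      rw [← this]
      simp
    have hmem : 1 / (f * toC x) ∈ vN f (m * b) 1 := by
      rw [(hC7 k f m b hm hb).2.1]
      constructor
      · have e : m * b = sp x * ⊤ := by rw [Ideal.mul_top, hmb]
        rw [e, lam_sp, lam_top]
        refine ⟨-s, ?_⟩
        rw [toC_neg]
        have e2 : toC x * (1 / (f * toC x) - 1 / f) = (1 - toC x) / f := by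
          field_simp
        rw [e2, hs']
        field_simp
        ring
      · rw [hNI, norm_div, norm_mul, norm_one, Complex.norm_natCast]
        have h5 : ‖toC x‖ ≠ 0 := norm_ne_zero_iff.2 hxC
        field_simp
        simp
    have huni : ∀ v ∈ vN f (m * b) 1, v = 1 / (f * toC x) := by
      intro v hv
      obtain ⟨x', hx'0, hx', hfx', rfl⟩ := hV1a k f m b hm hb v hv
      have h5 : x' ∈ sp x := by
        rw [← hmb, hx']
        exact Ideal.mem_span_singleton_self x'
      obtain ⟨y, hy⟩ := Ideal.mem_span_singleton'.1 h5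
      have h6 : Nm x' = Nm x := by
        rw [← (aO2 k).2.2.2.1 x', ← (aO2 k).2.2.2.1 x, ← hx', hmb]
      have h7 : Nm y = 1 := by
        rw [← hy, Nm_mul] at h6
        have h8 := (Nm_pos hx0).ne'
        have h9 : (Nm y - 1) * Nm x = 0 := by linear_combination h6
        rcases mul_eq_zero.1 h9 with h10 | h10
        · linarith
        · exact absurd h10 h8
      rcases V1b_unit h7 with rfl | rfl
      · rw [one_mul] at hy
        rw [hy]
      · exfalso
        have h8 : (f : OO k) ∣ 2 := by
          have e : (2 : OO k) = -((x' - 1) + (x - 1)) := by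
            rw [← hy]
            ring
          rw [e]
          exact (dvd_neg).2 (dvd_add hfx' ⟨s, hs⟩)
        have h9 := ((nat_dvd_iff f (2 : OO k)).1 h8).1
        have h10 : ((2 : OO k)).re = 2 := by
          have := re_nat (k := k) 2
          exact_mod_cast this
        rw [h10] at h9
        have h11 : f ∣ 2 := by exact_mod_cast h9
        have := Nat.le_of_dvd (by norm_num) h11
        omega
    refine ⟨x, hx0, hmb, ⟨s, hs⟩, ?_, ?_⟩
    · apply Finset.eq_singleton_iff_unique_mem.2
      exact ⟨hmem, huni⟩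
    · intro hmt hL
      have h5 : b ≤ m * b := by
        intro y hy
        obtain ⟨u, hu⟩ := hL y hy
        rw [hmb, Ideal.mem_span_singleton']
        refine ⟨y + f * u, ?_⟩
        apply toC_inj
        rw [toC_mul, toC_add, toC_mul, toC_nat, ← hu]
        field_simp
        ring
      have h6 : m * b = b := le_antisymm Ideal.mul_le_right h5
      apply hmt
      apply mul_cancel hb.ne
      rw [h6, Ideal.top_mul]

end Pool.Agent.DK.F
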