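import Pool.Agent.Lib.DK.F.Kf
import Pool.Agent.Lib.DK.F.KP
import Pool.Agent.Lib.DK.F.Bet
import Pool.Agent.Lib.DK.F.Mu
import Pool.Agent.Lib.DK.F.Sm
import Pool.Agent.Lib.DK.F.Pa
import Pool.Agent.Lib.DK.F.Pb
import Pool.Agent.Lib.DK.F.CB
import Pool.Agent.Lib.DK.F.F1
import Pool.Agent.Lib.DK.F.Hm
import Pool.Agent.Lib.DK.F.Al
import Pool.Agent.Lib.DK.F.Cls
import Pool.Agent.Lib.DK.F.CoL
import Pool.Agent.Lib.DK.F.Has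
import Pool.Agent.Lib.DK.F.V1a
import Pool.Agent.Lib.DK.F.V1b
import Pool.Agent.Lib.DK.F.Lead
import Pool.Agent.Lib.DK.F.TWg
import Pool.Agent.Lib.DK.F.TWc
import Pool.Agent.Lib.DK.F.Sqr
import Pool.Agent.Lib.DK.F.F3c
import Pool.Agent.Lib.DK.F.LaF
import Pool.Agent.Lib.DK.F.GHf
import Pool.Agent.Lib.DK.F.GHs
import Pool.Agent.Lib.DK.F.Tra
import Pool.Agent.Lib.DK.F.GHi
import Pool.Agent.Lib.DK.F.Cus
import Pool.Agent.Lib.DK.F.uA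
import Pool.Agent.Lib.DK.F.KL
import Pool.Agent.Lib.DK.F.PsE
import Pool.Agent.Lib.DK.F.Psi
import Pool.Agent.Lib.DK.F.Asm
import Pool.Agent.Lib.DK.FH.FH
import Pool.Agent.Lib.DK.FH.Kap

/-!
# Theorem DK, part F: assembly

`aKf`, `aF1`, `aLead`, `aPsi`, `aF`: the statements of `DK/IfaceF.lean` from those of the other parts; `tF`: Proposition F from the
statements of the parts B, C, D, E, R.
-/

set_option autoImplicit false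

noncomputable section

namespace Pool.Agent.DK.F

open Pool.Agent.DK

/-- `S_Kf`. -/
theorem aKf (hE1 : S_E1) (hE4 : S_E4) (hE7 : S_E7) (hE8 : S_E8) (hCj : Eb.S_Cj) (hIne : FW.S_Ine) :
    S_Kf := tKf hE1 hE4 hE7 hE8 hCj hIne

/-- `S_F1`. -/
theorem aF1 (hE1 : S_E1) (hKf : S_Kf) (hC2 : S_C2) (hC6 : S_C6) (hC8 : S_C8) (hC9 : S_C9) : S_F1 := by
  have hKP : S_KP := tKP
  have hMu : S_Mu := tMu hC6 hC8 hC9
  have hPa : S_Pa := tPa hE1 hKf hMu hC2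
  exact tF1 hKf hKP (tBet hE1 hKf hKP) hMu (tSm hE1 hKf hMu) (tPb hKP hPa) (tCB hKf hC6)

theorem aHm (hB12 : S_B12) (hC7 : S_C7) : S_Hm := tHm hB12 hC7

theorem aCls (hB12 : S_B12) (hC7 : S_C7) (hR5 : S_R5) : S_Cls := tCls hR5 (tHm hB12 hC7) (tAl hC7)

/-- `S_Lead`. -/
theorem aLead (hKf : S_Kf) (hE10 : S_E10) (hB12 : S_B12) (hC7 : S_C7) (hR5 : S_R5) (hD9 : S_D9) :
    S_Lead := by
  have hHm : S_Hm := tHm hB12 hC7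
  have hAl : S_Al := tAl hC7
  exact tLead hR5 hD9 tKP (tCoL hKf hE10 hR5 hHm hAl) (tHas hR5 hC7 hAl) (tV1b hC7 (tV1a hC7))

/-- `S_Psi`. -/
theorem aPsi (hLead : S_Lead) (hKap : S_Kap) (hB1 : S_B1) (hB2 : S_B2) (hB4 : S_B4) (hB5 : S_B5)
    (hB6 : S_B6) (hB7 : S_B7) (hC3 : S_C3) (hC7 : S_C7) (hR1 : S_R1) (hR5 : S_R5) : S_Psi := by
  have hTWg : S_TWg := tTWg
  have hTWc : S_TWc := tTWc hTWg
  have hF3c : S_F3c := tF3c hTWg hTWc tSqr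
  have hGHf : S_GHf := tGHf hB1 hB5 hB6
  have hGHs : S_GHs := tGHs hB1 hB2 hB5 hB6 hB7 hGHf
  have hGHi : S_GHi := tGHi hB1 hGHf (tTra hB1 hB2 hB4)
  have hPsE : S_PsE :=
    tPsE hF3c (tLaF hR1 hR5 hKap hB1 hB2) hGHs (tuA hLead) (tKL hB7 hB1 hKap hR5)
  exact tPsi hC7 hGHf hGHi (tCus hC3) hPsE

/-- **Proposition F.** -/
theorem aF (hE1 : S_E1) (hE10 : S_E10) (hKf : S_Kf) (hKap : S_Kap) (hFH : S_FH) (hB1 : S_B1)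
    (hB2 : S_B2) (hB4 : S_B4) (hB5 : S_B5) (hB6 : S_B6) (hB7 : S_B7) (hB12 : S_B12) (hC2 : S_C2)
    (hC3 : S_C3) (hC6 : S_C6) (hC7 : S_C7) (hC8 : S_C8) (hC9 : S_C9) (hR1 : S_R1) (hR5 : S_R5)
    (hD9 : S_D9) : S_F := by
  have hLead : S_Lead := aLead hKf hE10 hB12 hC7 hR5 hD9
  exact tAsm hKf (aF1 hE1 hKf hC2 hC6 hC8 hC9) hLead
    (aPsi hLead hKap hB1 hB2 hB4 hB5 hB6 hB7 hC3 hC7 hR1 hR5) hFH

/-- **Proposition F**, from the statements of the other parts. -/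
theorem tF (hB1 : S_B1) (hB2 : S_B2) (hB4 : S_B4) (hB5 : S_B5) (hB6 : S_B6) (hB7 : S_B7)
    (hB12 : S_B12) (hC2 : S_C2) (hC3 : S_C3) (hC6 : S_C6) (hC7 : S_C7) (hC8 : S_C8) (hC9 : S_C9)
    (hR1 : S_R1) (hR2 : S_R2) (hR4 : S_R4) (hR5 : S_R5) (hR5b : S_R5b) (hD1 : S_D1) (hD2 : S_D2)
    (hD9 : S_D9) (hE1 : S_E1) (hE3 : S_E3) (hE4 : S_E4) (hE7 : S_E7) (hE8 : S_E8) (hE10 : S_E10)
    (hCj : Eb.S_Cj) (hIne : FW.S_Ine) : S_F := by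
  have hKf : S_Kf := aKf hE1 hE4 hE7 hE8 hCj hIne
  have hKap : S_Kap := tKap hB1 hB6 hB12 hR1 hR2 hR4 hR5 hR5b hD1 hD2 aL6 hE1
  have hLead : S_Lead := aLead hKf hE10 hB12 hC7 hR5 hD9
  have hFH : S_FH :=
    tFH hB1 hB6 hB12 hR1 hR2 hR4 hR5 hD9 aO7 hC7 hE1 hE3 hE10 hKf hLead hKap
  exact aF hE1 hE10 hKf hKap hFH hB1 hB2 hB4 hB5 hB6 hB7 hB12 hC2 hC3 hC6 hC7 hC8 hC9 hR1 hR5 hD9

end Pool.Agent.DK.F
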