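import Pool.Agent.Lib.DK.IfaceF
import Pool.Agent.Lib.DK.O.All
import Pool.Agent.Lib.DK.E.GenH

/-!
# Theorem DK, part F: elementary lemmas (complete; no task)

Ideals prime to `f` (`FB`), the ray class relation (`ray_..`), representatives (`rep`), sums over a system
of representatives (`sum_rep`), the conditions `FM`, `IsLv`, fractions `b / d`.
-/

set_option autoImplicit false
set_option linter.unusedSectionVars false

open scoped Pointwise Topology
open Filter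

noncomputable section

namespace Pool.Agent.DK.F

open Pool.Agent.MuZ Pool.Agent.FW NumberField IsDedekindDomain Pool.Agent.DK
open Pool.Agent.DI (io ofC io_inj exists_io io_ofC ofC_io VP MP UP TP ex sqr sqr_sq kap)

variable {k : ℕ} [SqK k]

/-! ## Ideals -/

theorem cjI_top : cjI (⊤ : Ideal (OO k)) = ⊤ := by
  obtain ⟨-, -, -, c4, -⟩ := aO3 k
  have h := c4 (1 : OO k)
  rw [cjO_one] at h
  rwa [show sp (1 : OO k) = ⊤ from Ideal.span_singleton_one] at h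

theorem cjI_cjI (a : Ideal (OO k)) : cjI (cjI a) = a := ((aO3 k).2.2.1 a).1

theorem NI_cjI (a : Ideal (OO k)) : NI (cjI a) = NI a := ((aO3 k).2.2.1 a).2.1

theorem cjI_ne {a : Ideal (OO k)} (h : a ≠ ⊥) : cjI a ≠ ⊥ := by
  intro h1
  have h2 := NI_cjI a
  rw [h1] at h2
  have h3 := (aO2 k).2.2.2.2.2.1
  exact h ((h3 a).1 (by rw [← h2]; exact (h3 ⊥).2 rfl))

theorem cjI_mul (a b : Ideal (OO k)) : cjI (a * b) = cjI a * cjI b := (aO3 k).2.1 a b

theorem NI_mul (a b : Ideal (OO k)) : NI (a * b) = NI a * NI b := (aO2 k).2.2.2.2.1 a b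

theorem NI_top : NI (⊤ : Ideal (OO k)) = 1 := by
  have h := (aO2 k).2.2.2.1 (1 : OO k)
  rw [show sp (1 : OO k) = ⊤ from Ideal.span_singleton_one, Nm_one] at h
  exact_mod_cast h

theorem NI_pos {a : Ideal (OO k)} (h : a ≠ ⊥) : 0 < NI a :=
  Nat.pos_of_ne_zero fun h1 => h (((aO2 k).2.2.2.2.2.1 a).1 h1)

/-- Multiplication by a nonzero principal ideal is injective. -/
theorem sp_cancel {α : OO k} (hα : α ≠ 0) {a b : Ideal (OO k)} (h : sp α * a = sp α * b) : a = b :=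
  (Ideal.span_singleton_mul_right_inj hα).1 h

theorem sp_mul (α β : OO k) : sp (α * β) = sp α * sp β :=
  (Ideal.span_singleton_mul_span_singleton α β).symm

theorem mul_cancel {a b c : Ideal (OO k)} (hc : c ≠ ⊥) (h : a * c = b * c) : a = b := by
  rw [← Ideal.zero_eq_bot] at hc
  exact mul_right_cancel₀ hc h

/-! ## `FB`, `FM`, `IsLv` -/

theorem fb_top (f : ℕ) : FB f (⊤ : Ideal (OO k)) := ⟨Eb.ne_top, Eb.pri_top f⟩

theorem fb_mul {f : ℕ} {a b : Ideal (OO k)} (h : FB f a) (h' : FB f b) : FB f (a * b) :=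
  ⟨Eb.ne_mul h.ne h'.ne, Eb.pri_mul h.cop h'.cop⟩

theorem fb_cj {f : ℕ} {a : Ideal (OO k)} (h : FB f a) : FB f (cjI a) :=
  ⟨cjI_ne h.ne, ((aO3 k).2.2.2.2.1 a f).2 h.cop⟩

theorem fb_psi {f : ℕ} {τ : Gal(Om/ℚ)} {a : Ideal (OO k)} (h : Psi τ f a) : FB f a := ⟨h.ne, h.cop⟩

theorem fm_fb {f : ℕ} {m : Ideal (OO k)} (h : FM f m) : FB f m := ⟨h.ne, h.cop⟩

theorem fr_fb {f : ℕ} {R : Finset (Ideal (OO k))} (h : FR f R) {b : Ideal (OO k)} (hb : b ∈ R) :
    FB f b := ⟨(h b hb).1, (h b hb).2.1⟩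

theorem fm_cj {f : ℕ} {m : Ideal (OO k)} (h : FM f m) : FM f (cjI m) :=
  ⟨h.odd, h.three, cjI_ne h.ne, ((aO3 k).2.2.2.2.1 m 2).2 h.two, ((aO3 k).2.2.2.2.1 m f).2 h.cop⟩

theorem lv_cj {f M : ℕ} {m : Ideal (OO k)} {R : Finset (Ideal (OO k))} (h : IsLv f m R M) :
    IsLv f (cjI m) R M := by
  refine ⟨h.odd, h.three, ?_⟩
  have h1 : lev f (cjI m) R = lev f m R := by
    unfold lev
    rw [NI_cjI]
  rw [h1]
  exact h.dvd

theorem lv_one {f M : ℕ} {m : Ideal (OO k)} {R : Finset (Ideal (OO k))} (h : IsLv f m R M)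
    {b : Ideal (OO k)} (hb : b ∈ R) : IsLv f m {b} M := by
  refine ⟨h.odd, h.three, dvd_trans ?_ h.dvd⟩
  unfold lev
  rw [Finset.prod_singleton]
  exact mul_dvd_mul_left _ (pow_dvd_pow_of_dvd (mul_dvd_mul_left _ (Finset.dvd_prod_of_mem _ hb)) 3)

theorem lv_top {f M : ℕ} {m : Ideal (OO k)} {R : Finset (Ideal (OO k))} (h : IsLv f m R M) :
    IsLv f m {(⊤ : Ideal (OO k))} M := by
  refine ⟨h.odd, h.three, dvd_trans ?_ h.dvd⟩
  unfold lev
  rw [Finset.prod_singleton, NI_top, mul_one]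
  exact mul_dvd_mul_left _ (pow_dvd_pow_of_dvd (Dvd.intro _ rfl) 3)

theorem lv_m {f M : ℕ} {m : Ideal (OO k)} {R : Finset (Ideal (OO k))} (h : IsLv f m R M) :
    NI m ∣ M := by
  refine dvd_trans ?_ h.dvd
  unfold lev
  refine Dvd.dvd.mul_left ?_ _
  exact dvd_trans (Dvd.intro _ rfl) (dvd_pow_self _ (by norm_num))

/-! ## The ray class relation modulo `f` -/

theorem ray_refl {f : ℕ} (hf : 0 < f) (a : Ideal (OO k)) : Ray f a a := (aO7 k f hf).1 a

theorem ray_symm {f : ℕ} (hf : 0 < f) {a b : Ideal (OO k)} (h : Ray f a b) : Ray f b a :=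
  (aO7 k f hf).2.1 a b h

theorem ray_trans {f : ℕ} (hf : 0 < f) {a b c : Ideal (OO k)} (h : Ray f a b) (h' : Ray f b c) :
    Ray f a c := (aO7 k f hf).2.2.1 a b c h h'

theorem ray_mul {f : ℕ} (hf : 0 < f) {a b c d : Ideal (OO k)} (h : Ray f a b) (h' : Ray f c d) :
    Ray f (a * c) (b * d) := (aO7 k f hf).2.2.2.1 a b c d h h'

theorem ray_cancel {f : ℕ} (hf : 0 < f) {a b c : Ideal (OO k)} (hc : FB f c)
    (h : Ray f (a * c) (b * c)) : Ray f a b := (aO7 k f hf).2.2.2.2.1 a b c hc.ne hc.cop h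

theorem ray_cancel' {f : ℕ} (hf : 0 < f) {a b c : Ideal (OO k)} (hc : FB f c)
    (h : Ray f (c * a) (c * b)) : Ray f a b :=
  ray_cancel hf hc (by rwa [mul_comm a c, mul_comm b c])

theorem ray_fb {f : ℕ} (hf : 0 < f) {a b : Ideal (OO k)} (h : Ray f a b) (ha : FB f a) : FB f b := by
  obtain ⟨h1, h2⟩ := (aO7 k f hf).2.2.2.2.2.1 a b h
  exact ⟨h1.1 ha.ne, h2.1 ha.cop⟩

theorem ray_cj {f : ℕ} {a b : Ideal (OO k)} (h : Ray f a b) : Ray f (cjI a) (cjI b) :=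
  (aO3 k).2.2.2.2.2 f a b h

theorem ray_inv {f : ℕ} (hf : 0 < f) {a : Ideal (OO k)} (ha : FB f a) :
    ∃ a', FB f a' ∧ Ray f (a * a') ⊤ := by
  obtain ⟨a', h1, h2, h3⟩ := (aO7 k f hf).2.2.2.2.2.2.2.2.1 a ha.ne ha.cop
  exact ⟨a', ⟨h1, h2⟩, h3⟩

/-- The normalised form of the relation. -/
theorem ray_norm {f : ℕ} {a b : Ideal (OO k)} (h : Ray f a b) :
    ∃ α α' : OO k, α ≠ 0 ∧ α' ≠ 0 ∧ (f : OO k) ∣ α - 1 ∧ (f : OO k) ∣ α' - 1 ∧
      sp α * a = sp α' * b := by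
  obtain ⟨α, α', h1, h2, h3, h4, h5, h6⟩ := h
  obtain ⟨β, h7, h8⟩ := cop_inv h3
  rcases eq_or_ne β 0 with rfl | hβ
  · -- `f = 1`
    rw [mul_zero, zero_sub] at h8
    have h9 : (f : OO k) ∣ 1 := (dvd_neg).1 h8
    exact ⟨α, α', h1, h2, h9.trans (one_dvd _), h9.trans (one_dvd _), h6⟩
  · refine ⟨β * α, β * α', mul_ne_zero hβ h1, mul_ne_zero hβ h2, ?_, ?_, ?_⟩
    · rw [mul_comm β α]
      exact h8
    · have h9 : β * α' - 1 = (α * β - 1) - β * (α - α') := by ring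
      rw [h9]
      exact dvd_sub h8 (h5.mul_left _)
    · have h6' : sp α * a = sp α' * b := h6
      rw [sp_mul, sp_mul, mul_assoc, mul_assoc, h6']

theorem ray_of {f : ℕ} {a b : Ideal (OO k)} {α α' : OO k} (h1 : α ≠ 0) (h2 : α' ≠ 0)
    (h3 : (f : OO k) ∣ α - 1) (h4 : (f : OO k) ∣ α' - 1) (h : sp α * a = sp α' * b) : Ray f a b := by
  have h5 : (f : OO k) ∣ 1 - α := by
    rw [← neg_sub]
    exact (dvd_neg).2 h3
  have h6 : (f : OO k) ∣ 1 - α' := by
    rw [← neg_sub]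
    exact (dvd_neg).2 h4
  refine ⟨α, α', h1, h2, cop_congr h5 (cop_one f), cop_congr h6 (cop_one f), ?_, h⟩
  have h7 : α - α' = (α - 1) - (α' - 1) := by ring
  rw [h7]
  exact dvd_sub h3 h4

/-! ## Representatives -/

open Classical in
/-- The representative of `b` in `R`. -/
def rep (f : ℕ) (R : Finset (Ideal (OO k))) (b : Ideal (OO k)) : Ideal (OO k) :=
  if h : ∃ b' ∈ R, Ray f b b' then h.choose else ⊤

theorem rep_spec {f : ℕ} {R : Finset (Ideal (OO k))} (hR : IsRC f R) {b : Ideal (OO k)} (hb : FB f b) :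
    rep f R b ∈ R ∧ Ray f b (rep f R b) := by
  have h := hR.ex b hb.ne hb.cop
  unfold rep
  rw [dif_pos h]
  exact h.choose_spec

theorem rc_fb {f : ℕ} {R : Finset (Ideal (OO k))} (hR : IsRC f R) {b : Ideal (OO k)} (hb : b ∈ R) :
    FB f b := ⟨(hR.mem b hb).1, (hR.mem b hb).2⟩

/-- **Reindexing.** `F` is a class function, `g` is injective on the classes. -/
theorem sum_rep {A : Type} [AddCommMonoid A] {f : ℕ} (hf : 0 < f) {R : Finset (Ideal (OO k))}
    (hR : IsRC f R) (g : Ideal (OO k) → Ideal (OO k)) (hg : ∀ b, FB f b → FB f (g b))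
    (hinj : ∀ b b', FB f b → FB f b' → Ray f (g b) (g b') → Ray f b b')
    (F : Ideal (OO k) → A) (hF : ∀ b b', FB f b → FB f b' → Ray f b b' → F b = F b') :
    ∑ b ∈ R, F (g b) = ∑ b ∈ R, F b := by
  classical
  have h1 : ∀ b ∈ R, rep f R (g b) ∈ R := fun b hb => (rep_spec hR (hg b (rc_fb hR hb))).1
  have h2 : ∀ b ∈ R, F (g b) = F (rep f R (g b)) := fun b hb =>
    hF _ _ (hg b (rc_fb hR hb)) (rc_fb hR (h1 b hb)) (rep_spec hR (hg b (rc_fb hR hb))).2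
  have h3 : ∀ b ∈ R, ∀ b' ∈ R, rep f R (g b) = rep f R (g b') → b = b' := by
    intro b hb b' hb' h
    apply hR.uni b hb b' hb'
    apply hinj b b' (rc_fb hR hb) (rc_fb hR hb')
    have h4 := (rep_spec hR (hg b (rc_fb hR hb))).2
    have h5 := (rep_spec hR (hg b' (rc_fb hR hb'))).2
    rw [h] at h4
    exact ray_trans hf h4 (ray_symm hf h5)
  rw [Finset.sum_congr rfl h2]
  have h4 : R.image (fun b => rep f R (g b)) = R := by
    apply Finset.eq_of_subset_of_card_le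
    · intro b hb
      rw [Finset.mem_image] at hb
      obtain ⟨b', hb', rfl⟩ := hb
      exact h1 b' hb'
    · rw [Finset.card_image_of_injOn]
      intro b hb b' hb' h
      exact h3 b hb b' hb' h
  conv_rhs => rw [← h4]
  rw [Finset.sum_image (fun b hb b' hb' h => h3 b hb b' hb' h)]

/-- Reindexing by multiplication with `a`. -/
theorem sum_mul {A : Type} [AddCommMonoid A] {f : ℕ} (hf : 0 < f) {R : Finset (Ideal (OO k))}
    (hR : IsRC f R) {a : Ideal (OO k)} (ha : FB f a)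
    (F : Ideal (OO k) → A) (hF : ∀ b b', FB f b → FB f b' → Ray f b b' → F b = F b') :
    ∑ b ∈ R, F (a * b) = ∑ b ∈ R, F b :=
  sum_rep hf hR (fun b => a * b) (fun _ hb => fb_mul ha hb)
    (fun _ _ _ _ h => ray_cancel' hf ha h) F hF

/-- Reindexing by conjugation. -/
theorem sum_cj {A : Type} [AddCommMonoid A] {f : ℕ} (hf : 0 < f) {R : Finset (Ideal (OO k))}
    (hR : IsRC f R)
    (F : Ideal (OO k) → A) (hF : ∀ b b', FB f b → FB f b' → Ray f b b' → F b = F b') :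
    ∑ b ∈ R, F (cjI b) = ∑ b ∈ R, F b :=
  sum_rep hf hR (fun b => cjI b) (fun _ hb => fb_cj hb)
    (fun b b' _ _ h => by
      have h1 := ray_cj h
      rwa [cjI_cjI, cjI_cjI] at h1) F hF

/-- The representative of the inverse class of `m`. -/
theorem exists_b1 {f : ℕ} (hf : 0 < f) {m : Ideal (OO k)} (hm : FB f m) {R : Finset (Ideal (OO k))}
    (hR : IsRC f R) : ∃ b1 ∈ R, Ray f (m * b1) ⊤ ∧ ∀ b ∈ R, Ray f (m * b) ⊤ → b = b1 := by
  obtain ⟨a, ha, h1⟩ := ray_inv hf hm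
  obtain ⟨h2, h3⟩ := rep_spec hR ha
  have h4 : Ray f (m * rep f R a) ⊤ :=
    ray_trans hf (ray_mul hf (ray_refl hf m) (ray_symm hf h3)) h1
  refine ⟨rep f R a, h2, h4, fun b hb h => ?_⟩
  apply hR.uni b hb _ h2
  exact ray_cancel' hf hm (ray_trans hf h (ray_symm hf h4))

/-! ## Fractions -/

theorem g0_cop {M : ℕ} {a b c d : ℤ} (_h : G0 M a b c d) (hd : (M : ℤ) ∣ d - 1) : IsCoprime d (M : ℤ) := by
  obtain ⟨e, he⟩ := hd
  exact ⟨1, -e, by linear_combination he⟩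

theorem g0_ne {M : ℕ} (hM : 3 ≤ M) {a b c d : ℤ} (h : G0 M a b c d) (hd : (M : ℤ) ∣ d - 1) : d ≠ 0 := by
  rintro rfl
  have h1 := g0_cop h hd
  have h2 : IsUnit (M : ℤ) := isCoprime_zero_left.1 h1
  rw [Int.isUnit_iff] at h2
  omega

/-- The denominator of `b / d` is prime to `N`, if `d` is prime to `M` and `N ∣ M`. -/
theorem den_cop {M N : ℕ} {a b c d : ℤ} (h : G0 M a b c d) (hd : (M : ℤ) ∣ d - 1) (hN : N ∣ M) :
    ((b : ℚ) / d).den.Coprime N := by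
  have h1 : IsCoprime d (M : ℤ) := g0_cop h hd
  have h2 : (((b : ℚ) / d).den : ℤ) ∣ d := by
    have h3 := Rat.den_dvd b d
    have e : Rat.divInt b d = (b : ℚ) / d := by
      rw [Rat.divInt_eq_div]
    rw [e] at h3
    exact h3
  have h3 : IsCoprime (((b : ℚ) / d).den : ℤ) (N : ℤ) :=
    (h1.of_isCoprime_of_dvd_left h2).of_isCoprime_of_dvd_right (by exact_mod_cast hN)
  exact Nat.isCoprime_iff_coprime.1 h3

/-- The matrix `g^i`. -/
theorem g0_inv {M : ℤ} {a b c d : ℤ} (h : G0 M a b c d) : G0 M a (-b) (-c) d :=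
  ⟨by linear_combination h.1, (dvd_neg).2 h.2⟩

/-- The action of `g^i`. -/
theorem g0_conj (a b c d : ℤ) (z : ℂ) :
    -(starRingEnd ℂ) ((a * z + b) / (c * z + d)) =
      (a * (-(starRingEnd ℂ) z) + ((-b : ℤ) : ℂ)) / (((-c : ℤ) : ℂ) * (-(starRingEnd ℂ) z) + d) := by
  rw [map_div₀, map_add, map_add, map_mul, map_mul, map_intCast, map_intCast, map_intCast,
    map_intCast, ← neg_div]
  push_cast
  congr 1 <;> ring

end Pool.Agent.DK.F
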