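import Pool.Agent.Lib.DK.F.Spec

/-!
# Theorem DK, part F, module Has: the `q`-expansion
-/

set_option autoImplicit false

open scoped Pointwise Topology

noncomputable section

namespace Pool.Agent.DK.F

open Pool.Agent.MuZ Pool.Agent.FW NumberField IsDedekindDomain Pool.Agent.DK
open Pool.Agent.DI (io ofC io_inj exists_io io_ofC ofC_io VP MP UP TP ex sqr sqr_sq kap)

private theorem Has_ex (n : ℕ) (z : ℂ) : ex (n * z) = ex z ^ n := by
  unfold ex
  rw [← Complex.exp_nat_mul]
  congr 1
  ring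

theorem tHas (hR5 : S_R5) (hC7 : S_C7) (hAl : S_Al) : S_Has := by
  intro k _ f m R hm hR σ N0 β
  refine ⟨fun z hz => ?_, ?_⟩
  · have htop : FB f (⊤ : Ideal (OO k)) := fb_top f
    have h1 : ∀ b ∈ R, HasSum (fun n : ℕ => io (σ b β) * (fr f (⊤ : Ideal (OO k)) / fr f b) *
        cM f m b n * ex z ^ n)
        (io (σ b β) * (fr f (⊤ : Ideal (OO k))) * ThM f m b z) := by
      intro b hb
      have h2 := ((hC7 k f m b hm (rc_fb hR hb)).2.2.2.2 z hz).mul_left
        (io (σ b β) * fr f (⊤ : Ideal (OO k)))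
      have e : (fun n : ℕ => io (σ b β) * fr f (⊤ : Ideal (OO k)) *
          (cM f m b n / fr f b * ex (n * z))) = fun n : ℕ =>
          io (σ b β) * (fr f (⊤ : Ideal (OO k)) / fr f b) * cM f m b n * ex z ^ n := by
        funext n
        rw [Has_ex]
        ring
      rw [e] at h2
      exact h2
    have h2 := (hasSum_sum h1).mul_left (N0 : ℂ)
    have e1 : (N0 : ℂ) * ∑ b ∈ R, io (σ b β) * (fr f (⊤ : Ideal (OO k))) * ThM f m b z =
        fr f (⊤ : Ideal (OO k)) * AF f m R σ N0 β z := by
      unfold AF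
      rw [Finset.mul_sum, Finset.mul_sum, Finset.mul_sum]
      exact Finset.sum_congr rfl fun b _ => by ring
    rw [e1] at h2
    have e2 : (fun n : ℕ => io (aF f m R σ N0 β n) * ex z ^ n) = fun n : ℕ => (N0 : ℂ) *
        ∑ b ∈ R, io (σ b β) * (fr f (⊤ : Ideal (OO k)) / fr f b) * cM f m b n * ex z ^ n := by
      funext n
      unfold aF
      rw [map_mul, map_natCast, map_sum, mul_assoc, Finset.sum_mul]
      congr 1
      refine Finset.sum_congr rfl fun b hb => ?_
      have hfb := rc_fb hR hb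
      rw [map_mul, map_mul, (hAl k f m b hm hfb n).2, (hR5 k f m b ⊤ hm.odd hm.three hm.ne hfb.ne
        htop.ne hm.two hm.cop hfb.cop htop.cop).2.1]
    rw [e2]
    exact h2
  · unfold aF
    have h1 : ∀ b ∈ R, σ b β * rO f b ⊤ * ofC (cM f m b 0) = 0 := by
      intro b hb
      have h2 : cM f m b 0 = 0 := by
        unfold cM
        rw [(hC7 k f m b hm (rc_fb hR hb)).2.2.1, Finset.sum_empty]
      have h3 : ofC (0 : ℂ) = 0 := by
        have := ofC_io (0 : Om)
        rwa [map_zero] at this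
      rw [h2, h3, mul_zero]
    rw [Finset.sum_eq_zero h1, mul_zero]

end Pool.Agent.DK.F
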