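import Pool.Agent.Lib.DK.F.Spec
import Pool.Agent.Lib.DK.E.F0
import Pool.Agent.Lib.DI.FH.Unr
import Pool.Agent.Lib.MuZ.Inst

/-!
# Theorem DK, part F, module `Kf`: Galois theory of the ray class field `Kf k f`
-/

set_option autoImplicit false

open scoped Pointwise Topology MatrixGroups
open Filter

noncomputable section

namespace Pool.Agent.DK.F

open Pool.Agent.MuZ Pool.Agent.FW NumberField IsDedekindDomain Pool.Agent.DK
open Pool.Agent.DI (io ofC io_inj exists_io io_ofC ofC_io VP MP UP TP ex sqr sqr_sq kap)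

/-- A Frobenius element at `P` in `Gal(Om/K)`. -/
private theorem Kf_frob {k : ℕ} [SqK k] {P : Ideal ZZ} (hP : AbP k P) :
    ∃ φ ∈ GK k, Fro P 2 φ := by
  obtain ⟨hN, h2, hw⟩ := hP
  have : P.IsPrime := hN.1
  have h2' : ((2 : ℕ) : ZZ) ∈ P := (DI.MP.nat_iff (P := P) 2).1 (by exact_mod_cast h2)
  obtain ⟨φ, hφ⟩ := Eb.tF0 P 2 hN Nat.prime_two h2'
  refine ⟨φ, ?_, hφ⟩
  rw [mem_GK_iff]
  have hsq := wO_sq (k := k)
  have h3 : (φ (wO k) - wO k) * (φ (wO k) - (1 - wO k)) = 0 := by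
    have h4 := congrArg φ hsq
    simp only [map_sub, map_mul, map_pow, map_ofNat, map_natCast] at h4
    linear_combination h4 - hsq
  rcases mul_eq_zero.1 h3 with h5 | h5
  · exact sub_eq_zero.1 h5
  · exfalso
    have h6 : φ (wO k) = 1 - wO k := sub_eq_zero.1 h5
    have h7 := DI.VP.frob (P := P) (φ := φ) (l := 2) hφ (DI.MP.vp hw)
    rw [h6] at h7
    have h8 : MP P (wO k + wO k ^ 2) := by
      rw [pow_two]
      exact DI.MP.add hw (DI.MP.mul_right hw (DI.MP.vp hw))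
    have h9 := DI.MP.add h7 h8
    have h10 : 1 - wO k - wO k ^ 2 + (wO k + wO k ^ 2) = 1 := by ring
    rw [h10] at h9
    exact DI.MP.one_not h9

/-- The translate of a nonzero prime above `2`. -/
private theorem Kf_tr (σ : Gal(Om/ℚ)) {P : Ideal ZZ} (hP : Npr P) (h2 : MP P 2) :
    Npr (σ • P) ∧ MP (σ • P) 2 := by
  have hp : P.IsPrime := hP.1
  have hp' : (σ • P).IsPrime := inferInstance
  refine ⟨⟨hp', fun h => hP.2 ?_⟩, ?_⟩
  · rw [eq_bot_iff]
    intro x hx
    have h1 : σ • x ∈ σ • P := (DI.smul_mem_smul_iff σ x).2 hx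
    rw [h, Ideal.mem_bot] at h1
    have h3 : σ⁻¹ • σ • x = 0 := by rw [h1, smul_zero]
    rw [inv_smul_smul] at h3
    rw [h3]
    exact Ideal.zero_mem _
  · have h1 := (DI.MP.smul (P := P) σ (x := (2 : Om))).2 h2
    rwa [map_ofNat] at h1

theorem tKf (hE1 : S_E1) (hE4 : S_E4) (hE7 : S_E7) (hE8 : S_E8) (hCj : Eb.S_Cj)
    (hIne : FW.S_Ine) : S_Kf := by
  intro k _ f hfo _
  have hf : 0 < f := hfo.pos
  have hg : Eb.HG f (fun a : Ideal (OO k) => Ray f a ⊤) := Eb.hgRay aO3 aO7 hf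
  obtain ⟨hfd, hle, hfix⟩ := hE8 k f (fun a : Ideal (OO k) => Ray f a ⊤) hf hg.top hg.cop hg.ray hg.mul
  have hnor : ∀ τ : Gal(Om/ℚ), ∀ x ∈ Kf k f, τ x ∈ Kf k f := Eb.fixI_normal hCj hf hg
  have hinr := (Eb.tInrG hIne hE4 hE8 hfo hg (fun τ _ x hx => hnor τ x hx)).1
  refine ⟨hfd, hle (IntermediateField.mem_adjoin_simple_self ℚ (wO k)), ?_, hnor, ?_, ?_, ?_, ?_,
    fun P hP => Kf_frob hP, ?_⟩
  · -- representatives
    choose! σ hσ using fun (b : Ideal (OO k)) (hb : FB f b) => hE7 k f b hf hb.ne hb.cop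
    exact ⟨σ, fun b hb => (hσ b hb).1, fun b hb => (hσ b hb).2⟩
  · -- the fixed field
    intro x hx
    have h2 : x ∈ IntermediateField.fixedField (KQ k).fixingSubgroup := by
      rintro ⟨τ, hτ⟩
      exact hx τ hτ
    rwa [InfiniteGalois.fixedField_fixingSubgroup] at h2
  · -- the Galois group
    intro τ hτ τ' hτ' a a' ha ha'
    have hρ : τ⁻¹ * τ' ∈ GK k := mul_mem (inv_mem hτ) hτ'
    obtain ⟨t, ht⟩ := (hE1 k f hf).1 _ hρ
    have h2 := Eb.psi_mul ha ht
    rw [mul_inv_cancel_left] at h2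
    have h3 : Ray f (a * t) a' := (hE1 k f hf).2.1 τ' _ _ h2 ha'
    have h4 : (∀ x ∈ Kf k f, τ x = τ' x) ↔ Ray f t ⊤ := by
      rw [← hfix _ hρ t ht]
      constructor
      · intro h x hx
        have h5 := h x hx
        rw [AlgEquiv.mul_apply, ← h5, ← AlgEquiv.mul_apply, inv_mul_cancel]
        rfl
      · intro h x hx
        have h5 := h x hx
        have h6 : τ' x = (τ * (τ⁻¹ * τ')) x := by rw [mul_inv_cancel_left]
        rw [h6, AlgEquiv.mul_apply, h5]
    rw [h4]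
    constructor
    · intro h
      have h5 : Ray f (a * t) (a * ⊤) := ray_mul hf (ray_refl hf a) h
      rw [Ideal.mul_top] at h5
      exact ray_trans hf (ray_symm hf h5) h3
    · intro h
      have h5 : Ray f (a * t) (a * ⊤) := by
        rw [Ideal.mul_top]
        exact ray_trans hf h3 (ray_symm hf h)
      exact ray_cancel' hf (fb_psi ha) h5
  · -- reduction is injective
    intro P hP h2 τ hτ τ' hτ' h x hx
    obtain ⟨hP', h2'⟩ := Kf_tr τ'⁻¹ hP h2
    have hp' : (τ'⁻¹ • P).IsPrime := hP'.1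
    have hρ : τ'⁻¹ * τ ∈ GK k := mul_mem (inv_mem hτ') hτ
    obtain ⟨s, hs, -, hsx⟩ := hIne (KQ k) (Kf k f) hfd hle (τ'⁻¹ • P) hP'.1 hP'.2 _ hρ
      (hnor _) (by
      intro y hy
      have h3 := (DI.MP.smul (P := P) τ'⁻¹ (x := τ (y : Om) - τ' (y : Om))).2 (h _ hy y.2)
      have h4 : τ'⁻¹ (τ (y : Om) - τ' (y : Om)) = (((τ'⁻¹ * τ) • y - y : ZZ) : Om) := by
        rw [map_sub, ← AlgEquiv.mul_apply, ← AlgEquiv.mul_apply, inv_mul_cancel]
        rfl
      rw [h4] at h3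
      exact (DI.MP.coe_iff _).1 h3)
    have h5 : (τ'⁻¹ * τ) x = x := by
      rw [← hsx x hx]
      exact hinr _ hP' h2' s hs x hx
    have h6 : τ x = (τ' * (τ'⁻¹ * τ)) x := by rw [mul_inv_cancel_left]
    rw [h6, AlgEquiv.mul_apply, h5]
  · -- unramified at `2`
    intro P hP h2
    exact DI.FH.unrG (Kf k f) hfd hnor P hP h2 (hinr P hP h2)
  · -- complex conjugation
    intro c hc
    have hcc : c * c = 1 := by
      apply AlgEquiv.ext
      intro x
      rw [AlgEquiv.mul_apply, cj_cj hc]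
      rfl
    have hci : c⁻¹ = c := inv_eq_of_mul_eq_one_right hcc
    obtain ⟨c', hc', hp⟩ := hCj
    have he : c' = c := by
      apply AlgEquiv.ext
      intro x
      apply io_inj
      rw [hc', hc]
    rw [he] at hp
    refine ⟨hcc, fun τ hτ => ?_⟩
    have h1 := (hp k).1 τ hτ
    rw [hci] at h1
    exact h1

end Pool.Agent.DK.F
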