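import Pool.Agent.Lib.DK.IfaceF
import Pool.Agent.Lib.DI.F.Tay
import Pool.Agent.Lib.DI.F.Co
import Pool.Agent.Lib.DI.F.P01
import Pool.Agent.Lib.DI.F.Gam

/-!
# Theorem DK, part F, file T: the functions `T`, `W` near `0` for the curve `y² + xy = x³ + a₂ x² + a₄ x`

Helper79, after note F' of helper36. The general form of `DI/F/SpecT.lean`: the modules are adaptations of
`DI/F/TW.lean`, `DI/F/TWcomp.lean`, `DI/F/F3core.lean`. Every `def S_.. : Prop` is a statement, its complete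
proof is in the docstring. The module `DK/F/<Name>.lean` proves, in `namespace Pool.Agent.DK.F`,
`theorem t<Name> : S_<Name>`, with the statements named after (from ..) as hypotheses, in this order.
From DI (complete, without hypotheses; import the files): `DI.F.tTay : S_Tay`, `DI.F.tCo DI.F.tTay : S_Co`,
`DI.F.tP01 DI.F.tTay hCo : S_P01`, `DI.F.tGam hCo hP01 : S_Gam`.
-/

set_option autoImplicit false

open Filter Topology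

noncomputable section

namespace Pool.Agent.DK.F

open Pool.Agent.DK
open Pool.Agent.DI.F (tay Co Cf P0 P1)

/-- The lattice `Λ` belongs to the curve `y² + xy = x³ + a₂ x² + a₄ x`, with `x = ℘ - (1 + 4 a₂)/12`. -/
structure IsTW (Λ : PeriodPair) (a2 a4 : ℂ) : Prop where
  g2 : Λ.g₂ = ((1 + 4 * a2) ^ 2 - 48 * a4) / 12
  g3 : Λ.g₃ = (-(1 + 4 * a2) ^ 3 + 72 * (1 + 4 * a2) * a4) / 216

/-- `u³ (℘' - ℘ + (1 + 4 a₂)/12)`, extended to `0`; this is `2 u³ y`. -/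
def Dg (Λ : PeriodPair) (a2 u : ℂ) : ℂ := P1 Λ u - u * P0 Λ u + u ^ 3 * (1 + 4 * a2) / 12

/-- `T = -x/y`, `x = ℘ - (1 + 4 a₂)/12`, `y = (℘' - x)/2`, extended to `0`. -/
def Tg (Λ : PeriodPair) (a2 u : ℂ) : ℂ := -2 * u * (P0 Λ u - u ^ 2 * (1 + 4 * a2) / 12) / Dg Λ a2 u

/-- `W = -1/y`, extended to `0`. -/
def Wg (Λ : PeriodPair) (a2 u : ℂ) : ℂ := -2 * u ^ 3 / Dg Λ a2 u

/-- MODULE `TWg` (160 lines; no hypotheses). THE FUNCTIONS `T`, `W` NEAR `0`. Adapt `DI/F/TW.lean` (there `1 + 4 a₂ = -3`,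
`x = ℘ + 1/4`). PROOF. `Λ.g₂, Λ.g₃ ∈ k` (`IsTW`), so `Co k (P0 Λ)`, `Co k (P1 Λ)` (`S_P01`). `Dg Λ a2 0 = -2`, so `Co k` of `Tg`, `Wg`
by `S_Co`. For small `u ≠ 0` (not in the lattice) `P0 = u² ℘`, `P1 = u³ ℘'`, `Dg = 2 u³ y`, `y ≠ 0`, `Tg = -x/y`, `Wg = -1/y`.
`derivWeierstrassP_sq` (`℘'² = 4 ℘³ - g₂ ℘ - g₃`) with `℘ = x + (1 + 4 a₂)/12`, `℘' = 2 y + x` is
`(2y+x)² = 4x³ + (1 + 4 a₂) x² + 4 a₄ x`, i.e. `y² + xy = x³ + a₂ x² + a₄ x`; divide by `-y³`: the curve in `T`, `W` (at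
`u = 0` both sides are `0`). Derivative: `(T/W)' = x' = ℘' = 2y + x = (T - 2)/W` for small `u ≠ 0`; at `u = 0` all terms
vanish (`Wg 0 = 0`, `deriv Wg 0 = 0`, `Tg 0 = 0`), or by continuity. `t = -2 (P0 - u² (1+4a₂)/12)/Dg`, `w = -2/Dg`. -/
def S_TWg : Prop := ∀ (Λ : PeriodPair) (a2 a4 : ℂ), IsTW Λ a2 a4 →
  ∀ k : Subfield ℂ, a2 ∈ k → a4 ∈ k →
  Co k (Tg Λ a2) ∧ Co k (Wg Λ a2) ∧
  (∀ᶠ u in 𝓝 (0 : ℂ), Wg Λ a2 u = Tg Λ a2 u ^ 3 + Tg Λ a2 u * Wg Λ a2 u +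
    a2 * (Tg Λ a2 u ^ 2 * Wg Λ a2 u) + a4 * (Tg Λ a2 u * Wg Λ a2 u ^ 2)) ∧
  (∀ᶠ u in 𝓝 (0 : ℂ), deriv (Tg Λ a2) u * Wg Λ a2 u - Tg Λ a2 u * deriv (Wg Λ a2) u
    = (Tg Λ a2 u - 2) * Wg Λ a2 u) ∧
  (∃ t w : ℂ → ℂ, Co k t ∧ Co k w ∧ t 0 = 1 ∧ w 0 = 1 ∧
    (∀ u, Tg Λ a2 u = u * t u) ∧ ∀ u, Wg Λ a2 u = u ^ 3 * w u) ∧
  (∀ᶠ u in 𝓝[≠] (0 : ℂ), u ∉ Λ.lattice ∧ Wg Λ a2 u ≠ 0 ∧
    Λ.weierstrassP u - (1 + 4 * a2) / 12 = Tg Λ a2 u / Wg Λ a2 u)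

/-- MODULE `TWc` (130 lines; from `S_TWg`). TAYLOR SERIES OF `T(u(q))`, `W(u(q))`. Adapt `DI/F/TWcomp.lean`. PROOF. Coefficients in
`k` by `S_Co` (composition); the relations by `S_TWg` at `u(q)` (`u` is continuous at `0`) and `S_Tay` (chain rule for
`diff`); first coefficients by `Tg = u t(u)`, `Wg = u³ w(u)`. -/
def S_TWc : Prop := ∀ (Λ : PeriodPair) (a2 a4 : ℂ), IsTW Λ a2 a4 →
  ∀ k : Subfield ℂ, a2 ∈ k → a4 ∈ k → ∀ u : ℂ → ℂ, Co k u → u 0 = 0 →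
  Co k (fun q => Tg Λ a2 (u q)) ∧ Co k (fun q => Wg Λ a2 (u q)) ∧
  TWr a2 a4 (tay u) (tay fun q => Tg Λ a2 (u q)) (tay fun q => Wg Λ a2 (u q))

/-- MODULE `Sqr` (50 lines; no hypotheses). SQUARE ROOTS OF POWER SERIES. PROOF. `p₀ = s` or `p₀ = -s`, in `k`, `≠ 0`. Coefficient
`n ≥ 1` of `p²`: `2 p₀ p_n = (p²)_n - ∑_(0 < i < n) p_i p_(n-i)` (`PowerSeries.coeff_mul`, split the antidiagonal sum);
strong induction. -/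
def S_Sqr : Prop := ∀ (k : Subfield ℂ) (p : PowerSeries ℂ) (s : ℂ), s ∈ k → s ≠ 0 →
  PowerSeries.coeff 0 p ^ 2 = s ^ 2 → Cf k (p ^ 2) → Cf k p

/-- MODULE `F3c` (200 lines; from `S_TWg`, `S_TWc`, `S_Sqr`). FORMAL OUTPUT OF F3. Adapt `DI/F/F3core.lean` (`namespace
F3coreAux`: `coeff_zero_tay`, `near` may be imported). PROOF. `TA = tay (Tg ∘ uA)` etc. by `S_TWc`. `a = dslope uA 0`, `b = dslope uB 0`
(`uA q = q a(q)`, `a 0 = deriv uA 0 ≠ 0`: `S_Co` (6)). `S(q) = g1 (uA q) * g2 (uB q) * (a q)⁻¹ * (b q)⁻¹`, analytic at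
`0`; for small `q ≠ 0`: `S(q) = q² (g1 (uA q)/uA q) (g2 (uB q)/uB q)`. `ψ = tay S`: last claim by `S_Tay` (1). SQUARE: for small `q ≠ 0`
the two hypotheses at `uA q`, `uB q` (nonzero, small) and `℘ - (1+4a₂)/12 = T/W` give
(R) `S² ka² W_A W_B = q⁴ T_A (4 T_B + ka W_B)`; at `q = 0` both sides are `0`; `S_Tay` (products, congruence) gives the relation of
power series. COEFFICIENTS IN `k`: put `T_A = uA t(uA)`, `W_A = uA³ w(uA)`, .. into (R) and divide by `uA³ uB³`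
(`q⁴ uA uB/(uA³ uB³) = 1/(a² b²)`): for small `q ≠ 0`
`S² = t(uA) (4 t(uB) + ka uB² w(uB)) (ka² a² b² w(uA) w(uB))⁻¹ =: E(q)`, and `Co k E` by `S_Co` (the denominator at `0` is
`ka² a(0)² b(0)² ≠ 0`). Both sides are continuous at `0`, so they agree near `0` (also at `0`: limits are unique), `tay S ^ 2 = tay E`,
`Cf k (tay S ^ 2)`, and `E 0 = 4/(ka² a(0)² b(0)²) = s²`, `s = 2/(ka a(0) b(0)) ∈ k`, `≠ 0` (`a(0) = deriv uA 0` is the first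
Taylor coefficient of `uA`, in `k`). `S_Sqr`: `Cf k ψ`; `ψ ≠ 0` as `S(0)² = s² ≠ 0`. -/
def S_F3c : Prop := ∀ (Λ : PeriodPair) (a2 a4 ka : ℂ), IsTW Λ a2 a4 →
  ∀ k : Subfield ℂ, a2 ∈ k → a4 ∈ k → ka ∈ k → ka ≠ 0 →
  ∀ g1 g2 : ℂ → ℂ, AnalyticAt ℂ g1 0 → AnalyticAt ℂ g2 0 →
  (∀ᶠ u in 𝓝[≠] (0 : ℂ), ka * (g1 u / u) ^ 2 = Λ.weierstrassP u - (1 + 4 * a2) / 12) →
  (∀ᶠ u in 𝓝[≠] (0 : ℂ),
    ka * (g2 u / u) ^ 2 = 4 * (Λ.weierstrassP u - (1 + 4 * a2) / 12) + ka) →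
  ∀ uA uB : ℂ → ℂ, Co k uA → Co k uB → uA 0 = 0 → uB 0 = 0 → deriv uA 0 ≠ 0 → deriv uB 0 ≠ 0 →
  ∃ TA WA TB WB ψ : PowerSeries ℂ, Cf k TA ∧ Cf k WA ∧ Cf k TB ∧ Cf k WB ∧ Cf k ψ ∧
    TWr a2 a4 (tay uA) TA WA ∧ TWr a2 a4 (tay uB) TB WB ∧ ψ ≠ 0 ∧
    ψ ^ 2 * PowerSeries.C (ka ^ 2) * WA * WB =
      PowerSeries.X ^ 4 * TA * (4 * TB + PowerSeries.C ka * WB) ∧
    (∀ᶠ q in 𝓝[≠] (0 : ℂ), HasSum (fun n : ℕ => PowerSeries.coeff n ψ * q ^ n)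
      (q ^ 2 * (g1 (uA q) / uA q * (g2 (uB q) / uB q))))

end Pool.Agent.DK.F
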