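import Pool.Agent.Lib.DK.F.Base
import Pool.Agent.Lib.DK.F.SpecT
import Pool.Agent.Lib.DI.F.SpecF

/-!
# Theorem DK, part F: `S_Kf`, `S_F1`, `S_Lead`, `S_Psi`, `S_F` (statements of the modules with proofs)

Helper79, after note F' of helper36 (nid 4154). Every `def S_.. : Prop` is a statement with a complete proof in its
docstring. The module `DK/F/<Name>.lean` (first line `import Pool.Agent.Lib.DK.F.Spec`) proves, in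
`namespace Pool.Agent.DK.F`, `theorem t<Name> : S_<Name>` with the statements named after (from ..) as hypotheses, in
this order; all other lemmas `private` or with names starting with the module name.

Read `DK/Defs.lean`, `DK/Iface.lean`, `DK/IfaceC.lean` (`FM`, `FB`, `FR`, `IsLv`, `vN`, `cM`, `S_C..`), `DK/IfaceF.lean` (`Kf`, `IsSig`,
`AF`, `aF`, `uF`, `kO`, `a2O`, `a4O`, `TWr`). May be used freely (complete): `DK/Base.lean` (`toC_..`, `toO_..`, `lam_..`, `tor_..`,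
`cop_..`, `mem_GK_iff`, `GK_toO`), `DK/F/Base.lean` (`fb_..`, `fm_..`, `lv_..`, `ray_..`, `ray_norm`, `rep_spec`, `sum_mul`, `sum_cj`,
`exists_b1`, `den_cop`, `g0_inv`, `g0_conj`, `cjI_..`, `NI_..`, `cj_..`, `kf_mem`), `DK/O/All.lean` (parts 0 and L: `aO2`, .., `aL6`),
`Eb.psi_top`, `Eb.psi_mul` (`DK/E/SpecB.lean`), the lemmas on `VP`, `MP`, `UP` in `DI/Val.lean` (namespace `Pool.Agent.DI`: `VP.add`,
`VP.mul`, `MP.add`, `MP.mul_left`, `MP.one_not`, `UP.mul`, `UP.inv`, `UP.of_pow`, `UP.congr`, `VP.smul`, `MP.smul`, `UP.smul`, ..; with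
`have : P.IsPrime := hP.1.1`), and `DI/F/VPB.lean` (`red`, `RF`).
-/

set_option autoImplicit false
set_option linter.unusedSectionVars false

open scoped Pointwise Topology MatrixGroups
open Filter

noncomputable section

namespace Pool.Agent.DK.F

open Pool.Agent.MuZ Pool.Agent.FW NumberField IsDedekindDomain Pool.Agent.DK
open Pool.Agent.DI (io ofC io_inj exists_io io_ofC ofC_io VP MP UP TP ex sqr sqr_sq kap)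
open Pool.Agent.DI.F (tay Co Cf P0 P1)

/-- `c` is the complex conjugation. -/
def IsCj (c : Gal(Om/ℚ)) : Prop := ∀ x : Om, io (c x) = (starRingEnd ℂ) (io x)

theorem cj_wO {k : ℕ} [SqK k] {c : Gal(Om/ℚ)} (hc : IsCj c) : c (wO k) = 1 - wO k := by
  apply io_inj
  rw [hc, io_wO, map_sub, map_one, io_wO, conj_wC]

theorem cj_cj {c : Gal(Om/ℚ)} (hc : IsCj c) (x : Om) : c (c x) = x := by
  apply io_inj
  rw [hc, hc, Complex.conj_conj]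

theorem cj_toO {k : ℕ} [SqK k] {c : Gal(Om/ℚ)} (hc : IsCj c) (v : OO k) : c (toO v) = toO (cjO v) := by
  apply io_inj
  rw [hc, io_toO, io_toO, conj_toC]

theorem cj_KQ {k : ℕ} [SqK k] {c : Gal(Om/ℚ)} (hc : IsCj c) {x : Om} (hx : x ∈ KQ k) : c x ∈ KQ k := by
  have h1 : KQ k ≤ (KQ k).map (c : Om →ₐ[ℚ] Om) := by
    unfold KQ
    rw [IntermediateField.adjoin_le_iff]
    intro y hy
    rw [Set.mem_singleton_iff] at hy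
    subst hy
    refine ⟨1 - wO k, ?_, ?_⟩
    · exact IntermediateField.sub_mem _ (IntermediateField.one_mem _)
        (IntermediateField.mem_adjoin_simple_self ℚ (wO k))
    · change c (1 - wO k) = wO k
      rw [map_sub, map_one, cj_wO hc]
      ring
  obtain ⟨y, hy, hxy⟩ := h1 hx
  have h2 : c y = x := hxy
  rw [← h2, cj_cj hc]
  exact hy

/-- The definition of `Kf`. -/
theorem kf_mem {k f : ℕ} {x : Om} :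
    x ∈ Kf k f ↔ ∀ τ ∈ GK k, ∀ a : Ideal (OO k), Psi τ f a → Ray f a ⊤ → τ x = x := Iff.rfl

/-! ## A. The field `Kf` -/

/-- MODULE `Kf` (130 lines; from `S_E1`, `S_E4`, `S_E7`, `S_E8`, `Eb.S_Cj`, `FW.S_Ine`): `S_Kf`. `H = (Ray f · ⊤)`, `hg := Eb.hgRay aO3 aO7 hf` (`DK/E/GenH.lean`).
PROOF. (1) `S_E8` for `H`. (2) `KQ k ≤ Kf k f` (`S_E8`), `wO k ∈ KQ k`. (3) `S_E7`, choice. (4) `Eb.fixI_normal`. (5) infinite Galois theory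
(`InfiniteGalois.fixedField_fixingSubgroup`, as at the end of `DI/F/Gal.lean`). (6) `ρ = τ⁻¹ * τ' ∈ GK k`, `Psi ρ f t` (`S_E1` (1)); `τ`, `τ'` agree on
`Kf` iff `ρ` fixes it iff `Ray f t ⊤` (`S_E8`, last item). `Psi τ' f (a * t)` (`Eb.psi_mul`), so `Ray f (a * t) a'` (`S_E1` (2)). `Ray f t ⊤` iff
`Ray f (a * t) a` (`ray_mul`, `ray_cancel'`, `a * ⊤ = a`) iff `Ray f a a'`. (7) `ρ = τ'⁻¹ * τ`, `P' = τ'⁻¹ • P` (a nonzero prime above `2`). For `y : ZZ` with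
`(y : Om) ∈ Kf`: `MP P (τ y - τ' y)`, so `MP P' (ρ y - y)` (`MP.smul` for `τ'⁻¹`), `ρ • y - y ∈ P'` (`MP.coe_iff`). `FW.S_Ine` for `KQ k ≤ Kf k f`, `ρ`: there is
`s ∈ P'.inertia` equal to `ρ` on `Kf`, and `s` is trivial on `Kf` (`Eb.tInrG`, first part). (8) `DI.FH.unrG` (`DI/FH/Unr.lean`) with (1), (4) and
`Eb.tInrG`, first part. (9) `Eb.tF0` (`DK/E/F0.lean`) gives `φ` with `Fro P 2 φ` (`(2 : ZZ) ∈ P`); `φ (wO k) = wO k`: `φ (wO k)` is a root of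
`t² = t - 2k`, so `wO k` or `1 - wO k`, `MP P (φ w - w²)` (`VP.frob`), `MP P w`; if `φ w = 1 - w` then `MP P 1` (as in `DI/FH/FrK.lean`);
`mem_GK_iff`. (10) `Eb.S_Cj` gives `c'` with the property of `c`; `c = c'` (`io_inj`), `c * c = 1` (`cj_cj`), `c⁻¹ = c`. -/
abbrev M_Kf : Prop := S_Kf

/-! ## B. `S_F1` -/

/-- MODULE `KP` (170 lines; no hypotheses). THE FIELD `K` AT THE PRIMES ABOVE `𝔭`. Adapt `DI/F/KP.lean`. PROOF. `w = wO k`, `wb = 1 - w`,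
`w wb = 2 k`, `wb` is a unit at `P` (`MP P w`), so `w = 2 k wb⁻¹ ∈ 2 V_P` (`VP P (w / 2)`). (1) `v ∈ pp k` iff `v.re` is even (`aO4`). If `v.re` is
even, `MP P (v.re)`, `MP P (v.im * w)`. If odd then `v - 1 ∈ pp k`, so `toO v = 1` modulo `MP P`, and `MP P (toO v)` is false. (2) An element
of `KQ k` is `a + b w` with `a, b : ℚ` (power basis; `w² = w - 2k`), so `x = (A + B w)/(2 ^ j n)`, `A, B : ℤ`, `n` odd. Integers `e_i`: `e_0 = 0`,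
`e_(i+1) = e_i² + 2 k`; they are even and `VP P ((w - e_i)/2 ^ i)`: `w - e_(i+1) = w² - e_i² = (w - e_i)(w + e_i)`, `VP P ((w + e_i)/2)`. With `e = e_(j+1)`:
`x n = (A + B e)/2 ^ j + B (w - e)/2 ^ j`, and the last term is in `2 V_P`, so in `M_P`. `C = A + B e ∈ ℤ` with `VP P (C/2 ^ j)`, so `2 ^ j ∣ C` (otherwise
`C = 2 ^ i C'`, `C'` odd, `i < j`, and `2 ^ (j-i)/C'` is in `M_P`, the inverse of an element of `V_P`). So `x n = C''` modulo `M_P`, `C'' ∈ ℤ`, `n = 1`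
modulo `M_P`: `x = 0` or `1`. (3) `x = a + b w`, `a, b : ℚ`; `x - c x = b (2 w - 1)` (`cj_wO`), `(2 w - 1)² = 1 - 8 k = -Dk k`, an odd number; so `Dk b² ∈ V_P`,
`b ∈ V_P` (`VP.of_pow`-type), `a = x - b w ∈ V_P`. A rational number in `V_P` has an odd denominator (`MP P 2`): multiply by both. -/
def S_KP : Prop := ∀ (k : ℕ) [SqK k] (P : Ideal ZZ), AbP k P →
  (∀ v : OO k, MP P (toO v) ↔ v ∈ pp k) ∧
  (∀ x ∈ KQ k, VP P x → MP P x ∨ MP P (x - 1)) ∧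
  ∀ c : Gal(Om/ℚ), IsCj c → ∀ x ∈ KQ k, VP P x → VP P (c x) →
    ∃ n : ℕ, Odd n ∧ ∃ v : OO k, (n : Om) * x = toO v

/-- MODULE `Bet` (220 lines; from `S_E1`, `S_Kf`, `S_KP`). THE ELEMENT `β`. Adapt `DI/F/Beta.lean`; `DI.F.tLin : S_Lin` (`DI/F/Lin.lean`) and
`DI.F.tResFin DI.F.tFrac : S_ResFin` (`DI/F/ResFin.lean`, `DI/F/Frac.lean`) are complete. PROOF. `L = Kf k f`. (1) `A = {x ∈ L : VP P (τ x) for all τ ∈ GK k}`,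
a subring of `L` which contains the algebraic integers of `L` and is stable under `GK k` (`L` is stable: `S_Kf` (4)). For `b` in the subtype `R`:
`r_b(x) = red (σ b x)`, a ring homomorphism `A → RF`. INJECTIVE: if `r_b = r_b'` then `σ b = σ b'` on `L` (`S_Kf` (7)), `Ray f b b'` (`S_Kf` (6)),
`b = b'` (`IsRC.uni`). FINITE RANGE: `S_ResFin`, each coordinate. For `x ∈ A` the sum `y = ∑_(b ∈ R) σ b x` is fixed by `τ ∈ GK k`: `Psi τ f a` (`S_E1`),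
`τ σ_b = σ_(ab)` on `L` (`S_Kf` (6), `Eb.psi_mul`), and `sum_mul` for the class function `b ↦ σ b x` (`S_Kf` (6)); so `y ∈ KQ k` (`S_Kf` (5)), `VP P y`, and
`red y ∈ {0, 1}` (`S_KP` (2)). `S_Lin` with `k_b = red (κ b) ≠ 0` and the set `S` (`S ⊆ A`: `VP P (τ w)` iff `VP (τ⁻¹ • P) w`) gives `β₀ ∈ A` with
`¬ MP P (σ s β₀)` for some `s ∈ R`, and `MP P (∑ σ b (β₀ w))` for `w ∈ S`. (2) `ρ = (σ b1)⁻¹ * σ s ∈ GK k`, `β₁ = ρ β₀ ∈ A`: `UP P (σ b1 β₁)`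
(`σ b1 β₁ = σ s β₀`), and `∑_b σ_b(β₁ w) = ∑_b (σ_b ρ)(β₀ ρ⁻¹ w) = ∑_b σ_b(β₀ w')`, `w' = ρ⁻¹ w ∈ S` (`Psi ρ f t`, `σ_b ρ = σ_(tb)` on `L`, `sum_mul`).
(3) `j` with `VP P (2 ^ j * τ (c β₁))` for all `τ ∈ GK k` (finitely many values: `τ (c β₁) = σ_b (c β₁)` for a `b ∈ R`; `c β₁ ∈ L` by `S_Kf` (4)), and
`β = wb ^ (j+1) * β₁ + w`, `w = wO k`, `wb = 1 - w`, `w wb = 2 k`. For `τ ∈ GK k` (`τ w = w`): `τ β = wb ^ (j+1) τ β₁ + w ∈ V_P`; `UP P (σ b1 β)`;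
`c β = w ^ (j+1) c β₁ + wb` (`c wb = w`, `c w = wb`), `τ (c β) - 1 = w ^ (j+1) τ(c β₁) - w`, `w = 2 k/wb`, so
`w ^ (j+1) τ(c β₁) = w k ^ j (2 ^ j τ(c β₁))/wb ^ j ∈ M_P`. `∑ σ_b(β w') = wb ^ (j+1) ∑ σ_b(β₁ w') + w ∑ σ_b w' ∈ M_P` for `w' ∈ S`. -/
def S_Bet : Prop := ∀ (k : ℕ) [SqK k] (f : ℕ) (R : Finset (Ideal (OO k))), Odd f → 3 ≤ f → IsRC f R →
  ∀ P : Ideal ZZ, AbP k P → ∀ σ : Ideal (OO k) → Gal(Om/ℚ), IsSig k f σ → ∀ c : Gal(Om/ℚ), IsCj c →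
  ∀ (κ : Ideal (OO k) → Om) (S : Set Om), (∀ b ∈ R, UP P (κ b)) →
  (∀ w ∈ S, w ∈ Kf k f ∧ ∀ Q : Ideal ZZ, Npr Q → MP Q 2 → VP Q w) → (∀ w ∈ S, ∀ τ ∈ GK k, τ w ∈ S) →
  (∀ w ∈ S, MP P (∑ b ∈ R, κ b * σ b w)) →
  ∀ b1 ∈ R, ∃ β ∈ Kf k f, UP P (σ b1 β) ∧ (∀ τ ∈ GK k, VP P (τ β)) ∧
    (∀ τ ∈ GK k, MP P (τ (c β) - 1)) ∧ ∀ w ∈ S, MP P (∑ b ∈ R, σ b (β * w))

/-- MODULE `Mu` (60 lines; from `S_C6`, `S_C8`, `S_C9`). THE NUMBERS `etaM f m ⊤ r`. PROOF. `r.den` is prime to `NI m` (`lv_m`). (1) `kf_mem`: if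
`Psi τ f a`, `Ray f a ⊤` then `τ (etaM ⊤ r) = etaM (a * ⊤) r = etaM ⊤ r` (`S_C8`, `S_C6` (1), `fb_psi`). (2) `S_C9` for `b = ⊤` (`fb_top`, `Eb.pri_top`, `lv_top`) at the
prime `τ⁻¹ • Q` (`VP.smul`, `MP.smul`; `τ⁻¹ • Q` is a nonzero prime). (3) `S_C8` for `Psi (σ b) f b`, `b * ⊤ = b`. -/
def S_Mu : Prop := ∀ (k : ℕ) [SqK k] (f M : ℕ) (m : Ideal (OO k)) (R : Finset (Ideal (OO k))), FM f m →
  IsLv f m R M → ∀ r : ℚ, r.den.Coprime M →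
    etaM f m ⊤ r ∈ Kf k f ∧
    (∀ (Q : Ideal ZZ) (τ : Gal(Om/ℚ)), Npr Q → MP Q 2 → VP Q (τ (etaM f m ⊤ r))) ∧
    ∀ σ : Ideal (OO k) → Gal(Om/ℚ), IsSig k f σ → ∀ b : Ideal (OO k), FB f b →
      σ b (etaM f m ⊤ r) = etaM f m b r

/-- `μ = η_⊤(b/d) + η_⊤(-b/d) - 2 η_⊤(0)`. -/
def muT {k : ℕ} (f : ℕ) (m : Ideal (OO k)) (b d : ℤ) : Om :=
  etaM f m ⊤ (b / d) + etaM f m ⊤ (-(b / d)) - 2 * etaM f m ⊤ 0

/-- `λ = η_⊤(b/d) - η_⊤(0)`. -/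
def laT {k : ℕ} (f : ℕ) (m : Ideal (OO k)) (b d : ℤ) : Om := etaM f m ⊤ (b / d) - etaM f m ⊤ 0

/-- MODULE `Sm` (110 lines; from `S_E1`, `S_Kf`, `S_Mu`). THE SUMS WITH `χ`. PROOF. (1) `χ b ^ j = 1` with `j` odd (`IsChi.odd`), `UP.of_pow`. (2) `etaX r = ∑ χ b * etaM b r =
∑ χ b * σ b (etaM ⊤ r)` (`S_Mu` (3); `r = b/d`, `-(b/d)`, `0` have denominators prime to `M`: `den_cop`, also for `-b`), so the hypothesis is `MP P (∑ F b)`,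
`F b' = χ b' * σ b' (muT b d)`, a class function (`IsCl.ray`; `S_Kf` (6), `muT ∈ Kf`). Let `τ ∈ GK k`, `Psi τ f a` (`S_E1` (1)). `σ_b' τ = σ_(a b')` on `Kf` (`Eb.psi_mul`, `S_Kf` (6),
`ray_refl`, `mul_comm`), so `χ a * ∑ χ b' σ_b' (τ μ) = ∑ χ (a b') σ_(a b') μ = ∑ F (a * b') = ∑ F b'` (`IsChi.mul`, `sum_mul`), in `M_P`; `χ a` is a unit. -/
def S_Sm : Prop := ∀ (k : ℕ) [SqK k] (f M : ℕ) (m : Ideal (OO k)) (R : Finset (Ideal (OO k))), FM f m →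
  FR f R → IsRC f R → IsLv f m R M → ∀ χ : Ideal (OO k) → Om, IsChi f χ →
  ∀ P : Ideal ZZ, AbP k P → ∀ σ : Ideal (OO k) → Gal(Om/ℚ), IsSig k f σ →
    (∀ b : Ideal (OO k), FB f b → UP P (χ b)) ∧
    ∀ a b c d : ℤ, G0 M a b c d → (M : ℤ) ∣ d - 1 →
      MP P (etaX f m R χ (b / d) + etaX f m R χ (-(b / d)) - 2 * etaX f m R χ 0) →
      ∀ τ ∈ GK k, MP P (∑ b' ∈ R, χ b' * σ b' (τ (muT f m b d)))

/-- The period of `A`. -/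
def perA {k : ℕ} (f : ℕ) (m : Ideal (OO k)) (R : Finset (Ideal (OO k)))
    (σ : Ideal (OO k) → Gal(Om/ℚ)) (β : Om) (b d : ℤ) : Om := ∑ b' ∈ R, σ b' (β * laT f m b d)

/-- MODULE `Pa` (110 lines; from `S_E1`, `S_Kf`, `S_Mu`, `S_C2`). THE PERIODS OF `A`. PROOF. `laT ∈ Kf` (`S_Mu`, `den_cop`; `0` has denominator `1`). (1) `S_C2` for `b' ∈ R`
(`lv_one`, `fr_fb`): `ThM b' (g z) - ThM b' z = io (etaM b' (b/d) - etaM b' 0) = io (σ b' (laT b d))`; `AF .. 1 β = ∑ io (σ b' β) * ThM b'`. (2) `F b' = σ b' (β * laT)` is a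
class function (`S_Kf` (6)); `τ ∈ GK k`, `Psi τ f a`: `τ σ_b' = σ_(a b')` on `Kf`, `sum_mul`: `perA` is fixed by `GK k`, `S_Kf` (5). (3) every term is in `V_P` (`S_Mu` (2)). (4)
`c (σ b' (β * la)) = (c σ_b' c) (c β) * (c σ_b') la` (`c * c = 1`), `c σ_b' c ∈ GK k` (`S_Kf` (10)); `S_Mu` (2) with `τ = c * σ b'`. -/
def S_Pa : Prop := ∀ (k : ℕ) [SqK k] (f M : ℕ) (m : Ideal (OO k)) (R : Finset (Ideal (OO k))), FM f m →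
  FR f R → IsRC f R → IsLv f m R M → ∀ P : Ideal ZZ, AbP k P →
  ∀ σ : Ideal (OO k) → Gal(Om/ℚ), IsSig k f σ → ∀ c : Gal(Om/ℚ), IsCj c → ∀ β ∈ Kf k f,
  (∀ τ ∈ GK k, VP P (τ β)) → (∀ τ ∈ GK k, VP P (τ (c β))) →
  ∀ a b c' d : ℤ, G0 M a b c' d → (M : ℤ) ∣ d - 1 →
    (∀ z : ℂ, 0 < z.im → AF f m R σ 1 β ((a * z + b) / (c' * z + d)) =
      AF f m R σ 1 β z + io (perA f m R σ β b d)) ∧
    perA f m R σ β b d ∈ KQ k ∧ VP P (perA f m R σ β b d) ∧ VP P (c (perA f m R σ β b d))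

/-- MODULE `Pb` (130 lines; from `S_KP`, `S_Pa`). FINITELY MANY GENERATORS. Compare `DI/F/F1.lean`; `DI.F.tFg : S_Fg` (`DI/F/Fg.lean`) is complete. PROOF. `φ g = perA b d` for
`g = (a b; c d) ∈ SL(2, ℤ)`. For `g ∈ Gamma1 M` (`Gamma1_mem`: `M ∣ c'`, `M ∣ d - 1`, `det = 1`) `S_Pa` applies. ADDITIVE: for `g, h ∈ Gamma1 M` and `z = I`: `AF (g (h z)) - AF z = (AF (g (h z)) - AF (h z)) +
(AF (h z) - AF z)`, `g (h z) = (g h) z` (Möbius action: `UpperHalfPlane.specialLinearGroup_apply`-type lemma, `mul_smul`), `io_inj`. `S_Fg`: a finite set `T` of values of `φ` on `Gamma1 M`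
which generates all values. By `S_KP` (3) every `t ∈ T` has an odd `n_t` with `n_t t ∈ toO (O)`; `N0 = ∏ n_t`; `{x | ∃ v, N0 x = toO v}` is an additive subgroup and contains
`T`. Last claim: `AF .. N0 = N0 * AF .. 1`, `io (toO α) = toC α`. -/
def S_Pb : Prop := ∀ (k : ℕ) [SqK k] (f M : ℕ) (m : Ideal (OO k)) (R : Finset (Ideal (OO k))), FM f m →
  FR f R → IsRC f R → IsLv f m R M → ∀ P : Ideal ZZ, AbP k P →
  ∀ σ : Ideal (OO k) → Gal(Om/ℚ), IsSig k f σ → ∀ c : Gal(Om/ℚ), IsCj c → ∀ β ∈ Kf k f,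
  (∀ τ ∈ GK k, VP P (τ β)) → (∀ τ ∈ GK k, VP P (τ (c β))) → ∃ N0 : ℕ, Odd N0 ∧
  ∀ a b c' d : ℤ, G0 M a b c' d → (M : ℤ) ∣ d - 1 → ∃ α : OO k,
    (N0 : Om) * perA f m R σ β b d = toO α ∧
    ∀ z : ℂ, 0 < z.im → AF f m R σ N0 β ((a * z + b) / (c' * z + d)) = AF f m R σ N0 β z + toC α

/-- MODULE `CB` (80 lines; from `S_Kf`, `S_C6`). THE FUNCTION `B`. PROOF. `conj (N0 * ∑ io (σ b β) * ThM m b z') = N0 * ∑ io (c (σ b β)) * ThM (cjI m) (cjI b) z`, `z' = -conj z`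
(`IsCj`, `S_C6` (3), `-conj z' = z`). `c (σ b β) = (c * σ b * c) (c β)` (`cj_cj`), and `c * σ b * c` acts as `cjI b` (`S_Kf` (10)), so it is `σ (cjI b)` on `Kf` (`S_Kf` (6)), `c β ∈ Kf`
(`S_Kf` (4)). So the sum is `∑_(b ∈ R) F (cjI b)`, `F b = io (σ b (c β)) * ThM (cjI m) b z`, a class function (`S_Kf` (6), `S_C6` (1) with `fm_cj`); `sum_cj`. -/
def S_CB : Prop := ∀ (k : ℕ) [SqK k] (f : ℕ) (m : Ideal (OO k)) (R : Finset (Ideal (OO k))), FM f m →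
  IsRC f R → ∀ σ : Ideal (OO k) → Gal(Om/ℚ), IsSig k f σ → ∀ c : Gal(Om/ℚ), IsCj c →
  ∀ β ∈ Kf k f, ∀ (N0 : ℕ) (z : ℂ),
    (starRingEnd ℂ) (AF f m R σ N0 β (-(starRingEnd ℂ) z)) = AF f (cjI m) R σ N0 (c β) z

/-- MODULE `F1` (130 lines; from `S_Kf`, `S_KP`, `S_Bet`, `S_Mu`, `S_Sm`, `S_Pb`, `S_CB`): `S_F1`. PROOF. `c` from `Pool.Agent.DI.tA1` (`DI/B/A12.lean`, complete). `b1` from `exists_b1` (`fm_fb`). `S` = the set of all `τ (muT f m b d)`,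
`τ ∈ GK k`, `g = (a b; c d)`, `G0 M a b c d`, `M ∣ d - 1`. `S_Bet` with `κ = χ` (`S_Sm` (1)): `S ⊆ Kf` (`S_Mu` (1), `S_Kf` (4)), integral at all primes above `2` (`S_Mu` (2), `τ (x + y - 2 z)`), stable
under `GK k`, and the sums are in `M_P` (`S_Sm` (2) and the hypothesis). So there is `β`; `β' = c β ∈ Kf`. `UP P (τ β')`: `UP.congr` and `MP P (τ (c β) - 1)`. Every `b1' ∈ R` with `Ray f (m * b1') ⊤`
is `b1`. `S_Pb` gives `N0`, and for `g` the element `α`, for `g^i = (a, -b; -c, d)` (`g0_inv`) the element `αi`. PARITY: `laT b d + laT (-b) d = muT b d` (`((-b : ℤ) : ℚ)/d = -(b/d)`), so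
`toO (α + αi) = N0 * ∑ σ b' (β * muT b d) ∈ M_P` (`S_Bet`, `muT ∈ S` with `τ = 1`), so `α + αi ∈ pp k` (`S_KP` (1)), `α ∈ pp k ↔ αi ∈ pp k`. `α' = cjO αi`: `α' ∈ ppb k = cjI (pp k)` iff
`cjO α' = αi ∈ pp k` (`aO3`, `aO4`). `B = AF (cjI m) R σ N0 β'`: by `S_CB` `B z = conj (A (-conj z))`, so `B (g z) = conj (A (-conj (g z))) = conj (A (g^i (-conj z)))` (`g0_conj`)
`= conj (A (-conj z) + toC αi) = B z + toC (cjO αi)` (`conj_toC`; `-conj z` is in the upper half plane). -/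
abbrev M_F1 : Prop := S_F1

/-! ## C. `S_Lead` -/

/-- MODULE `Hm` (110 lines; from `S_B12`, `S_C7`). HOMOGENEITY. PROOF. `FB f (sp α * b)`: `α` is prime to `f` (`cop_congr`, `cop_one`; `aO6` (4)). First claim: `S_B12` (3). `m * (sp α * b) = sp α * (m * b)`.
By `S_C7` (2): `v ∈ vN f (sp α * (m * b)) n` iff `v - 1/f ∈ Lam (sp α * (m * b))` and `f² NI(..) ‖v‖² = n` iff `α v ∈ vN f (m * b) n`: `lam_sp`, `α (v - 1/f) = (α v - 1/f) - (α - 1)/f`, `(α - 1)/f ∈ toC (O) ⊆ Lam (m * b)`;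
`NI (sp α * a) = Nm α * NI a` (`aO2`), `Nm_norm`. The same for the condition `v - 1/f ∈ Lam b`. So `v ↦ toC α * v` is a bijection of the finite sets (`Finset.sum_bij` or `Finset.sum_nbij'`) and
`v⁻¹ = α (α v)⁻¹`. -/
def S_Hm : Prop := ∀ (k : ℕ) [SqK k] (f : ℕ) (m b : Ideal (OO k)), FM f m → FB f b →
  ∀ α : OO k, α ≠ 0 → (f : OO k) ∣ α - 1 →
    FB f (sp α * b) ∧ fr f (sp α * b) = toC α * fr f b ∧
    ∀ n : ℕ, cM f m (sp α * b) n = toC α * cM f m b n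

/-- MODULE `Al` (60 lines; from `S_C7`). THE COEFFICIENTS `cM` ARE IN `K`. PROOF. `v ∈ vN f (m * b) n`: `v = 1/f + (v - 1/f)`, so `Tor k v` (`tor_lam`, `tor_add`; `1/f = toC 1/f`), `v = toC u/N = io (toO u/N)`. So
`cM f m b n = io x` with `x ∈ KQ k` (`toO u ∈ KQ k`; sums, products, inverses), and `ofC (io x) = x`. -/
def S_Al : Prop := ∀ (k : ℕ) [SqK k] (f : ℕ) (m b : Ideal (OO k)), FM f m → FB f b → ∀ n : ℕ,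
  ofC (cM f m b n) ∈ KQ k ∧ io (ofC (cM f m b n)) = cM f m b n

/-- MODULE `Cls` (60 lines; from `S_R5`, `S_Hm`, `S_Al`). CLASS FUNCTIONS. PROOF. `ray_norm`: `sp α * b = sp α' * b'`. By `S_Hm` `α fr b = α' fr b'`, `α cM b n = α' cM b' n`, so `cM b n/fr b = cM b' n/fr b'`; apply `io`
(`S_R5`: `io (rO f b ⊤) = fr ⊤/fr b`, `fr ≠ 0`; `S_Al`). -/
def S_Cls : Prop := ∀ (k : ℕ) [SqK k] (f : ℕ) (m b b' : Ideal (OO k)), FM f m → FB f b → FB f b' →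
  Ray f b b' → ∀ n : ℕ, rO f b ⊤ * ofC (cM f m b n) = rO f b' ⊤ * ofC (cM f m b' n)

/-- MODULE `CoL` (80 lines; from `S_Kf`, `S_E10`, `S_R5`, `S_Hm`, `S_Al`). THE COEFFICIENTS ARE IN `Kf`. PROOF. `kf_mem`: `τ ∈ GK k`, `Psi τ f a`, `Ray f a ⊤`. `σ b β ∈ Kf` (`S_Kf` (4)). `KQ k ≤ Kf k f`: elements of `KQ k` are fixed by
`GK k`. `τ (rO f b ⊤) = rO f (a * b) (a * ⊤)` (`S_E10` with `N = f`). `ray_norm`: `sp α * a = sp α' * ⊤`, so `sp α * (a * b) = sp α' * b` and by `S_Hm` (2) `α fr (a b) = α' fr b`, `α fr a = α' fr ⊤` (`b = ⊤`);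
so `fr a/fr (a b) = fr ⊤/fr b` (`fr ≠ 0`: `S_R5`), `rO f (a * b) a = rO f b ⊤` (the definition of `rO`). -/
def S_CoL : Prop := ∀ (k : ℕ) [SqK k] (f : ℕ) (m : Ideal (OO k)) (R : Finset (Ideal (OO k))), FM f m →
  IsRC f R → ∀ σ : Ideal (OO k) → Gal(Om/ℚ), IsSig k f σ → ∀ (N0 : ℕ) (β : Om), β ∈ Kf k f →
    (∀ b : Ideal (OO k), FB f b → rO f b ⊤ ∈ Kf k f) ∧ ∀ n : ℕ, aF f m R σ N0 β n ∈ Kf k f

/-- MODULE `Has` (60 lines; from `S_R5`, `S_C7`, `S_Al`). THE `q`-EXPANSION. PROOF. `fr ⊤ * AF z = N0 ∑ io (σ b β) (fr ⊤) ThM b z`; `S_C7` (5) times `N0 io (σ b β) (fr ⊤)` (`HasSum.mul_left`), `ex (n * z) = ex z ^ n` (`Complex.exp_nat_mul`),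
finite sum over `R` (`hasSum_sum`); `io (rO f b ⊤) = fr ⊤/fr b` (`S_R5`), `S_Al`. Second claim: `vN f (m * b) 0 = ∅` (`S_C7` (3)), `ofC 0 = 0` (`ofC_io`). -/
def S_Has : Prop := ∀ (k : ℕ) [SqK k] (f : ℕ) (m : Ideal (OO k)) (R : Finset (Ideal (OO k))), FM f m →
  IsRC f R → ∀ (σ : Ideal (OO k) → Gal(Om/ℚ)) (N0 : ℕ) (β : Om),
    (∀ z : ℂ, 0 < z.im → HasSum (fun n : ℕ => io (aF f m R σ N0 β n) * ex z ^ n)
      (fr f (⊤ : Ideal (OO k)) * AF f m R σ N0 β z)) ∧ aF f m R σ N0 β 0 = 0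

/-- MODULE `V1a` (90 lines; from `S_C7`). THE SET `vN f c 1`, `c = m b`. PROOF. `n_c = NI c`. Let `v ∈ vN f c 1`, `u = f v`: `u - 1 ∈ f Lam c`, `n_c ‖u‖² = 1` (`S_C7` (2)). CLAIM: if `z ∈ Lam c` then `n_c conj z = toC y`, `y ∈ c`:
`c * cjI c = sp n_c` (`aO3`), so `conj z ∈ Lam (cjI c)` (`aL2` (7)) and `n_c conj z` is in the ideal: write `n_c = ∑ p_i q_i`, `p_i ∈ cjI c`, `q_i ∈ c` (`Submodule.mul_induction_on` for `(n_c : OO k) ∈ cjI c * c`): `n_c conj z = ∑ (p_i conj z) q_i`,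
`p_i conj z ∈ toC (O)`. `u ∈ Lam c` (`1 ∈ Lam c`), so `n_c conj u = toC x`, `x ∈ c`, and `toC x * u = n_c ‖u‖² = 1`. `Nm x = ‖toC x‖² = n_c² ‖u‖² = n_c`. `sp x ≤ c`, `NI (sp x) = Nm x = NI c`, so `sp x = c` (`sp x = c * c'`, `NI c' = 1`,
`c' = ⊤`). `x - 1`: `(u - 1)/f ∈ Lam c`, `x ∈ c`: `toC x * (u - 1)/f = (1 - toC x)/f ∈ toC (O)`, so `f ∣ x - 1`. -/
def S_V1a : Prop := ∀ (k : ℕ) [SqK k] (f : ℕ) (m b : Ideal (OO k)), FM f m → FB f b →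
  ∀ v ∈ vN f (m * b) 1, ∃ x : OO k, x ≠ 0 ∧ m * b = sp x ∧ (f : OO k) ∣ x - 1 ∧ v = 1 / (f * toC x)

/-- MODULE `V1b` (130 lines; from `S_C7`, `S_V1a`). THE SET `vN f c 1`, SECOND PART. PROOF. (1) `S_V1a`: `m * b = sp x`, `sp 1 * (m * b) = sp x * ⊤`, `ray_of`. (2) `ray_norm`: `sp α * (m * b) = sp α' * ⊤ = sp α'`, so `α' = α x`, `x ∈ m * b` (`Ideal.mem_span_singleton_mul`), `x ≠ 0`,
`sp α * (m * b) = sp α * sp x`, `m * b = sp x` (`sp_cancel`); `f ∣ x - 1` from `α x = 1`, `α = 1` modulo `f`. `v = 1/(f x)` is in `vN f (sp x) 1` (`S_C7` (2)): `v - 1/f = (1 - x)/(f x)`, `lam_top`/`lam_sp` (`sp x = sp x * ⊤`), `f² Nm x ‖v‖² = 1`. It is the only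
element: by `S_V1a` another one is `1/(f x')` with `sp x = sp x'`, so `x' = y x` with `Nm y = 1` (`Nm x' = Nm x`, or units), `4 Nm y = (2 re + im)² + (8k-1) im²` (`four_Nm`), so `y = ± 1`, and `f ∣ x' - x`, `f ∣ x - 1` exclude `y = -1` (`f ∣ 2`, `f ≥ 3` odd: `nat_dvd_iff`).
(3) if `v - 1/f ∈ Lam b` then for `y ∈ b`: `y (1 - x)/(f x) ∈ toC (O)`, `y (1 - x) = f x s`, `y = x (y + f s) ∈ sp x = m * b`; so `b ≤ m * b`, `b = m * b` (`Ideal.mul_le_left`), `⊤ * b = m * b`, `m = ⊤` (`mul_cancel`). -/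
def S_V1b : Prop := ∀ (k : ℕ) [SqK k] (f : ℕ) (m b : Ideal (OO k)), FM f m → FB f b →
  (vN f (m * b) 1 ≠ ∅ → Ray f (m * b) ⊤) ∧
  (Ray f (m * b) ⊤ → ∃ x : OO k, x ≠ 0 ∧ m * b = sp x ∧ (f : OO k) ∣ x - 1 ∧
    vN f (m * b) 1 = {1 / (f * toC x)} ∧ (m ≠ ⊤ → 1 / (f * toC x) - 1 / f ∉ Lam b))

/-- MODULE `Lead` (120 lines; from `S_R5`, `S_D9`, `S_KP`, `S_CoL`, `S_Has`, `S_V1b`): `S_Lead`. PROOF. All but the last claim: `S_CoL`, `S_Has`. Last claim: `b1` from `exists_b1`. For `b ∈ R`, `b ≠ b1`: not `Ray f (m * b) ⊤`, so `vN f (m * b) 1 = ∅` (`S_V1b` (1)),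
`cM f m b 1 = 0`, `ofC 0 = 0`. `b = b1`: `cM f m b1 1 = (1/(f x))⁻¹ = f toC x = io (f toO x)` (`S_V1b` (2), `m ≠ ⊤`), so `aF 1 = N0 * (σ b1 β * rO f b1 ⊤ * (f * toO x))` (`Finset.sum_eq_single`). UNITS at `P` (`MP P 2`): `N0`, `f` odd; `σ b1 β` by hypothesis;
`toO x`: otherwise `MP P (toO x)` (it is integral), `x ∈ pp k` (`S_KP` (1)), `m * b1 = sp x ≤ pp k`, so `m ≤ pp k` or `b1 ≤ pp k` (`pp k` is prime, `aO4`), against `PrI m 2`, `PrI b1 2` (`2 ∈ pp k`, `pp k ≠ ⊤`). `rO f b1 ⊤ * rO f ⊤ b1 = 1` (apply `io`, `S_R5`) and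
`rO f ⊤ b1` is `±1` modulo `2` (`S_D9` (1) with `a = b1`, `b = ⊤`, `b1 * ⊤ = b1`, `¬ b1 ≤ pp k`), a unit (`TP P 2 y` means `y = 2 y'`, `VP P y'`); `UP.inv`. -/
abbrev M_Lead : Prop := S_Lead

/-! ## D. `S_Psi` -/

/-- MODULE `LaF` (150 lines; from `S_R1`, `S_R5`, `S_Kap`, `S_B1`, `S_B2`). THE LATTICE `φ O`, `φ = fr f ⊤`. Compare `DI/F/Lam.lean` (`LamAux.LL`, `eqv`, `wp`, `wpd`: general period pair `LP ⊤` instead of `LO`). PROOF. `φ ≠ 0` (`S_R5` with `m = ⊤`, `b = b' = ⊤`). `Λ = φ * LP ⊤`: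
`Λ.weierstrassP (φ z) = wpC ⊤ z/φ²`, `Λ.derivWeierstrassP (φ z) = wdC ⊤ z/φ³`, `φ z ∈ Λ.lattice` iff `z ∈ (LP ⊤).lattice` iff `z ∈ Lam ⊤` (`aL1`). `ka = s2/φ² = io (kO f ⊤)` (`S_Kap`), `𝒟 = DC ⊤ = io (dO ⊤)` (`S_R1`).
`b2 := 1 + 4 a2 = ka + 16 𝒟 ka`. `wpC ⊤ (ptS ⊤) = s2 (1 + 16 𝒟)/12`: `S_B1` at `z = 0`: `XC 0 = -(1 + 16 𝒟)/12`, `wpC 0 = s2 XC 0 + wpC (ptS)`, `wpC 0 = 0` (`PeriodPair.weierstrassP_zero`). So
`ka XC z = (wpC z - wpC (ptS))/φ² = Λ.weierstrassP (φ z) - b2/12` for all `z`. `g₂`, `g₃`: for `z ∉ Lam ⊤`, `x = ka XC z`, `p = x + b2/12`, `w = wdC z/φ³`: `w² = x (x + 4 𝒟 ka)(4 x + ka) = 4 x³ + b2 x² + 4 a4 x` (`S_B2`, `a4 = 𝒟 ka²`) `= 4 p³ - G2 p - G3` with `G2`, `G3` the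
values of `IsTW`, and `w² = 4 p³ - Λ.g₂ p - Λ.g₃` (`derivWeierstrassP_sq`); so `(Λ.g₂ - G2) p + (Λ.g₃ - G3) = 0` for `p = ℘(φ ptS)`, `℘(φ ptT)`, which are different (`XC ptS = 0`, `XC ptT = -1/4`, `aL6`: not in `Lam ⊤`). -/
def S_LaF : Prop := ∀ (k : ℕ) [SqK k] (f : ℕ), Odd f → 3 ≤ f → fr f (⊤ : Ideal (OO k)) ≠ 0 ∧
  ∃ Λ : PeriodPair, IsTW Λ (io (a2O f (⊤ : Ideal (OO k)))) (io (a4O f (⊤ : Ideal (OO k)))) ∧
    (∀ z : ℂ, io (kO f (⊤ : Ideal (OO k))) * XC (⊤ : Ideal (OO k)) z =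
      Λ.weierstrassP (fr f (⊤ : Ideal (OO k)) * z) - (1 + 4 * io (a2O f (⊤ : Ideal (OO k)))) / 12) ∧
    ∀ z : ℂ, z ∈ Lam (⊤ : Ideal (OO k)) ↔ fr f (⊤ : Ideal (OO k)) * z ∈ Λ.lattice

theorem exists_s2r (k : ℕ) [SqK k] : ∃ s : ℂ, s ^ 2 = s2 (⊤ : Ideal (OO k)) :=
  IsAlgClosed.exists_pow_nat_eq _ two_pos

/-- A square root of `s2 ⊤`. -/
def s2r (k : ℕ) [SqK k] : ℂ := (exists_s2r k).choose

theorem s2r_sq (k : ℕ) [SqK k] : s2r k ^ 2 = s2 (⊤ : Ideal (OO k)) := (exists_s2r k).choose_spec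

/-- `e = ℘(T)` for the lattice `𝔭̄⁻¹`. -/
def eG (k : ℕ) : ℂ := wpC (ppb k) (ptT (ppb k))

/-- `e = ℘(S)` for the lattice `𝔭⁻¹`. -/
def eH (k : ℕ) : ℂ := wpC (pp k) (ptS (pp k))

/-- The square root of `X(z)`: `℘'(z/2)/(4 (℘(z/2) - e) s)`, lattice `𝔭̄⁻¹`. -/
def Gt (k : ℕ) [SqK k] (z : ℂ) : ℂ := DI.F.GG (LP (ppb k)) 2 (eG k) z / s2r k

/-- The square root of `4 X(z) + 1`: `℘'(z/2)/(2 (℘(z/2) - e) s)`, lattice `𝔭⁻¹`. -/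
def Ht (k : ℕ) [SqK k] (z : ℂ) : ℂ := 2 * DI.F.GG (LP (pp k)) 2 (eH k) z / s2r k

/-- MODULE `GHf` (70 lines; from `S_B1`, `S_B5`, `S_B6`). THE FUNCTIONS `Gt`, `Ht` IN TERMS OF `X`. PROOF. `GG Λ p e u = ℘'(u/p)/(2 p (℘(u/p) - e))`, `p = 2`, `v = z/2`. By `S_B1`: `℘(v) - ℘(ptT) = s2 (X(v) - X(ptT)) = s2 (4 X(v) + 1)/4` for
the lattice `Lam (ppb k)`, `℘(v) - ℘(ptS) = s2 X(v)` for `Lam (pp k)` (`X(ptT) = -1/4`, `X(ptS) = 0`). `S_B5` for `b = ⊤` (`ppb k * ⊤ = ppb k`), `S_B6` for `b = ⊤`: the values of `s2`. Meromorphic: `DI.F.S_Gam` (4). -/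
def S_GHf : Prop := ∀ (k : ℕ) [SqK k],
  (∀ z : ℂ, Gt k z = wdC (ppb k) (z / 2) / (s2 (ppb k) * (4 * XC (ppb k) (z / 2) + 1) * s2r k)) ∧
  (∀ z : ℂ, Ht k z = wdC (pp k) (z / 2) / (2 * s2 (pp k) * XC (pp k) (z / 2) * s2r k)) ∧
  s2r k ≠ 0 ∧ s2 (ppb k) = (1 + 4 * ThC (⊤ : Ideal (OO k))) ^ 2 * s2r k ^ 2 ∧
  (1 + 4 * ThC (pp k)) ^ 2 * s2 (pp k) = 4 * s2r k ^ 2 ∧ Meromorphic (Gt k) ∧ Meromorphic (Ht k)

/-- MODULE `GHs` (120 lines; from `S_B1`, `S_B2`, `S_B5`, `S_B6`, `S_B7`, `S_GHf`). THE SQUARES. `z ∉ Lam ⊤ = O`, `v = z/2`, `s = s2r k`, `θ = ThC ⊤`, `θ₁ = ThC (pp k)`. PROOF. FIRST: `v ∉ Lam (pp k * ppb k) = Lam (sp 2)` (`aO4`, `lam_sp`, `lam_top`), so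
`v ∉ Lam (ppb k)` (`lam_mono`). `X₁ = XC (ppb k) v`, `𝒟₁ = DC (ppb k)`. `S_B6` for `b = ppb k` and `S_B7` (`XC (sp 2 * ⊤) v = XC ⊤ (2 v)`, `ThC (sp 2 * ⊤) = θ`): `X(z) (4 X₁ + 1) = (1 + 4θ)² X₁ (X₁ + 4 𝒟₁)`. `4 X₁ + 1 ≠ 0`: otherwise
`X₁ = -1/4 = X(ptT)`, so `v ± ptT ∈ Lam (ppb k)` (`S_B1` (6)), `v ∈ Lam (pp k * ppb k)` (`aL6`). `wdC² = s2(ppb)³ X₁ (X₁ + 4 𝒟₁)(4 X₁ + 1)` (`S_B2`). So `Gt² = s2(ppb) X₁ (X₁ + 4 𝒟₁)/((4 X₁ + 1) s²) = s2(ppb) X(z)/((1 + 4θ)² s²) = X(z)`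
(`1 + 4 θ ≠ 0`: `S_B5`). SECOND: `v ∉ Lam (ppb k * pp k)`, `X₂ = XC (pp k) v`, `DC (pp k) = θ₁²` (`S_B1`). `S_B5` for `b = pp k`: `X(z) (1 + 4 θ₁)² X₂ = (X₂ - θ₁)²`; `X₂ ≠ 0` as before (`X(ptS) = 0`). `4 (X₂ - θ₁)² + (1 + 4θ₁)² X₂ = (4 X₂ + 1)(X₂ + 4 θ₁²)`, so
`(4 X(z) + 1)(1 + 4θ₁)² X₂ = (4 X₂ + 1)(X₂ + 4θ₁²)`, `wdC² = s2(pp)³ X₂ (X₂ + 4θ₁²)(4 X₂ + 1)`, `Ht² = s2(pp) (1 + 4θ₁)² (4 X(z) + 1)/(4 s²) = 4 X(z) + 1`. -/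
def S_GHs : Prop := ∀ (k : ℕ) [SqK k] (z : ℂ), z ∉ Lam (⊤ : Ideal (OO k)) →
  Gt k z ^ 2 = XC (⊤ : Ideal (OO k)) z ∧ Ht k z ^ 2 = 4 * XC (⊤ : Ideal (OO k)) z + 1

/-- MODULE `Tra` (120 lines; from `S_B1`, `S_B2`, `S_B4`). TRANSLATION BY THE POINTS OF ORDER `2`, for every lattice `Lam b` and every `v ∈ ℂ`. PROOF. FIRST: `T = ptT b`. If `v ∈ Lam b` or `v + T ∈ Lam b` then `2 v ∈ Lam b` and `2 (v + T) ∈ Lam b` (`aL6`), and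
`wdC b v = 0 = wdC b (v + T)` (`S_B1` (7), (9)): both sides are `0`. Otherwise the same holds for all `y` near `v` (the complement of `Lam b` is open: `aL1`, the lattice is closed, or: discrete, `PeriodPair.compl_lattice_..`), and by `S_B4` `4 X(y) + 1 ≠ 0`,
`X(y + T) (4 X(y) + 1) = -(X(y) + 4𝒟)`, so `(4 X(y + T) + 1)(4 X(y) + 1) = 1 - 16 𝒟`. Differentiate at `v` (`S_B2`: `X' = wdC/s2`, at `v` and at `v + T`): `wdC(v + T) (4 X(v) + 1) + (4 X(v + T) + 1) wdC(v) = 0`, and divide by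
`(4 X(v) + 1)(4 X(v + T) + 1) = 1 - 16 𝒟 ≠ 0`. SECOND: `S = ptS b`, in the same way from `X(y + S) X(y) = 𝒟`, `𝒟 ≠ 0`. -/
def S_Tra : Prop := ∀ (k : ℕ) [SqK k] (b : Ideal (OO k)), b ≠ ⊥ → ∀ v : ℂ,
  wdC b (v + ptT b) / (4 * XC b (v + ptT b) + 1) = -(wdC b v / (4 * XC b v + 1)) ∧
  wdC b (v + ptS b) / XC b (v + ptS b) = -(wdC b v / XC b v)

/-- MODULE `GHi` (90 lines; from `S_B1`, `S_GHf`, `S_Tra`). PERIODS OF `Gt`, `Ht`. PROOF. `(z + toC α)/2 = v + toC α/2`, `v = z/2`. (1) `α ∈ pp k`: `toC α/2 ∈ Lam (ppb k)`: for `y ∈ ppb k`, `y α ∈ ppb k * pp k = sp 2` (`aO4`, `Ideal.mul_mem_mul`). Periods: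
`S_B1`. (2) `α ∉ pp k`: `toC α/2 ∈ Lam (pp k * ppb k) = Lam (sp 2)`, and not in `Lam (ppb k)`: otherwise for `y = 1 - wI k ∈ ppb k`: `y α ∈ sp 2 ≤ pp k`, so `y ∈ pp k` or `α ∈ pp k` (prime), `y.re = 1` is odd (`aO4`). So `toC α/2 - ptT (ppb k) ∈ Lam (ppb k)` (`aL6` for `b = ppb k`),
periods and `S_Tra` (1) for `b = ppb k`. (3), (4): the same with `pp`, `ppb` exchanged (`ptS (pp k)`, `y = wI k ∈ pp k`, `wI k ∉ ppb k`: `re + im = 1`), `S_Tra` (2) for `b = pp k`. -/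
def S_GHi : Prop := ∀ (k : ℕ) [SqK k] (z : ℂ) (α : OO k),
  (α ∈ pp k → Gt k (z + toC α) = Gt k z) ∧ (α ∉ pp k → Gt k (z + toC α) = -Gt k z) ∧
  (α ∈ ppb k → Ht k (z + toC α) = Ht k z) ∧ (α ∉ ppb k → Ht k (z + toC α) = -Ht k z)

/-- MODULE `Cus` (110 lines; from `S_C3`). THE CUSPS. Adapt `DI/F/PsiCusp.lean`. PROOF. For `b' ∈ R` (`lv_one`, `fr_fb`) `S_C3`: with `t = ex (z/M)`, `ex ((n + 1) * z / M) = t ^ (n+1)`: `ThM f m b' (g z) = c0 + ∑ cf n * t ^ (n + 1)`, a power series with coefficients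
`O(n³)`, convergent for `‖t‖ < 1`, analytic at `0`; the finite sum over `R`. -/
def S_Cus : Prop := ∀ (k : ℕ) [SqK k] (f M : ℕ) (m : Ideal (OO k)) (R : Finset (Ideal (OO k))), FM f m →
  FR f R → IsLv f m R M → ∀ (σ : Ideal (OO k) → Gal(Om/ℚ)) (N0 : ℕ) (β : Om) (a b c d : ℤ),
  a * d - b * c = 1 → ∃ al : ℂ → ℂ, AnalyticAt ℂ al 0 ∧ ∀ z : ℂ, 0 < z.im →
    AF f m R σ N0 β ((a * z + b) / (c * z + d)) = al (ex (z / M))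

/-- MODULE `uA` (80 lines; from `S_Lead`). THE FUNCTION `u = φ A` OF `q`. Adapt `uA_prop` in `DI/F/PsiExp.lean` (`DI.F.PsiExpAux.exists_ex`, `norm_ex` may be imported). PROOF. `uA q = ∑' io (aF n) q ^ n`, convergent for `‖q‖ < 1` (`S_Lead`; every `q`, `0 < ‖q‖ < 1`, is `ex z`),
`DI.F.tTay` (2): analytic at `0`, `tay uA = map io (uF ..)`; `aF 0 = 0`; `deriv uA 0` is the first coefficient `io (aF 1) ≠ 0`. -/
def S_uA : Prop := ∀ (k : ℕ) [SqK k] (f : ℕ) (m : Ideal (OO k)) (R : Finset (Ideal (OO k))), FM f m →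
  FR f R → IsRC f R → ∀ σ : Ideal (OO k) → Gal(Om/ℚ), IsSig k f σ → ∀ (N0 : ℕ) (β : Om), β ∈ Kf k f →
  aF f m R σ N0 β 1 ≠ 0 → ∃ uA : ℂ → ℂ, Co ((Kf k f).toSubfield.map io) uA ∧ uA 0 = 0 ∧
    deriv uA 0 ≠ 0 ∧ tay uA = PowerSeries.map io (uF f m R σ N0 β) ∧
    ∀ z : ℂ, 0 < z.im → uA (ex z) = fr f (⊤ : Ideal (OO k)) * AF f m R σ N0 β z

/-- MODULE `KL` (50 lines; from `S_B7`, `S_B1`, `S_Kap`, `S_R5`). FIELD OF DEFINITION. PROOF. `dO ⊤ ∈ Kf`: `kf_mem`; `Psi τ f a`, `Ray f a ⊤`: `τ (dO ⊤) = dO (a * ⊤) = dO a` (`Psi.dd`), and `dO a = dO ⊤` because `sp α * a = sp α' * ⊤` (`ray_norm`), `DC (sp α * a) = DC a`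
(`S_B7`). `kO f ⊤ ∈ Kf` (`S_Kap`), `kO f ⊤ ≠ 0` (`io (kO f ⊤) = s2/fr²`, `s2 ≠ 0`: `S_B1`, `fr ≠ 0`: `S_R5`). `a2O`, `a4O` by field operations. -/
def S_KL : Prop := ∀ (k : ℕ) [SqK k] (f : ℕ), Odd f → 3 ≤ f →
  kO f (⊤ : Ideal (OO k)) ∈ Kf k f ∧ kO f (⊤ : Ideal (OO k)) ≠ 0 ∧
    a2O f (⊤ : Ideal (OO k)) ∈ Kf k f ∧ a4O f (⊤ : Ideal (OO k)) ∈ Kf k f

/-- The function `Ψ`. -/
def PsF {k : ℕ} [SqK k] (f : ℕ) (m m' : Ideal (OO k)) (R : Finset (Ideal (OO k)))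
    (σ : Ideal (OO k) → Gal(Om/ℚ)) (N0 : ℕ) (β β' : Om) (z : ℂ) : ℂ :=
  Gt k (AF f m R σ N0 β z) * Ht k (AF f m' R σ N0 β' z)

/-- MODULE `PsE` (170 lines; from `S_F3c`, `S_LaF`, `S_GHs`, `S_uA`, `S_KL`). THE EXPANSION. Adapt `DI/F/PsiExp.lean` (`DI.F.PsiExpAux`: `pmap_inj`, `der_map`, `lift`, `norm_ex` may be imported; `twrel_lift` has to be adapted to `TWr`). PROOF. `K = (Kf k f).toSubfield.map io`, `φ = fr f ⊤`, `ka = io (kO f ⊤)`,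
`s = s2r k`. `g1 u = φ * Gam (LP (ppb k)) 2 (eG k) (u/φ) / s`, `g2 u = 2 * φ * Gam (LP (pp k)) 2 (eH k) (u/φ) / s` (`DI.F.Gam`, analytic at `0`: `DI.F.S_Gam` (3) with the subfield `⊤`; `u Gam`-relation `S_Gam` (1)), so for `u ≠ 0` `g1 u/u = Gt k (u/φ)`, `g2 u/u = Ht k (u/φ)`. For small `u ≠ 0`
`u ∉ Λ.lattice` (`PeriodPair.compl_lattice_sdiff_singleton_mem_nhds`), `u/φ ∉ Lam ⊤` (`S_LaF` (3)), `S_GHs` and `S_LaF` (2): `ka (g1 u/u)² = ka X(u/φ) = Λ.weierstrassP u - (1 + 4 a2)/12`, the same for `g2`. `uA`, `uB` from `S_uA`. `S_F3c`; lift `TA, .., ψ` to `Om` (`lift`; `TWr` and the relation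
by `pmap_inj`). For `im z` large `q = ex z` is small and `≠ 0`, so `uA q ≠ 0`, `uB q ≠ 0` (`DI.F.F3coreAux.near`, `DI/F/F3core.lean`) and
`g1 (uA q)/uA q = Gt k (uA q/φ) = Gt k (A z)`, `g2 (uB q)/uB q = Ht k (B z)`. -/
def S_PsE : Prop := ∀ (k : ℕ) [SqK k] (f : ℕ) (m m' : Ideal (OO k)) (R : Finset (Ideal (OO k))),
  FM f m → FM f m' → FR f R → IsRC f R → ∀ σ : Ideal (OO k) → Gal(Om/ℚ), IsSig k f σ →
  ∀ (N0 : ℕ) (β β' : Om), β ∈ Kf k f → β' ∈ Kf k f → aF f m R σ N0 β 1 ≠ 0 →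
  aF f m' R σ N0 β' 1 ≠ 0 →
  ∃ (TA WA TB WB ψ : PowerSeries Om) (Y : ℝ), (∀ n, PowerSeries.coeff n ψ ∈ Kf k f) ∧
    TWr (a2O f (⊤ : Ideal (OO k))) (a4O f (⊤ : Ideal (OO k))) (uF f m R σ N0 β) TA WA ∧
    TWr (a2O f (⊤ : Ideal (OO k))) (a4O f (⊤ : Ideal (OO k))) (uF f m' R σ N0 β') TB WB ∧
    ψ ≠ 0 ∧ ψ ^ 2 * PowerSeries.C (kO f (⊤ : Ideal (OO k)) ^ 2) * WA * WB =
      PowerSeries.X ^ 4 * TA * (4 * TB + PowerSeries.C (kO f (⊤ : Ideal (OO k))) * WB) ∧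
    ∀ z : ℂ, Y < z.im → HasSum (fun n : ℕ => io (PowerSeries.coeff n ψ) * ex z ^ n)
      (ex z ^ 2 * PsF f m m' R σ N0 β β' z)

/-- MODULE `Psi` (110 lines; from `S_C7`, `S_GHf`, `S_GHi`, `S_Cus`, `S_PsE`): `S_Psi` with `Ψ = PsF f m m' R σ N0 β β'`. PROOF. (1) `AF` is differentiable on the upper half plane (`S_C7` (1), finite sum), so analytic at `z` (open set), `Gt`, `Ht` are meromorphic (`S_GHf`): `MeromorphicAt.comp_analyticAt`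
(as in `DI/F/PsiInv.lean`). (2) `S_GHi`: both factors change by the same sign (`α ∈ pp k ↔ α' ∈ ppb k`). (3) `S_Cus` for `γ = (a b; c d)`: `Ψ (γ z) = Gt (al t) * Ht (al' t)`, `t = ex (z/M) = exp (2 π i z/M)`; `F t = Gt (al t) * Ht (al' t)` is meromorphic at `0`; `Y = 0`;
`((γ • z : UpperHalfPlane) : ℂ) = (a z + b)/(c z + d)` (as in `DI/F/PsiCusp.lean`). (4) `S_PsE`. -/
abbrev M_Psi : Prop := S_Psi

/-- MODULE `Asm` (90 lines; from `S_Kf`, `S_F1`, `S_Lead`, `S_Psi`, `S_FH`): `S_F`. Adapt `DI/F/Asm.lean`; `DIF5.tW2 : DIF5.S_W2` (`DI/F5/All.lean`) is complete. PROOF. Suppose not. `σ` from `S_Kf` (3). `S_F1` gives `N0, β, β'`. `m' = cjI m`: `fm_cj`, `lv_cj`, `m' ≠ ⊤` (`cjI_cjI`, `cjI_top`).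
`UP P (aF f m R σ N0 β 1)`, `UP P (aF f m' R σ N0 β' 1)` by `S_Lead` (all `UP P (σ b β')`), so both are `≠ 0` (`UP.ne_zero`). `S_Psi`: `Ψ`, `TA`, .., `ψ`, `Y`. `S_W2` with `V = DI.F.VS hP.1.1 hP.1.2`, `L = Kf k f`, level `M` (`NeZero M`: `3 ≤ M`), `m = 2`: invariance under `γ ∈ Gamma1 M` from `S_Psi` (2) and the
last claim of `S_F1` (`z' = γ • z`). `S_FH` gives `False` (`VP P (τ β')` from `UP P (τ β')`). -/
abbrev M_Asm : Prop := S_F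

end Pool.Agent.DK.F
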