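import Pool.Agent.Lib.DK.F.Spec
import Pool.Agent.Lib.DI.F.PsiExp

/-!
# Module DK/F/uA: the function `u = φ A` of `q`
-/

set_option autoImplicit false

open scoped Pointwise Topology MatrixGroups
open Filter

noncomputable section

namespace Pool.Agent.DK.F

open Pool.Agent.MuZ Pool.Agent.FW NumberField IsDedekindDomain Pool.Agent.DK
open Pool.Agent.DI (io ofC io_inj exists_io io_ofC ofC_io VP MP UP TP ex sqr sqr_sq kap)
open Pool.Agent.DI.F (tay Co Cf P0 P1)

theorem tuA (hLead : S_Lead) : S_uA := by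
  intro k _ f m R hm hR hRC σ hσ N0 β hβ h1ne
  obtain ⟨hK, ha0, hsum, -⟩ := hLead k f m R hm hR hRC σ hσ N0 β hβ
  have hc : ∀ n : ℕ, PowerSeries.coeff n (uF f m R σ N0 β) = aF f m R σ N0 β n := fun n =>
    PowerSeries.coeff_mk n _
  let uA : ℂ → ℂ := fun q => ∑' n : ℕ, io (aF f m R σ N0 β n) * q ^ n
  have hz : ∀ z : ℂ, 0 < z.im → uA (ex z) = fr f (⊤ : Ideal (OO k)) * AF f m R σ N0 β z :=
    fun z hz => (hsum z hz).tsum_eq
  have h0 : HasSum (fun n : ℕ => io (aF f m R σ N0 β n) * (0 : ℂ) ^ n) 0 := by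
    have e : (fun n : ℕ => io (aF f m R σ N0 β n) * (0 : ℂ) ^ n) = fun _ => 0 := by
      funext n
      rcases Nat.eq_zero_or_pos n with rfl | hn
      · rw [ha0, map_zero, zero_mul]
      · rw [zero_pow hn.ne', mul_zero]
    rw [e]
    exact hasSum_zero
  have hu0 : uA 0 = 0 := h0.tsum_eq
  have hev : ∀ᶠ q in 𝓝 (0 : ℂ),
      HasSum (fun n : ℕ => PowerSeries.coeff n (PowerSeries.map io (uF f m R σ N0 β)) * q ^ n)
        (uA q) := by
    filter_upwards [Metric.ball_mem_nhds (0 : ℂ) one_pos] with q hq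
    rw [mem_ball_zero_iff] at hq
    simp only [PowerSeries.coeff_map, hc]
    rcases eq_or_ne q 0 with rfl | hq0
    · rw [hu0]
      exact h0
    · obtain ⟨z, hz1, rfl⟩ := DI.F.PsiExpAux.exists_ex q hq0 hq
      rw [hz z hz1]
      exact hsum z hz1
  obtain ⟨ha, ht⟩ := DI.F.tTay.2.1 uA _ hev
  refine ⟨uA, ⟨ha, fun n => ?_⟩, hu0, ?_, ht, hz⟩
  · rw [ht, PowerSeries.coeff_map, hc]
    exact ⟨_, hK n, rfl⟩
  · have h5 : PowerSeries.coeff 1 (tay uA) = deriv uA 0 := by
      unfold tay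
      rw [PowerSeries.coeff_mk, iteratedDeriv_one]
      simp
    rw [← h5, ht, PowerSeries.coeff_map, hc]
    intro h6
    rw [← map_zero io] at h6
    exact h1ne (io_inj h6)

end Pool.Agent.DK.F
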